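import Mathlib

/-! Asymptotic estimates. -/

namespace Pool.Agent.R54.HP

open Finset Filter Topology

lemma ev_base : ∀ᶠ n : ℕ in atTop,
    100000 * ((Real.sqrt n + 2) * (Real.log n + 1)) ≤ n := by
  have h1 : (fun x : ℝ => Real.sqrt x + 2) =O[atTop] (fun x : ℝ => x ^ (1 / 2 : ℝ)) := by
    apply Asymptotics.IsBigO.add
    · apply Asymptotics.IsBigO.of_bound 1
      filter_upwards with x
      rw [Real.sqrt_eq_rpow]; simp
    · apply Asymptotics.IsLittleO.isBigO
      apply Asymptotics.isLittleO_const_left.2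
      right
      apply tendsto_norm_atTop_atTop.comp
      exact tendsto_rpow_atTop (by norm_num)
  have h2 : (fun x : ℝ => Real.log x + 1) =o[atTop] (fun x : ℝ => x ^ (1 / 2 : ℝ)) := by
    apply Asymptotics.IsLittleO.add
    · exact isLittleO_log_rpow_atTop (by norm_num)
    · apply Asymptotics.isLittleO_const_left.2
      right
      apply tendsto_norm_atTop_atTop.comp
      exact tendsto_rpow_atTop (by norm_num)
  have h3 := h1.mul_isLittleO h2
  have h4 := h3.bound (c := 1 / 100000) (by norm_num)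
  have h5 := tendsto_natCast_atTop_atTop.eventually h4
  filter_upwards [h5, eventually_ge_atTop 1] with n hn hn1
  have hn' : (1 : ℝ) ≤ n := by exact_mod_cast hn1
  have h6 : (n : ℝ) ^ (1 / 2 : ℝ) * (n : ℝ) ^ (1 / 2 : ℝ) = n := by
    rw [← Real.rpow_add (by linarith)]; norm_num
  rw [h6, Real.norm_eq_abs, Real.norm_eq_abs] at hn
  have h7 := le_abs_self ((Real.sqrt n + 2) * (Real.log n + 1))
  rw [abs_of_nonneg (by linarith : (0 : ℝ) ≤ n)] at hn
  linarith

/-- consequence: the main comparison -/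
lemma pow_lt_of_base {n : ℕ} (hn1 : 1 ≤ n)
    (h : 100000 * ((Real.sqrt n + 2) * (Real.log n + 1)) ≤ n) :
    200000 ≤ n ∧ n ^ (2 * (Nat.sqrt n + 1)) < 2 ^ (n / 100) := by
  have hn' : (1 : ℝ) ≤ n := by exact_mod_cast hn1
  have hlog : 0 ≤ Real.log n := Real.log_nonneg hn'
  have hsq : 0 ≤ Real.sqrt n := Real.sqrt_nonneg _
  have h1 : (200000 : ℝ) ≤ n := by nlinarith
  have h2 : 200000 ≤ n := by exact_mod_cast h1
  refine ⟨h2, ?_⟩
  have h3 : ((n ^ (2 * (Nat.sqrt n + 1)) : ℕ) : ℝ) < ((2 ^ (n / 100) : ℕ) : ℝ) := by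
    push_cast
    have e1 : (n : ℝ) ^ (2 * (Nat.sqrt n + 1)) = Real.exp ((2 * (Nat.sqrt n + 1) : ℕ) * Real.log n) := by
      rw [Real.exp_nat_mul, Real.exp_log (by linarith)]
    have e2 : (2 : ℝ) ^ (n / 100) = Real.exp ((n / 100 : ℕ) * Real.log 2) := by
      rw [Real.exp_nat_mul, Real.exp_log (by norm_num)]
    rw [e1, e2]
    apply Real.exp_lt_exp.2
    have h4 : ((Nat.sqrt n : ℕ) : ℝ) ≤ Real.sqrt n := Real.nat_sqrt_le_real_sqrt
    have h5 : ((2 * (Nat.sqrt n + 1) : ℕ) : ℝ) * Real.log n ≤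
        2 * ((Real.sqrt n + 2) * (Real.log n + 1)) := by
      push_cast
      nlinarith
    have h6 : (n : ℝ) / 100 - 1 ≤ ((n / 100 : ℕ) : ℝ) := by
      have : n < 100 * (n / 100 + 1) := by omega
      have : (n : ℝ) < 100 * (((n / 100 : ℕ) : ℝ) + 1) := by exact_mod_cast this
      linarith
    have h7 : 0.69 < Real.log 2 := by
      have := Real.log_two_gt_d9; linarith
    have h8 : 0.69 * ((n : ℝ) / 100 - 1) ≤ Real.log 2 * ((n / 100 : ℕ) : ℝ) := by
      apply mul_le_mul h7.le h6 (by linarith) (by linarith)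
    linarith
  exact_mod_cast h3

lemma ratio_tendsto : Tendsto (fun n : ℕ => ((1 + (n : ℝ) / 2 ^ ((Nat.sqrt n - 4) / 9)) ^
    (Nat.sqrt n) - 1) + (n : ℝ) ^ 2 / 2 ^ (Nat.sqrt n)) atTop (𝓝 0) := by
  have hsq : Tendsto (fun n : ℕ => Nat.sqrt n) atTop atTop := by
    rw [tendsto_atTop]
    intro b
    filter_upwards [eventually_ge_atTop (b * b)] with n hn
    exact Nat.le_sqrt.2 hn
  have hl : Tendsto (fun n : ℕ => (Nat.sqrt n - 4) / 9) atTop atTop := by
    rw [tendsto_atTop]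
    intro b
    filter_upwards [hsq.eventually_ge_atTop (9 * b + 4)] with n hn
    omega
  -- k n / 2 ^ l → 0
  have hx : Tendsto (fun n : ℕ => (Nat.sqrt n : ℝ) * ((n : ℝ) / 2 ^ ((Nat.sqrt n - 4) / 9)))
      atTop (𝓝 0) := by
    have h1 : Tendsto (fun l : ℕ => 10648 * ((l : ℝ) ^ 3 / 2 ^ l)) atTop (𝓝 0) := by
      have := (tendsto_pow_const_div_const_pow_of_one_lt 3 (one_lt_two (α := ℝ))).const_mul 10648
      simpa using this
    have h2 := h1.comp hl
    refine squeeze_zero' (Eventually.of_forall fun n => by positivity) ?_ h2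
    filter_upwards [hl.eventually_ge_atTop 1] with n hn
    simp only [Function.comp]
    set l := (Nat.sqrt n - 4) / 9 with hl'
    have h3 : Nat.sqrt n ≤ 9 * l + 12 := by omega
    have h4 : n < (Nat.sqrt n + 1) * (Nat.sqrt n + 1) := Nat.lt_succ_sqrt n
    have h5 : Nat.sqrt n * n ≤ (22 * l) ^ 3 := by
      have h6 : Nat.sqrt n ≤ 22 * l := by omega
      have h7 : Nat.sqrt n + 1 ≤ 22 * l := by omega
      calc Nat.sqrt n * n ≤ (22 * l) * ((22 * l) * (22 * l)) := by
            apply Nat.mul_le_mul h6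
            exact h4.le.trans (Nat.mul_le_mul h7 h7)
        _ = _ := by ring
    have h8 : (Nat.sqrt n : ℝ) * n ≤ 10648 * (l : ℝ) ^ 3 := by
      have : ((Nat.sqrt n * n : ℕ) : ℝ) ≤ (((22 * l) ^ 3 : ℕ) : ℝ) := by exact_mod_cast h5
      push_cast at this
      nlinarith
    rw [mul_div_assoc', mul_div_assoc']
    exact div_le_div_of_nonneg_right h8 (by positivity)
  have hfirst : Tendsto (fun n : ℕ => (1 + (n : ℝ) / 2 ^ ((Nat.sqrt n - 4) / 9)) ^
      (Nat.sqrt n) - 1) atTop (𝓝 0) := by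
    have h1 : Tendsto (fun n : ℕ => Real.exp ((Nat.sqrt n : ℝ) *
        ((n : ℝ) / 2 ^ ((Nat.sqrt n - 4) / 9))) - 1) atTop (𝓝 0) := by
      have h2 := (Real.continuous_exp.tendsto 0).comp hx
      rw [Real.exp_zero] at h2
      have := h2.sub_const 1
      simpa using this
    refine squeeze_zero (fun n => ?_) (fun n => ?_) h1
    · have : (1 : ℝ) ≤ (1 + (n : ℝ) / 2 ^ ((Nat.sqrt n - 4) / 9)) ^ (Nat.sqrt n) := by
        apply one_le_pow₀
        have : (0 : ℝ) ≤ (n : ℝ) / 2 ^ ((Nat.sqrt n - 4) / 9) := by positivity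
        linarith
      linarith
    · have h3 : 1 + (n : ℝ) / 2 ^ ((Nat.sqrt n - 4) / 9) ≤
          Real.exp ((n : ℝ) / 2 ^ ((Nat.sqrt n - 4) / 9)) := by
        have := Real.add_one_le_exp ((n : ℝ) / 2 ^ ((Nat.sqrt n - 4) / 9))
        linarith
      have h4 := pow_le_pow_left₀ (by positivity) h3 (Nat.sqrt n)
      rw [← Real.exp_nat_mul] at h4
      linarith
  have hsecond : Tendsto (fun n : ℕ => (n : ℝ) ^ 2 / 2 ^ (Nat.sqrt n)) atTop (𝓝 0) := by
    have h1 : Tendsto (fun k : ℕ => 16 * ((k : ℝ) ^ 4 / 2 ^ k)) atTop (𝓝 0) := by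
      have := (tendsto_pow_const_div_const_pow_of_one_lt 4 (one_lt_two (α := ℝ))).const_mul 16
      simpa using this
    have h2 := h1.comp hsq
    refine squeeze_zero' (Eventually.of_forall fun n => by positivity) ?_ h2
    filter_upwards [hsq.eventually_ge_atTop 1] with n hn
    simp only [Function.comp]
    have h4 : n < (Nat.sqrt n + 1) * (Nat.sqrt n + 1) := Nat.lt_succ_sqrt n
    have h5 : n ^ 2 ≤ 16 * (Nat.sqrt n) ^ 4 := by
      have h6 : n ≤ (2 * Nat.sqrt n) * (2 * Nat.sqrt n) :=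
        h4.le.trans (Nat.mul_le_mul (by omega) (by omega))
      calc n ^ 2 ≤ ((2 * Nat.sqrt n) * (2 * Nat.sqrt n)) ^ 2 := Nat.pow_le_pow_left h6 2
        _ = _ := by ring
    have h8 : (n : ℝ) ^ 2 ≤ 16 * (Nat.sqrt n : ℝ) ^ 4 := by exact_mod_cast h5
    rw [mul_div_assoc']
    exact div_le_div_of_nonneg_right h8 (by positivity)
  simpa using hfirst.add hsecond

end Pool.Agent.R54.HP
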