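import Mathlib

/-! Harary polynomials of graphs: the definitions. -/

namespace Pool.Agent.R54.HP

/-- A graph property: a class of finite graphs closed under isomorphism. -/
structure GraphProperty where
  /-- membership of a finite graph in the class -/
  Mem : ∀ {V : Type} [Finite V], SimpleGraph V → Prop
  /-- the class is closed under isomorphism -/
  iso : ∀ {V W : Type} [Finite V] [Finite W] {G : SimpleGraph V} {H : SimpleGraph W},
    Nonempty (G ≃g H) → Mem G → Mem H

/-- The number `h_i` of partitions of the vertex set of `G` into exactly `i` nonempty blocks,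
each of which induces a graph of the class `P`. -/
noncomputable def hNum (P : GraphProperty) {V : Type} [Fintype V] [DecidableEq V]
    (G : SimpleGraph V) (i : ℕ) : ℕ :=
  Set.ncard {π : Finpartition (Finset.univ : Finset V) |
    π.parts.card = i ∧ ∀ B ∈ π.parts, P.Mem (G.induce (B : Set V))}

/-- The Harary polynomial `∑ h_i k (k-1) ⋯ (k-i+1)`. -/
noncomputable def harary (P : GraphProperty) {V : Type} [Fintype V] [DecidableEq V]
    (G : SimpleGraph V) : Polynomial ℤ :=
  ∑ i ∈ Finset.range (Fintype.card V + 1), (hNum P G i : ℤ) • descPochhammer ℤ i

/-- `G` is unique for the Harary polynomial of `P`: every finite graph with the same Harary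
polynomial is isomorphic to `G`. -/
def IsUnique (P : GraphProperty) {V : Type} [Fintype V] [DecidableEq V]
    (G : SimpleGraph V) : Prop :=
  ∀ (W : Type) [Fintype W] [DecidableEq W] (H : SimpleGraph W),
    harary P H = harary P G → Nonempty (H ≃g G)

end Pool.Agent.R54.HP
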