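import Mathlib

/-! A lower tail estimate for sums of independent indicator variables. -/

namespace Pool.Agent.R54.HP

open Finset

lemma lower_tail {α C : Type*} [Fintype α] [DecidableEq α] [Fintype C] [DecidableEq C]
    (F : Finset α) (A : α → Finset C) (p : ℝ)
    (hA : ∀ x ∈ F, p * Fintype.card C ≤ ((A x).card : ℝ))
    (K : ℕ) (hK : (K : ℝ) ≤ p * F.card / 4) :
    (((univ : Finset (α → C)).filter
      (fun θ => (F.filter (fun x => θ x ∈ A x)).card < K)).card : ℝ)
      ≤ Fintype.card (α → C) * Real.exp (-(p * F.card / 4)) := by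
  classical
  set f : α → C → ℝ := fun x c => if x ∈ F ∧ c ∈ A x then 1 / 2 else 1 with hf
  have hprod : ∏ x, ∑ c, f x c = ∑ θ : α → C, ∏ x, f x (θ x) := by
    rw [Finset.prod_univ_sum]
    simp
  have hval : ∀ θ : α → C, ∏ x, f x (θ x)
      = (1 / 2 : ℝ) ^ (F.filter (fun x => θ x ∈ A x)).card := by
    intro θ
    simp only [hf]
    rw [Finset.prod_ite]
    simp only [Finset.prod_const, one_pow, mul_one]
    congr 2
    ext x
    simp
  have hsum : ∀ x, ∑ c, f x c ≤ Fintype.card C * (if x ∈ F then Real.exp (-(p / 2)) else 1) := by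
    intro x
    by_cases hx : x ∈ F
    · simp only [hf, hx, true_and, if_true]
      have h1 : ∑ c, (if c ∈ A x then (1 / 2 : ℝ) else 1)
          = Fintype.card C - (A x).card / 2 := by
        have : ∀ c, (if c ∈ A x then (1 / 2 : ℝ) else 1) = 1 - (if c ∈ A x then 1 / 2 else 0) := by
          intro c; split_ifs <;> norm_num
        rw [Finset.sum_congr rfl (fun c _ => this c), Finset.sum_sub_distrib]
        simp
        ring
      rw [h1]
      have h2 := hA x hx
      have h3 : 1 - p / 2 ≤ Real.exp (-(p / 2)) := by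
        have := Real.add_one_le_exp (-(p / 2)); linarith
      have h4 : (0 : ℝ) ≤ Fintype.card C := by positivity
      calc (Fintype.card C : ℝ) - (A x).card / 2 ≤ Fintype.card C * (1 - p / 2) := by linarith
        _ ≤ _ := mul_le_mul_of_nonneg_left h3 h4
    · simp [hf, hx]
  have hpos : ∀ x, 0 ≤ ∑ c, f x c := by
    intro x
    apply Finset.sum_nonneg
    intro c _
    simp only [hf]
    split_ifs <;> norm_num
  have htot : ∏ x, ∑ c, f x c ≤ Fintype.card (α → C) * Real.exp (-(p * F.card / 2)) := by
    calc ∏ x, ∑ c, f x c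
        ≤ ∏ x : α, (Fintype.card C * (if x ∈ F then Real.exp (-(p / 2)) else 1) : ℝ) :=
          Finset.prod_le_prod (fun x _ => hpos x) (fun x _ => hsum x)
      _ = (Fintype.card C : ℝ) ^ Fintype.card α * (Real.exp (-(p / 2))) ^ F.card := by
          rw [Finset.prod_mul_distrib, Finset.prod_const, Finset.card_univ, Finset.prod_ite_mem]
          simp
      _ = _ := by
          rw [← Real.exp_nat_mul, Fintype.card_fun]
          push_cast
          congr 2
          ring
  set B := (univ : Finset (α → C)).filter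
      (fun θ => (F.filter (fun x => θ x ∈ A x)).card < K) with hB
  have hlow : (B.card : ℝ) * (1 / 2) ^ K ≤ ∑ θ : α → C, ∏ x, f x (θ x) := by
    calc (B.card : ℝ) * (1 / 2) ^ K = ∑ θ ∈ B, (1 / 2 : ℝ) ^ K := by
          rw [Finset.sum_const, nsmul_eq_mul]
      _ ≤ ∑ θ ∈ B, ∏ x, f x (θ x) := by
          apply Finset.sum_le_sum
          intro θ hθ
          rw [hval]
          apply pow_le_pow_of_le_one (by norm_num) (by norm_num)
          exact (mem_filter.1 hθ).2.le
      _ ≤ _ := by
          apply Finset.sum_le_sum_of_subset_of_nonneg (Finset.subset_univ _)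
          intro θ _ _
          rw [hval]; positivity
  rw [← hprod] at hlow
  have h5 : (B.card : ℝ) * (1 / 2) ^ K ≤ Fintype.card (α → C) * Real.exp (-(p * F.card / 2)) :=
    hlow.trans htot
  have h6 : (2 : ℝ) ^ K ≤ Real.exp (K : ℝ) := by
    have : (2 : ℝ) ≤ Real.exp 1 := by
      have := Real.add_one_le_exp (1 : ℝ); linarith
    calc (2 : ℝ) ^ K ≤ (Real.exp 1) ^ K := pow_le_pow_left₀ (by norm_num) this _
      _ = Real.exp K := by rw [← Real.exp_nat_mul]; simp
  have h7 : (B.card : ℝ) = (B.card : ℝ) * (1 / 2) ^ K * 2 ^ K := by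
    rw [mul_assoc, ← mul_pow]; norm_num
  rw [h7]
  have h8 : (0 : ℝ) ≤ Fintype.card (α → C) := by positivity
  calc (B.card : ℝ) * (1 / 2) ^ K * 2 ^ K
      ≤ (Fintype.card (α → C) * Real.exp (-(p * F.card / 2))) * Real.exp K :=
        mul_le_mul h5 h6 (by positivity) (by positivity)
    _ = Fintype.card (α → C) * Real.exp (-(p * F.card / 2) + K) := by
        rw [mul_assoc, ← Real.exp_add]
    _ ≤ _ := by
        apply mul_le_mul_of_nonneg_left _ h8
        apply Real.exp_le_exp.2
        linarith

end Pool.Agent.R54.HP
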