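import Pool.Agent.R54.HP.Basic

/-! Types of graphs, properties given by levels. -/

namespace Pool.Agent.R54.HP

open Finset

/-! ### Types of graphs -/

/-- isomorphism of graphs on `Fin m` -/
def isoSetoid (m : ℕ) : Setoid (SimpleGraph (Fin m)) where
  r F F' := Nonempty (F ≃g F')
  iseqv := ⟨fun _ => ⟨SimpleGraph.Iso.refl⟩, fun ⟨e⟩ => ⟨e.symm⟩, fun ⟨e⟩ ⟨f⟩ => ⟨e.trans f⟩⟩

/-- a canonical representative of the isomorphism class -/
noncomputable def canon {m : ℕ} (F : SimpleGraph (Fin m)) : SimpleGraph (Fin m) :=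
  Quotient.out (Quotient.mk (isoSetoid m) F)

lemma canon_iso {m : ℕ} (F : SimpleGraph (Fin m)) : Nonempty (canon F ≃g F) := by
  have h := Quotient.mk_out (s := isoSetoid m) F
  exact h

lemma canon_eq {m : ℕ} {F F' : SimpleGraph (Fin m)} (h : Nonempty (F ≃g F')) :
    canon F = canon F' := by
  unfold canon
  congr 1
  exact Quotient.sound h

open Classical in
/-- the type of a graph on a set with `m` elements -/
noncomputable def tp (m : ℕ) {V : Type} (G : SimpleGraph V) : SimpleGraph (Fin m) :=
  if h : Nonempty (Fin m ≃ V) then canon (G.comap h.some) else ⊥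

lemma tp_iso {m : ℕ} {V : Type} (G : SimpleGraph V) (h : Nonempty (Fin m ≃ V)) :
    Nonempty (tp m G ≃g G) := by
  unfold tp
  rw [dif_pos h]
  obtain ⟨e⟩ := canon_iso (G.comap h.some)
  exact ⟨e.trans (SimpleGraph.Iso.comap h.some G)⟩

lemma tp_eq {m : ℕ} {V W : Type} {G : SimpleGraph V} {H : SimpleGraph W}
    (e : G ≃g H) : tp m G = tp m H := by
  unfold tp
  by_cases h : Nonempty (Fin m ≃ V)
  · have h' : Nonempty (Fin m ≃ W) := h.map fun f => f.trans e.toEquiv
    rw [dif_pos h, dif_pos h']
    apply canon_eq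
    exact ⟨((SimpleGraph.Iso.comap h.some G).trans e).trans
      (SimpleGraph.Iso.comap h'.some H).symm⟩
  · have h' : ¬ Nonempty (Fin m ≃ W) := fun h' => h (h'.map fun f => f.trans e.toEquiv.symm)
    rw [dif_neg h, dif_neg h']

lemma tp_eq_iff {m : ℕ} {V W : Type} {G : SimpleGraph V} {H : SimpleGraph W}
    (h : Nonempty (Fin m ≃ V)) (h' : Nonempty (Fin m ≃ W)) :
    tp m G = tp m H ↔ Nonempty (G ≃g H) := by
  constructor
  · intro heq
    obtain ⟨e⟩ := tp_iso G h
    obtain ⟨f⟩ := tp_iso H h'
    rw [heq] at e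
    exact ⟨e.symm.trans f⟩
  · rintro ⟨e⟩
    exact tp_eq e

lemma tp_tp {m : ℕ} {V : Type} (G : SimpleGraph V) (h : Nonempty (Fin m ≃ V)) :
    tp m (tp m G) = tp m G := by
  obtain ⟨e⟩ := tp_iso G h
  exact tp_eq e

/-! ### Properties given by levels -/

/-- Data deciding for each size which graphs belong to the property. -/
abbrev Lev := ∀ m : ℕ, SimpleGraph (Fin m) → Prop

/-- The graph property given by levels. -/
noncomputable def prop (X : Lev) : GraphProperty where
  Mem {V} _ G := X (Nat.card V) (tp (Nat.card V) G)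
  iso := by
    intro V W _ _ G H ⟨e⟩ h
    have hc : Nat.card V = Nat.card W := Nat.card_congr e.toEquiv
    rw [← hc, ← tp_eq e]
    exact h

lemma prop_mem (X : Lev) {V : Type} [Finite V] (G : SimpleGraph V) :
    (prop X).Mem G ↔ X (Nat.card V) (tp (Nat.card V) G) := Iff.rfl

lemma prop_mem_induce (X : Lev) {n : ℕ} (G : SimpleGraph (Fin n)) (B : Finset (Fin n)) {s : ℕ}
    (hB : B.card = s) :
    (prop X).Mem (G.induce (B : Set (Fin n))) ↔ X s (tp s (G.induce (B : Set (Fin n)))) := by
  rw [prop_mem]
  have : Nat.card (B : Set (Fin n)) = s := by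
    rw [Nat.card_coe_set_eq, Set.ncard_coe_finset, hB]
  rw [this]

lemma nonempty_equiv {n : ℕ} (B : Finset (Fin n)) {s : ℕ} (hB : B.card = s) :
    Nonempty (Fin s ≃ (B : Set (Fin n))) :=
  ⟨((Finset.equivFinOfCardEq hB).symm : Fin s ≃ B)⟩

open Classical in
/-- The number of sets with `s` elements inducing a graph of the class. -/
noncomputable def NN (X : Lev) {n : ℕ} (G : SimpleGraph (Fin n)) (s : ℕ) : ℕ :=
  ((Finset.powersetCard s univ).filter
    (fun B : Finset (Fin n) => X s (tp s (G.induce (B : Set (Fin n)))))).card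

/-- The number of partitions all whose parts have less than `s` elements. -/
noncomputable def small (X : Lev) {n : ℕ} (G : SimpleGraph (Fin n)) (s : ℕ) : ℕ :=
  Set.ncard {π : Finpartition (Finset.univ : Finset (Fin n)) |
    π.parts.card = n - s + 1 ∧ (∀ B ∈ π.parts, B.card < s) ∧
      ∀ B ∈ π.parts, (prop X).Mem (G.induce (B : Set (Fin n)))}

/-- parts of a partition into `n - s + 1` blocks -/
lemma part_card {n s : ℕ} (hsn : s ≤ n)
    (π : Finpartition (Finset.univ : Finset (Fin n)))
    (hπ : π.parts.card = n - s + 1) {B : Finset (Fin n)} (hB : B ∈ π.parts) :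
    B.card ≤ s ∧ (B.card = s → ∀ C ∈ π.parts, C ≠ B → C.card = 1) := by
  have hsum := π.sum_card_parts
  rw [Finset.card_univ, Fintype.card_fin] at hsum
  rw [← Finset.add_sum_erase _ _ hB] at hsum
  have hcard : (π.parts.erase B).card = n - s := by
    rw [Finset.card_erase_of_mem hB, hπ]; omega
  have hpos : ∀ C ∈ π.parts.erase B, 1 ≤ C.card := by
    intro C hC
    exact (π.nonempty_of_mem_parts (Finset.mem_of_mem_erase hC)).card_pos
  have hge : (π.parts.erase B).card • 1 ≤ ∑ C ∈ π.parts.erase B, C.card :=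
    Finset.card_nsmul_le_sum _ _ _ hpos
  rw [hcard, smul_eq_mul, mul_one] at hge
  constructor
  · omega
  · intro hBs C hC hne
    have hCm : C ∈ π.parts.erase B := Finset.mem_erase.2 ⟨hne, hC⟩
    have heq : ∑ C ∈ π.parts.erase B, C.card = ∑ C ∈ π.parts.erase B, 1 := by
      rw [Finset.sum_const, hcard, smul_eq_mul, mul_one]; omega
    exact ((Finset.sum_eq_sum_iff_of_le (fun C hC => hpos C hC)).1 heq.symm C hCm).symm

open Classical in
/-- the partition with one block `S` and singletons -/
noncomputable def mkP {n : ℕ} (S : Finset (Fin n)) (hS : S.Nonempty) :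
    Finpartition (Finset.univ : Finset (Fin n)) :=
  Finpartition.ofExistsUnique (insert S (Sᶜ.image (fun x => {x})))
    (fun p _ => Finset.subset_univ p)
    (by
      intro a _
      by_cases ha : a ∈ S
      · refine ⟨S, ⟨Finset.mem_insert_self _ _, ha⟩, ?_⟩
        rintro t ⟨ht, hat⟩
        rcases Finset.mem_insert.1 ht with h | h
        · exact h
        · obtain ⟨x, hx, rfl⟩ := Finset.mem_image.1 h
          rw [Finset.mem_singleton] at hat
          subst hat
          exact absurd ha (Finset.mem_compl.1 hx)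
      · refine ⟨{a}, ⟨Finset.mem_insert_of_mem (Finset.mem_image.2
          ⟨a, Finset.mem_compl.2 ha, rfl⟩), Finset.mem_singleton_self a⟩, ?_⟩
        rintro t ⟨ht, hat⟩
        rcases Finset.mem_insert.1 ht with h | h
        · subst h; exact absurd hat ha
        · obtain ⟨x, hx, rfl⟩ := Finset.mem_image.1 h
          rw [Finset.mem_singleton] at hat
          rw [hat])
    (by
      intro h
      rcases Finset.mem_insert.1 h with h | h
      · rw [← h] at hS; exact Finset.not_nonempty_empty hS
      · obtain ⟨x, _, hx⟩ := Finset.mem_image.1 h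
        exact Finset.singleton_ne_empty x hx)

open Classical in
lemma mkP_parts {n : ℕ} (S : Finset (Fin n)) (hS : S.Nonempty) :
    (mkP S hS).parts = insert S (Sᶜ.image (fun x => {x})) := rfl

open Classical in
lemma mkP_card {n : ℕ} (S : Finset (Fin n)) (hS : S.Nonempty) {s : ℕ} (hs : 2 ≤ s)
    (hSs : S.card = s) : (mkP S hS).parts.card = n - s + 1 := by
  rw [mkP_parts, Finset.card_insert_of_notMem, Finset.card_image_of_injective,
    Finset.card_compl, Fintype.card_fin, hSs]
  · exact Finset.singleton_injective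
  · intro h
    obtain ⟨x, _, hx⟩ := Finset.mem_image.1 h
    rw [← hx, Finset.card_singleton] at hSs
    omega

open Classical in
/-- The main decomposition. -/
lemma hNum_eq (X : Lev) (hX : ∀ F, X 1 F) {n : ℕ} (G : SimpleGraph (Fin n)) {s : ℕ}
    (hs : 2 ≤ s) (hsn : s ≤ n) :
    hNum (prop X) G (n - s + 1) = NN X G s + small X G s := by
  set PP : Set (Finpartition (Finset.univ : Finset (Fin n))) :=
    {π | π.parts.card = n - s + 1 ∧
      ∀ B ∈ π.parts, (prop X).Mem (G.induce (B : Set (Fin n)))} with hPP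
  set PS : Set (Finpartition (Finset.univ : Finset (Fin n))) :=
    {π | π.parts.card = n - s + 1 ∧ (∀ B ∈ π.parts, B.card < s) ∧
      ∀ B ∈ π.parts, (prop X).Mem (G.induce (B : Set (Fin n)))} with hPS
  set FF := (Finset.powersetCard s (univ : Finset (Fin n))).filter
    (fun B : Finset (Fin n) => X s (tp s (G.induce (B : Set (Fin n))))) with hFF
  have hne : ∀ B ∈ FF, B.Nonempty := by
    intro B hB
    rw [hFF, mem_filter, mem_powersetCard] at hB
    rw [← Finset.card_pos, hB.1.2]; omega
  set Q : Set (Finpartition (Finset.univ : Finset (Fin n))) :=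
    {π | ∃ B ∈ FF, ∃ h : B.Nonempty, π = mkP B h} with hQ
  have hsingle : ∀ x : Fin n, (prop X).Mem (G.induce (({x} : Finset (Fin n)) : Set (Fin n))) := by
    intro x
    rw [prop_mem_induce X G {x} (Finset.card_singleton x)]
    exact hX _
  have hunion : PP = Q ∪ PS := by
    ext π
    simp only [hPP, hPS, hQ, Set.mem_ofPred_eq, Set.mem_union]
    constructor
    · rintro ⟨h1, h2⟩
      by_cases hb : ∀ B ∈ π.parts, B.card < s
      · right; exact ⟨h1, hb, h2⟩
      · left
        push Not at hb
        obtain ⟨B, hB, hBs⟩ := hb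
        have hp := part_card hsn π h1 hB
        have hBs' : B.card = s := le_antisymm hp.1 hBs
        have hBn : B.Nonempty := π.nonempty_of_mem_parts hB
        refine ⟨B, ?_, hBn, ?_⟩
        · rw [hFF, mem_filter, mem_powersetCard]
          exact ⟨⟨Finset.subset_univ _, hBs'⟩, (prop_mem_induce X G B hBs').1 (h2 B hB)⟩
        · ext C
          rw [mkP_parts, Finset.mem_insert, Finset.mem_image]
          constructor
          · intro hC
            by_cases hCB : C = B
            · left; exact hCB
            · right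
              have hC1 := hp.2 hBs' C hC hCB
              obtain ⟨x, rfl⟩ := Finset.card_eq_one.1 hC1
              refine ⟨x, ?_, rfl⟩
              rw [Finset.mem_compl]
              intro hxB
              exact hCB (π.eq_of_mem_parts hC hB (Finset.mem_singleton_self x) hxB)
          · rintro (h | ⟨x, hx, rfl⟩)
            · rw [h]; exact hB
            · rw [Finset.mem_compl] at hx
              obtain ⟨D, hD, hxD⟩ := π.exists_mem (Finset.mem_univ x)
              have hDB : D ≠ B := fun h => hx (h ▸ hxD)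
              have hD1 := hp.2 hBs' D hD hDB
              obtain ⟨y, rfl⟩ := Finset.card_eq_one.1 hD1
              rw [Finset.mem_singleton] at hxD
              rw [hxD]; exact hD
    · rintro (⟨B, hB, hn, rfl⟩ | ⟨h1, _, h2⟩)
      · rw [hFF, mem_filter, mem_powersetCard] at hB
        refine ⟨mkP_card B hn hs hB.1.2, ?_⟩
        intro C hC
        rw [mkP_parts, Finset.mem_insert, Finset.mem_image] at hC
        rcases hC with h | ⟨x, _, rfl⟩
        · rw [h]
          exact (prop_mem_induce X G B hB.1.2).2 hB.2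
        · exact hsingle x
      · exact ⟨h1, h2⟩
  have hdisj : Disjoint Q PS := by
    rw [Set.disjoint_left]
    rintro π ⟨B, hB, hn, rfl⟩ hπ
    simp only [hPS, Set.mem_ofPred_eq] at hπ
    rw [hFF, mem_filter, mem_powersetCard] at hB
    have := hπ.2.1 B (by rw [mkP_parts]; exact Finset.mem_insert_self _ _)
    omega
  have hQcard : Q.ncard = FF.card := by
    rw [← Set.ncard_coe_finset]
    symm
    apply Set.ncard_congr (fun B hB => mkP B (hne B hB))
    · intro B hB
      exact ⟨B, hB, hne B hB, rfl⟩
    · intro B C hB hC heq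
      have h1 : B ∈ (mkP C (hne C hC)).parts := by
        rw [← heq, mkP_parts]; exact Finset.mem_insert_self _ _
      rw [mkP_parts, Finset.mem_insert, Finset.mem_image] at h1
      rcases h1 with h | ⟨x, _, hx⟩
      · exact h
      · rw [Finset.mem_coe, hFF, mem_filter, mem_powersetCard] at hB
        rw [← hx, Finset.card_singleton] at hB
        omega
    · rintro π ⟨B, hB, hn, rfl⟩
      exact ⟨B, hB, rfl⟩
  change PP.ncard = FF.card + PS.ncard
  rw [hunion, Set.ncard_union_eq hdisj (Set.toFinite _) (Set.toFinite _), hQcard]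

/-- Locality of the small part. -/
lemma small_congr {X Y : Lev} {n : ℕ} (G : SimpleGraph (Fin n)) {s : ℕ}
    (h : ∀ m < s, X m = Y m) : small X G s = small Y G s := by
  unfold small
  congr 1
  ext π
  simp only [Set.mem_ofPred_eq]
  constructor
  · rintro ⟨h1, h2, h3⟩
    refine ⟨h1, h2, fun B hB => ?_⟩
    rw [prop_mem_induce Y G B rfl, ← h _ (h2 B hB), ← prop_mem_induce X G B rfl]
    exact h3 B hB
  · rintro ⟨h1, h2, h3⟩
    refine ⟨h1, h2, fun B hB => ?_⟩
    rw [prop_mem_induce X G B rfl, h _ (h2 B hB), ← prop_mem_induce Y G B rfl]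
    exact h3 B hB

/-- Locality of the numbers `h`. -/
lemma hNum_congr {X Y : Lev} {n : ℕ} (G : SimpleGraph (Fin n)) {s : ℕ}
    (hsn : s ≤ n) (h : ∀ m ≤ s, X m = Y m) :
    hNum (prop X) G (n - s + 1) = hNum (prop Y) G (n - s + 1) := by
  unfold hNum
  congr 1
  ext π
  simp only [Set.mem_ofPred_eq]
  constructor
  · rintro ⟨h1, h3⟩
    refine ⟨h1, fun B hB => ?_⟩
    rw [prop_mem_induce Y G B rfl, ← h _ (part_card hsn π h1 hB).1,
      ← prop_mem_induce X G B rfl]
    exact h3 B hB
  · rintro ⟨h1, h3⟩
    refine ⟨h1, fun B hB => ?_⟩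
    rw [prop_mem_induce X G B rfl, h _ (part_card hsn π h1 hB).1,
      ← prop_mem_induce Y G B rfl]
    exact h3 B hB

end Pool.Agent.R54.HP
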