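import Mathlib

/-! Estimates for binomial coefficients and their product. -/

namespace Pool.Agent.R54.HP

open Finset

lemma two_pow_le_central (m : ℕ) : 2 ^ m ≤ Nat.centralBinom m := by
  induction m with
  | zero => simp
  | succ m ih =>
    have h := Nat.succ_mul_centralBinom_succ m
    have h1 : (m + 1) * 2 ^ (m + 1) ≤ (m + 1) * Nat.centralBinom (m + 1) := by
      rw [h]
      calc (m + 1) * 2 ^ (m + 1) = 2 * (m + 1) * 2 ^ m := by ring
        _ ≤ 2 * (2 * m + 1) * Nat.centralBinom m := Nat.mul_le_mul (by omega) ih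
    exact Nat.le_of_mul_le_mul_left h1 (Nat.succ_pos m)

lemma two_pow_le_choose {n m : ℕ} (h : 2 * m ≤ n) : 2 ^ m ≤ n.choose m := by
  refine (two_pow_le_central m).trans ?_
  rw [Nat.centralBinom_eq_two_mul_choose]
  exact Nat.choose_le_choose m h

lemma choose_lower {n s : ℕ} (h1 : n ≤ 100 * s) (h2 : 100 * s ≤ 99 * n) :
    2 ^ (n / 100) ≤ n.choose s := by
  rcases le_total (2 * s) n with h | h
  · exact (Nat.pow_le_pow_right (by norm_num) (by omega)).trans (two_pow_le_choose h)
  · rw [← Nat.choose_symm (by omega : s ≤ n)]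
    exact (Nat.pow_le_pow_right (by norm_num) (by omega)).trans
      (two_pow_le_choose (by omega : 2 * (n - s) ≤ n))

lemma choose_succ_le_mul (n t : ℕ) : n.choose (t + 1) ≤ n * n.choose t := by
  have h := Nat.choose_succ_right_eq n t
  have h1 : n.choose (t + 1) ≤ n.choose (t + 1) * (t + 1) := Nat.le_mul_of_pos_right _ (by omega)
  calc n.choose (t + 1) ≤ n.choose t * (n - t) := by rw [← h]; exact h1
    _ ≤ n.choose t * n := Nat.mul_le_mul_left _ (Nat.sub_le _ _)
    _ = _ := mul_comm _ _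

/-- the intermediate size -/
lemma exists_t {n s k : ℕ} (hs1 : 1 < n.choose s)
    (hk : ∀ j ≤ k + 1, (n.choose j) ^ 2 < n.choose s) :
    ∃ t, k + 2 ≤ t ∧ t ≤ s ∧ n.choose s ≤ (n.choose t) ^ 2 ∧
      (n.choose t) ^ 2 ≤ n ^ 2 * n.choose s := by
  classical
  have hex : ∃ t, n.choose s ≤ (n.choose t) ^ 2 :=
    ⟨s, by nlinarith⟩
  set t := Nat.find hex with ht
  have h1 := Nat.find_spec hex
  rw [← ht] at h1
  have h2 : t ≤ s := Nat.find_min' hex (by nlinarith)
  have h3 : k + 2 ≤ t := by
    by_contra hlt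
    push Not at hlt
    have := hk t (by omega)
    omega
  refine ⟨t, h3, h2, h1, ?_⟩
  obtain ⟨t', ht'⟩ : ∃ t', t = t' + 1 := ⟨t - 1, by omega⟩
  have h4 : ¬ (n.choose s ≤ (n.choose t') ^ 2) := Nat.find_min hex (by omega)
  push Not at h4
  rw [ht']
  calc (n.choose (t' + 1)) ^ 2 ≤ (n * n.choose t') ^ 2 :=
        Nat.pow_le_pow_left (choose_succ_le_mul n t') 2
    _ = n ^ 2 * (n.choose t') ^ 2 := by ring
    _ ≤ _ := Nat.mul_le_mul_left _ h4.le

/-- the real inequality behind the bound for one level -/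
lemma level_real {n : ℕ} (hn : 1 ≤ n) {A B Us Ut R s : ℝ} (K₁ L : ℕ)
    (hs : s ≤ n) (hs0 : 0 ≤ s)
    (hA : (16 * (n : ℝ) ^ 2 * (2 * n + 1)) ^ 2 ≤ A) (hA2 : A ≤ 2 ^ n)
    (hB1 : A ≤ B ^ 2) (hB2 : B ^ 2 ≤ n ^ 2 * A) (hB0 : 0 ≤ B)
    (hUs : A ≤ Us * (2 * n ^ 2)) (hUt : B ≤ Ut * (2 * n ^ 2)) (hUt2 : Ut ≤ 2 ^ n)
    (hR : R = A / (8 * (s + 1) * B))
    (hK : Us / 8 ≤ K₁ + 1) (hL : R / 2 ≤ L) :
    (Real.exp (-(Us / 8)) + Ut * Real.exp (-R)) +
      (2 * (1 / Real.sqrt (K₁ + 1)) + 1 / L) * (1 / Real.sqrt (Ut + 1))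
    ≤ 81 * (n : ℝ) ^ 3 * Real.exp (-(3 / 4 * Real.log A)) := by
  have hn' : (1 : ℝ) ≤ n := by exact_mod_cast hn
  set D : ℝ := 16 * (n : ℝ) ^ 2 * (2 * n + 1) with hD
  have hD1 : 1 ≤ D := by rw [hD]; nlinarith [sq_nonneg ((n : ℝ) - 1)]
  have hApos : 0 < A := lt_of_lt_of_le (by positivity) hA
  set a := Real.sqrt A with ha
  have ha2 : a ^ 2 = A := Real.sq_sqrt hApos.le
  have hapos : 0 < a := Real.sqrt_pos.2 hApos
  have haD : D ≤ a := by
    rw [ha]
    apply Real.le_sqrt_of_sq_le
    exact hA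
  set b := Real.sqrt a with hb
  have hb2 : b ^ 2 = a := Real.sq_sqrt hapos.le
  have hbpos : 0 < b := Real.sqrt_pos.2 hapos
  have haB : a ≤ B := by
    have : a ^ 2 ≤ B ^ 2 := by rw [ha2]; exact hB1
    exact le_of_sq_le_sq this hB0
  have hBna : B ≤ n * a := by
    have : B ^ 2 ≤ (n * a) ^ 2 := by rw [mul_pow, ha2]; exact hB2
    exact le_of_sq_le_sq this (by positivity)
  have hBpos : 0 < B := lt_of_lt_of_le hapos haB
  -- R
  have hRlow : a / (16 * n ^ 2) ≤ R := by
    rw [hR, div_le_div_iff₀ (by positivity) (by positivity)]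
    have h1 : 8 * (s + 1) * B ≤ 8 * (n + n) * (n * a) := by
      apply mul_le_mul _ hBna hB0 (by positivity)
      linarith
    calc a * (8 * (s + 1) * B) ≤ a * (8 * (n + n) * (n * a)) :=
          mul_le_mul_of_nonneg_left h1 hapos.le
      _ = a ^ 2 * (16 * n ^ 2) := by ring
      _ = A * (16 * n ^ 2) := by rw [ha2]
  have hRpos : 0 < R := lt_of_lt_of_le (by positivity) hRlow
  have haX : (2 * n + 1 : ℝ) ≤ a / (16 * n ^ 2) := by
    rw [le_div_iff₀ (by positivity)]
    calc (2 * n + 1 : ℝ) * (16 * n ^ 2) = D := by rw [hD]; ring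
      _ ≤ a := haD
  -- the target
  have htarget : Real.exp (-(3 / 4 * Real.log A)) = 1 / (a * b) := by
    have h1 : Real.log A = 2 * Real.log a := by
      rw [← ha2, Real.log_pow]; norm_num
    have h2 : Real.log a = 2 * Real.log b := by
      rw [← hb2, Real.log_pow]; norm_num
    have h3 : 3 / 4 * Real.log A = Real.log (a * b) := by
      rw [Real.log_mul hapos.ne' hbpos.ne']
      linarith
    rw [h3, Real.exp_neg, Real.exp_log (by positivity), one_div]
  rw [htarget]
  -- first part
  have hUs8 : A / (16 * n ^ 2) ≤ Us / 8 := by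
    rw [div_le_div_iff₀ (by positivity) (by norm_num)]
    nlinarith
  have hAa : a ≤ A := by
    rw [← ha2, sq]
    nlinarith
  have he1 : Real.exp (-(Us / 8)) ≤ Real.exp (-(2 * n + 1)) := by
    apply Real.exp_le_exp.2
    have : a / (16 * n ^ 2) ≤ A / (16 * (n : ℝ) ^ 2) :=
      div_le_div_of_nonneg_right hAa (by positivity)
    linarith
  have he2 : Real.exp (-R) ≤ Real.exp (-(2 * n + 1)) := by
    apply Real.exp_le_exp.2
    linarith
  have he3 : Real.exp (-(2 * n + 1 : ℝ)) ≤ (1 / 2) ^ (2 * n + 1) := by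
    have h1 : Real.exp (-(1 : ℝ)) ≤ 1 / 2 := by
      have h2 : (2 : ℝ) ≤ Real.exp 1 := by
        have := Real.add_one_le_exp (1 : ℝ); linarith
      rw [Real.exp_neg, ← one_div]
      exact one_div_le_one_div_of_le (by norm_num) h2
    calc Real.exp (-(2 * n + 1 : ℝ)) = (Real.exp (-(1 : ℝ))) ^ (2 * n + 1) := by
          rw [← Real.exp_nat_mul]
          congr 1
          push_cast
          ring
      _ ≤ _ := pow_le_pow_left₀ (Real.exp_pos _).le h1 _
  have hUt0 : 0 ≤ Ut := by
    by_contra hneg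
    push Not at hneg
    have : Ut * (2 * (n : ℝ) ^ 2) < 0 := mul_neg_of_neg_of_pos hneg (by positivity)
    linarith
  have hpow : (2 : ℝ) ^ n * (1 / 2) ^ (2 * n + 1) = (1 / 2) ^ (n + 1) := by
    have : (1 / 2 : ℝ) ^ (2 * n + 1) = (1 / 2) ^ n * (1 / 2) ^ (n + 1) := by
      rw [← pow_add]; congr 1; ring
    rw [this, ← mul_assoc, ← mul_pow]; norm_num
  have hE : Real.exp (-(Us / 8)) + Ut * Real.exp (-R) ≤ 1 / (a * b) := by
    have h1 : Real.exp (-(Us / 8)) ≤ (1 / 2) ^ (n + 1) := by
      refine (he1.trans he3).trans ?_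
      apply pow_le_pow_of_le_one (by norm_num) (by norm_num)
      omega
    have h2 : Ut * Real.exp (-R) ≤ (1 / 2) ^ (n + 1) := by
      calc Ut * Real.exp (-R) ≤ 2 ^ n * (1 / 2) ^ (2 * n + 1) :=
            mul_le_mul hUt2 (he2.trans he3) (Real.exp_pos _).le (by positivity)
        _ = _ := hpow
    have h3 : (1 / 2 : ℝ) ^ (n + 1) + (1 / 2) ^ (n + 1) = 1 / 2 ^ n := by
      rw [pow_succ, one_div, inv_pow]; ring
    have h4 : a * b ≤ 2 ^ n := by
      have hb1 : b ≤ a := by
        rw [← hb2, sq]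
        have : 1 ≤ b := by
          rw [hb]; exact Real.one_le_sqrt.2 (hD1.trans haD)
        nlinarith
      calc a * b ≤ a * a := mul_le_mul_of_nonneg_left hb1 hapos.le
        _ = A := by rw [← sq, ha2]
        _ ≤ _ := hA2
    have h5 : 1 / (2 : ℝ) ^ n ≤ 1 / (a * b) := one_div_le_one_div_of_le (by positivity) h4
    linarith
  -- second part
  have hK' : 1 / Real.sqrt (K₁ + 1) ≤ 4 * n / a := by
    have h1 : a / (4 * n) ≤ Real.sqrt (K₁ + 1) := by
      apply Real.le_sqrt_of_sq_le
      rw [div_pow, ha2]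
      calc A / (4 * (n : ℝ)) ^ 2 = A / (16 * n ^ 2) := by ring_nf
        _ ≤ _ := hUs8.trans hK
    have h2 := one_div_le_one_div_of_le (by positivity) h1
    rwa [one_div_div] at h2
  have hL' : 1 / (L : ℝ) ≤ 32 * n ^ 2 / a := by
    have h1 : a / (32 * n ^ 2) ≤ L := by
      refine le_trans ?_ hL
      have : a / (32 * (n : ℝ) ^ 2) = a / (16 * n ^ 2) / 2 := by
        rw [div_div]; ring_nf
      rw [this]
      linarith
    have h2 := one_div_le_one_div_of_le (by positivity) h1
    rwa [one_div_div] at h2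
  have hU' : 1 / Real.sqrt (Ut + 1) ≤ 2 * n / b := by
    have h1 : b / (2 * n) ≤ Real.sqrt (Ut + 1) := by
      apply Real.le_sqrt_of_sq_le
      rw [div_pow, hb2, div_le_iff₀ (by positivity)]
      have : a ≤ Ut * (2 * n ^ 2) := haB.trans hUt
      nlinarith
    have h2 := one_div_le_one_div_of_le (by positivity) h1
    rwa [one_div_div] at h2
  have hF : (2 * (1 / Real.sqrt (K₁ + 1)) + 1 / L) * (1 / Real.sqrt (Ut + 1))
      ≤ 80 * n ^ 3 * (1 / (a * b)) := by
    have h1 : 2 * (1 / Real.sqrt (K₁ + 1)) + 1 / (L : ℝ) ≤ 40 * n ^ 2 / a := by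
      have h3 : 2 * (4 * n / a) + 32 * (n : ℝ) ^ 2 / a ≤ 40 * n ^ 2 / a := by
        rw [mul_div_assoc', ← add_div]
        apply div_le_div_of_nonneg_right _ hapos.le
        nlinarith
      linarith
    calc _ ≤ (40 * n ^ 2 / a) * (2 * n / b) :=
          mul_le_mul h1 hU' (by positivity) (by positivity)
      _ = _ := by field_simp; ring
  have hab : 0 < 1 / (a * b) := by positivity
  have hn3 : (1 : ℝ) ≤ n ^ 3 := one_le_pow₀ hn'
  calc _ ≤ 1 / (a * b) + 80 * n ^ 3 * (1 / (a * b)) := add_le_add hE hF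
    _ ≤ n ^ 3 * (1 / (a * b)) + 80 * n ^ 3 * (1 / (a * b)) := by
        have := mul_le_mul_of_nonneg_right hn3 hab.le
        linarith
    _ = _ := by ring

/-! ### The product of the binomial coefficients -/

lemma log_succ_sub (m : ℕ) (hm : 1 ≤ m) :
    1 / ((m : ℝ) + 1) ≤ Real.log (m + 1) - Real.log m := by
  have hm' : (0 : ℝ) < m := by exact_mod_cast hm
  rw [← Real.log_div (by positivity) hm'.ne']
  have h := Real.one_sub_inv_le_log_of_pos (x := ((m : ℝ) + 1) / m) (by positivity)
  refine le_trans (le_of_eq ?_) h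
  field_simp
  ring

lemma log_fact (m : ℕ) (hm : 1 ≤ m) :
    (m : ℝ) - 1 - Real.log m ≤ m * Real.log m - Real.log (m.factorial) := by
  induction m, hm using Nat.le_induction with
  | base => simp
  | succ m hm ih =>
    have hm' : (0 : ℝ) < m := by exact_mod_cast hm
    have h1 := log_succ_sub m hm
    rw [Nat.factorial_succ]
    push_cast
    rw [Real.log_mul (by positivity) (by positivity)]
    have h2 : (m : ℝ) * (1 / ((m : ℝ) + 1)) ≤ m * (Real.log (m + 1) - Real.log m) :=
      mul_le_mul_of_nonneg_left h1 hm'.le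
    have h3 : (m : ℝ) * (1 / ((m : ℝ) + 1)) = 1 - 1 / ((m : ℝ) + 1) := by
      field_simp; ring
    linarith

lemma sum_log_choose (n : ℕ) :
    (n : ℝ) * (n - 1) / 2 - n * Real.log n ≤ ∑ s ∈ range (n + 1), Real.log (n.choose s) := by
  -- the recursion
  have key : ∀ n : ℕ, ∑ s ∈ range (n + 1), Real.log (n.choose s)
      = ∑ m ∈ range n, (((m : ℝ) + 1) * Real.log (m + 1) - Real.log ((m + 1).factorial)) := by
    intro n
    induction n with
    | zero => simp
    | succ n ih =>
      rw [Finset.sum_range_succ (fun m : ℕ => ((m : ℝ) + 1) * Real.log (m + 1) -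
        Real.log ((m + 1).factorial)), ← ih, Finset.sum_range_succ _ (n + 1), Nat.choose_self,
        Nat.cast_one, Real.log_one, add_zero]
      have h1 : ∀ s ∈ range (n + 1), Real.log ((n + 1).choose s) =
          Real.log (n.choose s) + (Real.log (n + 1) - Real.log ((n + 1 - s : ℕ) : ℝ)) := by
        intro s hs
        rw [mem_range] at hs
        have h2 := Nat.choose_mul_succ_eq n s
        have h3 : (n.choose s : ℝ) * (n + 1) = (n + 1).choose s * ((n + 1 - s : ℕ) : ℝ) := by
          exact_mod_cast h2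
        have p1 : (0 : ℝ) < n.choose s := by exact_mod_cast Nat.choose_pos (by omega)
        have p2 : (0 : ℝ) < (n + 1).choose s := by exact_mod_cast Nat.choose_pos (by omega)
        have p3 : (0 : ℝ) < ((n + 1 - s : ℕ) : ℝ) := by
          exact_mod_cast (by omega : 0 < n + 1 - s)
        have h4 := congrArg Real.log h3
        rw [Real.log_mul p1.ne' (by positivity), Real.log_mul p2.ne' p3.ne'] at h4
        linarith
      rw [Finset.sum_congr rfl h1, Finset.sum_add_distrib, Finset.sum_sub_distrib,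
        Finset.sum_const, Finset.card_range, nsmul_eq_mul]
      congr 1
      push_cast
      congr 1
      -- factorial
      have h5 : ∀ N : ℕ, ∑ s ∈ range N, Real.log ((N - s : ℕ) : ℝ) = Real.log (N.factorial) := by
        intro N
        induction N with
        | zero => simp
        | succ N ihN =>
          rw [Finset.sum_range_succ']
          have h6 : ∀ s ∈ range N, Real.log ((N + 1 - (s + 1) : ℕ) : ℝ)
              = Real.log ((N - s : ℕ) : ℝ) := by
            intro s _
            congr 2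
            omega
          rw [Finset.sum_congr rfl h6, ihN, Nat.factorial_succ, Nat.sub_zero]
          push_cast
          rw [Real.log_mul (by positivity) (by positivity)]
          ring
      exact h5 (n + 1)
  rw [key]
  have h1 : ∀ m ∈ range n, ((m : ℝ) - Real.log n) ≤
      ((m : ℝ) + 1) * Real.log (m + 1) - Real.log ((m + 1).factorial) := by
    intro m hm
    rw [mem_range] at hm
    have h2 := log_fact (m + 1) (by omega)
    push_cast at h2
    have h3 : Real.log ((m : ℝ) + 1) ≤ Real.log n := by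
      apply Real.log_le_log (by positivity)
      exact_mod_cast hm
    linarith
  refine le_trans (le_of_eq ?_) (Finset.sum_le_sum h1)
  rw [Finset.sum_sub_distrib, Finset.sum_const, Finset.card_range, nsmul_eq_mul]
  congr 1
  have h4 : ∀ N : ℕ, ∑ m ∈ range N, (m : ℝ) = (N : ℝ) * (N - 1) / 2 := by
    intro N
    induction N with
    | zero => simp
    | succ N ih => rw [Finset.sum_range_succ, ih]; push_cast; ring
  exact (h4 n).symm

/-- the sum over the middle range -/
lemma sum_log_middle (n : ℕ) (A : Finset ℕ) (hA : ∀ s, s ∈ A ↔ (n ≤ 100 * s ∧ 100 * s ≤ 99 * n)) :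
    (n : ℝ) * (n - 1) / 2 - n * Real.log n - (n / 50 + 2) * (n * Real.log 2) ≤
      ∑ s ∈ A, Real.log (n.choose s) := by
  classical
  have hsub : A ⊆ range (n + 1) := by
    intro s hs
    rw [hA] at hs
    rw [mem_range]; omega
  have h1 := sum_log_choose n
  rw [← Finset.sum_sdiff hsub] at h1
  have h2 : ∑ s ∈ range (n + 1) \ A, Real.log (n.choose s) ≤
      (n / 50 + 2) * (n * Real.log 2) := by
    have h3 : ∀ s ∈ range (n + 1) \ A, Real.log (n.choose s) ≤ n * Real.log 2 := by
      intro s hs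
      rw [mem_sdiff, mem_range] at hs
      have p1 : (0 : ℝ) < n.choose s := by exact_mod_cast Nat.choose_pos (by omega)
      rw [← Real.log_pow]
      apply Real.log_le_log p1
      exact_mod_cast Nat.choose_le_two_pow n s
    have h4 : (range (n + 1) \ A).card ≤ 2 * (n / 100 + 1) := by
      have h5 : range (n + 1) \ A ⊆ range (n / 100 + 1) ∪
          (range (n / 100 + 1)).image (fun i => n - i) := by
        intro s hs
        rw [mem_sdiff, mem_range, hA] at hs
        rw [mem_union, mem_range, mem_image]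
        obtain ⟨hs1, hs2⟩ := hs
        rw [not_and_or] at hs2
        rcases hs2 with h | h
        · left; omega
        · right
          refine ⟨n - s, ?_, by omega⟩
          rw [mem_range]; omega
      refine (Finset.card_le_card h5).trans ((Finset.card_union_le _ _).trans ?_)
      have := Finset.card_image_le (s := range (n / 100 + 1)) (f := fun i => n - i)
      rw [card_range] at this
      rw [card_range]
      omega
    have h6 : ((range (n + 1) \ A).card : ℝ) ≤ n / 50 + 2 := by
      have h7 : ((range (n + 1) \ A).card : ℝ) ≤ 2 * (((n / 100 : ℕ) : ℝ) + 1) := by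
        exact_mod_cast h4
      have h8 : ((n / 100 : ℕ) : ℝ) ≤ (n : ℝ) / 100 := by
        have := Nat.cast_div_le (α := ℝ) (m := n) (n := 100)
        exact_mod_cast this
      linarith
    have h9 : 0 ≤ (n : ℝ) * Real.log 2 := by
      have := Real.log_nonneg (by norm_num : (1 : ℝ) ≤ 2)
      positivity
    calc _ ≤ ∑ s ∈ range (n + 1) \ A, (n : ℝ) * Real.log 2 := Finset.sum_le_sum h3
      _ = (range (n + 1) \ A).card * (n * Real.log 2) := by rw [Finset.sum_const, nsmul_eq_mul]
      _ ≤ _ := mul_le_mul_of_nonneg_right h6 h9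
  linarith

end Pool.Agent.R54.HP
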