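import Pool.Agent.R54.HP.Defs

/-! The Harary polynomial determines the numbers of partitions; invariance. -/

namespace Pool.Agent.R54.HP

open Finset

lemma hNum_eq_zero (P : GraphProperty) {V : Type} [Fintype V] [DecidableEq V]
    (G : SimpleGraph V) {i : ℕ} (hi : Fintype.card V < i) : hNum P G i = 0 := by
  unfold hNum
  rw [Set.ncard_eq_zero (Set.toFinite _), Set.eq_empty_iff_forall_notMem]
  rintro π ⟨h1, _⟩
  have := π.card_parts_le_card
  rw [Finset.card_univ] at this
  omega

lemma hNum_pos (P : GraphProperty) (hP : ∀ (V : Type) [Finite V] (G : SimpleGraph V),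
    Nat.card V = 1 → P.Mem G) {V : Type} [Fintype V] [DecidableEq V]
    (G : SimpleGraph V) : 0 < hNum P G (Fintype.card V) := by
  unfold hNum
  rw [Set.ncard_pos (Set.toFinite _)]
  refine ⟨⊥, ?_, ?_⟩
  · rw [Finpartition.card_bot, Finset.card_univ]
  · intro B hB
    rw [Finpartition.mem_bot_iff] at hB
    obtain ⟨a, _, rfl⟩ := hB
    apply hP
    rw [Nat.card_coe_set_eq, Set.ncard_coe_finset, Finset.card_singleton]

lemma harary_eval (P : GraphProperty) {V : Type} [Fintype V] [DecidableEq V]
    (G : SimpleGraph V) (m N : ℕ) (hN : Fintype.card V < N) :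
    (harary P G).eval (m : ℤ) = ∑ i ∈ range N, (hNum P G i : ℤ) * m.descFactorial i := by
  unfold harary
  rw [Polynomial.eval_finsetSum]
  have h1 : ∀ i, Polynomial.eval (m : ℤ) ((hNum P G i : ℤ) • descPochhammer ℤ i)
      = (hNum P G i : ℤ) * m.descFactorial i := by
    intro i
    rw [Polynomial.eval_smul, descPochhammer_eval_eq_descFactorial, smul_eq_mul]
  rw [Finset.sum_congr rfl (fun i _ => h1 i)]
  apply Finset.sum_subset
  · intro x hx; rw [mem_range] at *; omega
  · intro x _ hx
    rw [mem_range] at hx
    rw [hNum_eq_zero P G (by omega)]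
    simp

lemma hNum_of_harary (P : GraphProperty) {V W : Type} [Fintype V] [DecidableEq V] [Fintype W]
    [DecidableEq W] (G : SimpleGraph V) (H : SimpleGraph W) (h : harary P G = harary P H) :
    ∀ i, hNum P G i = hNum P H i := by
  intro m
  induction m using Nat.strong_induction_on with
  | _ m ih =>
    set N := Fintype.card V + Fintype.card W + m + 1 with hN
    have h1 := harary_eval P G m N (by omega)
    have h2 := harary_eval P H m N (by omega)
    rw [h, h2] at h1
    have hm : m ∈ range N := by rw [mem_range]; omega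
    rw [← Finset.add_sum_erase _ _ hm, ← Finset.add_sum_erase _ _ hm] at h1
    have h3 : ∑ x ∈ (range N).erase m, (hNum P H x : ℤ) * m.descFactorial x
        = ∑ x ∈ (range N).erase m, (hNum P G x : ℤ) * m.descFactorial x := by
      apply Finset.sum_congr rfl
      intro x hx
      rw [mem_erase] at hx
      rcases Nat.lt_or_gt_of_ne hx.1 with h4 | h4
      · rw [ih x h4]
      · rw [Nat.descFactorial_eq_zero_iff_lt.2 h4]; simp
    rw [h3, Nat.descFactorial_self] at h1
    have h4 : (hNum P H m : ℤ) * m.factorial = (hNum P G m : ℤ) * m.factorial := by linarith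
    have h5 : (m.factorial : ℤ) ≠ 0 := by exact_mod_cast m.factorial_ne_zero
    have h6 := mul_right_cancel₀ h5 h4
    exact_mod_cast h6.symm

lemma card_of_harary (P : GraphProperty) (hP : ∀ (V : Type) [Finite V] (G : SimpleGraph V),
    Nat.card V = 1 → P.Mem G) {V W : Type} [Fintype V] [DecidableEq V] [Fintype W]
    [DecidableEq W] (G : SimpleGraph V) (H : SimpleGraph W) (h : harary P G = harary P H) :
    Fintype.card V = Fintype.card W := by
  have h1 := hNum_of_harary P G H h
  have h2 := hNum_pos P hP G
  have h3 := hNum_pos P hP H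
  apply le_antisymm
  · by_contra hlt
    push Not at hlt
    rw [h1, hNum_eq_zero P H hlt] at h2
    omega
  · by_contra hlt
    push Not at hlt
    rw [← h1, hNum_eq_zero P G hlt] at h3
    omega

/-- order isomorphism of finite sets -/
def finsetOI {V W : Type} (e : V ≃ W) : Finset V ≃o Finset W where
  toEquiv := e.finsetCongr
  map_rel_iff' := by
    intro a b
    simp only [Equiv.finsetCongr_apply]
    exact Finset.map_subset_map

lemma hNum_le_of_iso (P : GraphProperty) {V W : Type} [Fintype V] [DecidableEq V] [Fintype W]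
    [DecidableEq W] {G : SimpleGraph V} {H : SimpleGraph W} (e : G ≃g H) (i : ℕ) :
    hNum P G i ≤ hNum P H i := by
  unfold hNum
  have huniv : finsetOI e.toEquiv (univ : Finset V) = (univ : Finset W) := by
    change (univ : Finset V).map e.toEquiv.toEmbedding = univ
    exact Finset.map_univ_equiv _
  apply Set.ncard_le_ncard_of_injOn (fun π => (π.map (finsetOI e.toEquiv)).copy huniv)
  · rintro π ⟨h1, h2⟩
    refine ⟨?_, ?_⟩
    · change (π.map (finsetOI e.toEquiv)).parts.card = i
      rw [Finpartition.parts_map, Finset.card_map, h1]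
    · intro B hB
      change B ∈ (π.map (finsetOI e.toEquiv)).parts at hB
      rw [Finpartition.parts_map, Finset.mem_map] at hB
      obtain ⟨A, hA, rfl⟩ := hB
      refine P.iso ⟨⟨e.toEquiv.subtypeEquiv ?_, ?_⟩⟩ (h2 A hA)
      · intro a
        change a ∈ (A : Set V) ↔ e.toEquiv a ∈ ((A.map e.toEquiv.toEmbedding : Finset W) : Set W)
        simp
      · intro a b
        exact e.map_rel_iff (a := a.1) (b := b.1)
  · intro π _ π' _ heq
    have h1 := congrArg Finpartition.parts heq
    change (π.map (finsetOI e.toEquiv)).parts = (π'.map (finsetOI e.toEquiv)).parts at h1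
    rw [Finpartition.parts_map, Finpartition.parts_map] at h1
    have h2 := Finset.map_injective _ h1
    exact Finpartition.ext h2

lemma hNum_iso (P : GraphProperty) {V W : Type} [Fintype V] [DecidableEq V] [Fintype W]
    [DecidableEq W] {G : SimpleGraph V} {H : SimpleGraph W} (e : G ≃g H) (i : ℕ) :
    hNum P G i = hNum P H i :=
  le_antisymm (hNum_le_of_iso P e i) (hNum_le_of_iso P e.symm i)

/-- the number of graphs -/
lemma card_graphs (n : ℕ) : Fintype.card (SimpleGraph (Fin n)) = 2 ^ n.choose 2 := by
  classical
  have htop : (⊤ : SimpleGraph (Fin n)).edgeFinset.card = n.choose 2 := by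
    rw [SimpleGraph.card_edgeFinset_top_eq_card_choose_two, Fintype.card_fin]
  rw [← htop, ← Finset.card_powerset, ← Finset.card_univ]
  apply Finset.card_bij (fun G _ => G.edgeFinset)
  · intro G _
    rw [Finset.mem_powerset]
    exact SimpleGraph.edgeFinset_mono le_top
  · intro G _ H _ h
    exact SimpleGraph.edgeFinset_inj.1 h
  · intro S hS
    rw [Finset.mem_powerset] at hS
    refine ⟨SimpleGraph.fromEdgeSet (S : Set (Sym2 (Fin n))), mem_univ _, ?_⟩
    rw [← Finset.coe_inj, SimpleGraph.coe_edgeFinset, SimpleGraph.edgeSet_fromEdgeSet]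
    ext e
    constructor
    · rintro ⟨h, _⟩; exact h
    · intro h
      refine ⟨h, ?_⟩
      have := hS (by exact_mod_cast h)
      rw [SimpleGraph.mem_edgeFinset] at this
      exact SimpleGraph.not_isDiag_of_mem_edgeSet _ this

end Pool.Agent.R54.HP
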