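import Pool.Agent.R54.HP.Level

/-! The choice of the levels of the property one after another. -/

namespace Pool.Agent.R54.HP

open Finset

/-- sample space of one level -/
abbrev OO (s : ℕ) := (SimpleGraph (Fin s) → CC s) × Finset (II s)

section

variable (Typ : ∀ n : ℕ, SimpleGraph (Fin n) → Prop) (Adm : ℕ → ℕ → Prop) (q : ℕ → ℕ → ℝ)

open Classical in
/-- pairs of graphs not distinguished by the levels below `s` -/
noncomputable def DD (n : ℕ) (X : Lev) (s : ℕ) :
    Finset (SimpleGraph (Fin n) × SimpleGraph (Fin n)) :=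
  univ.filter (fun p => Typ n p.1 ∧ IsEmpty (p.1 ≃g p.2) ∧
    ∀ r < s, Adm n r → hNum (prop X) p.1 (n - r + 1) = hNum (prop X) p.2 (n - r + 1))

variable {Typ Adm q}

open Classical in
lemma mem_DD {n : ℕ} {X : Lev} {s : ℕ} {p : SimpleGraph (Fin n) × SimpleGraph (Fin n)} :
    p ∈ DD Typ Adm n X s ↔ Typ n p.1 ∧ IsEmpty (p.1 ≃g p.2) ∧
    ∀ r < s, Adm n r → hNum (prop X) p.1 (n - r + 1) = hNum (prop X) p.2 (n - r + 1) := by
  unfold DD
  rw [mem_filter]
  simp only [mem_univ, true_and]

lemma DD_congr (hAdm : ∀ n s, Adm n s → 2 ≤ s ∧ s ≤ n ∧ n ≤ 100 * s) {n : ℕ} {X Y : Lev} {s : ℕ}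
    (h : ∀ m < s, X m = Y m) : DD Typ Adm n X s = DD Typ Adm n Y s := by
  ext p
  rw [mem_DD, mem_DD]
  have key : ∀ r < s, Adm n r → ∀ G : SimpleGraph (Fin n),
      hNum (prop X) G (n - r + 1) = hNum (prop Y) G (n - r + 1) := by
    intro r hr ha G
    exact hNum_congr G (hAdm n r ha).2.1 (fun m hm => h m (by omega))
  constructor
  · rintro ⟨h1, h2, h3⟩
    refine ⟨h1, h2, fun r hr ha => ?_⟩
    rw [← key r hr ha, ← key r hr ha]
    exact h3 r hr ha
  · rintro ⟨h1, h2, h3⟩
    refine ⟨h1, h2, fun r hr ha => ?_⟩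
    rw [key r hr ha, key r hr ha]
    exact h3 r hr ha

lemma DD_anti {n : ℕ} {X : Lev} {s t : ℕ} (h : s ≤ t) : DD Typ Adm n X t ⊆ DD Typ Adm n X s := by
  intro p hp
  rw [mem_DD] at hp ⊢
  exact ⟨hp.1, hp.2.1, fun r hr => hp.2.2 r (by omega)⟩

/-- the level given by a sample -/
def lev (s : ℕ) (ω : OO s) : SimpleGraph (Fin s) → Prop := fun F => crd ω.1 F ∈ ω.2

open Classical in
/-- one step -/
lemma step (hAdm : ∀ n s, Adm n s → 2 ≤ s ∧ s ≤ n ∧ n ≤ 100 * s)
    (hq0 : ∀ n s, Adm n s → 0 < q n s)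
    (hq : ∀ n s, Adm n s → ∀ G H : SimpleGraph (Fin n), Typ n G → IsEmpty (G ≃g H) →
      ∀ c : ℤ, (((univ : Finset (OO s)).filter (fun p =>
      (((Finset.powersetCard s (univ : Finset (Fin n))).filter
        (fun S : Finset (Fin n) => crd p.1 (ty s G S) ∈ p.2)).card : ℤ) -
      (((Finset.powersetCard s (univ : Finset (Fin n))).filter
        (fun S : Finset (Fin n) => crd p.1 (ty s H S) ∈ p.2)).card : ℤ) = c)).card : ℝ)
      ≤ Fintype.card (OO s) * q n s)
    (X : Lev) (hX : ∀ F, X 1 F) {s : ℕ} (hs : 2 ≤ s) :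
    ∃ x : SimpleGraph (Fin s) → Prop, ∀ n, Adm n s →
      ((DD Typ Adm n (Function.update X s x) (s + 1)).card : ℝ) ≤
        (100 * s + 1) * q n s * (DD Typ Adm n (Function.update X s x) s).card := by
  set Y : OO s → Lev := fun ω => Function.update X s (lev s ω) with hY
  have hYs : ∀ ω, Y ω s = lev s ω := fun ω => by simp [hY]
  have hYm : ∀ ω m, m ≠ s → Y ω m = X m := fun ω m hm => by
    simp only [hY]
    exact Function.update_of_ne hm _ _
  have hD : ∀ ω n, DD Typ Adm n (Y ω) s = DD Typ Adm n X s := by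
    intro ω n
    exact DD_congr hAdm (fun m hm => hYm ω m (by omega))
  -- equality of the numbers as an event
  have hev : ∀ n, Adm n s → ∀ (G H : SimpleGraph (Fin n)) (ω : OO s),
      (hNum (prop (Y ω)) G (n - s + 1) = hNum (prop (Y ω)) H (n - s + 1) ↔
      (((Finset.powersetCard s (univ : Finset (Fin n))).filter
        (fun S : Finset (Fin n) => crd ω.1 (ty s G S) ∈ ω.2)).card : ℤ) -
      (((Finset.powersetCard s (univ : Finset (Fin n))).filter
        (fun S : Finset (Fin n) => crd ω.1 (ty s H S) ∈ ω.2)).card : ℤ)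
        = (small X H s : ℤ) - small X G s) := by
    intro n ha G H ω
    have hsn := (hAdm n s ha).2.1
    have h1 : ∀ F, Y ω 1 F := by
      intro F
      rw [hYm ω 1 (by omega)]
      exact hX F
    have hsm : ∀ G : SimpleGraph (Fin n), small (Y ω) G s = small X G s :=
      fun G => small_congr G (fun m hm => hYm ω m (by omega))
    rw [hNum_eq (Y ω) h1 G hs hsn, hNum_eq (Y ω) h1 H hs hsn, hsm, hsm]
    have hnn : ∀ G : SimpleGraph (Fin n), NN (Y ω) G s =
        ((Finset.powersetCard s (univ : Finset (Fin n))).filter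
        (fun S : Finset (Fin n) => crd ω.1 (ty s G S) ∈ ω.2)).card := by
      intro G
      unfold NN
      rw [hYs ω]
      congr 1
      ext S
      rw [mem_filter, mem_filter]
      rfl
    rw [hnn, hnn]
    omega
  -- expectation
  have hexp : ∀ n, Adm n s → ∑ ω : OO s, ((DD Typ Adm n (Y ω) (s + 1)).card : ℝ) ≤
      Fintype.card (OO s) * q n s * (DD Typ Adm n X s).card := by
    intro n ha
    have h1 : ∀ ω : OO s, ((DD Typ Adm n (Y ω) (s + 1)).card : ℝ) =
        ∑ p ∈ DD Typ Adm n X s,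
          (if hNum (prop (Y ω)) p.1 (n - s + 1) = hNum (prop (Y ω)) p.2 (n - s + 1)
            then (1 : ℝ) else 0) := by
      intro ω
      rw [← Finset.sum_filter, Finset.sum_const, nsmul_eq_mul, mul_one]
      congr 2
      ext p
      rw [mem_filter, ← hD ω n, mem_DD, mem_DD]
      constructor
      · rintro ⟨h1, h2, h3⟩
        exact ⟨⟨h1, h2, fun r hr => h3 r (by omega)⟩, h3 s (by omega) ha⟩
      · rintro ⟨⟨h1, h2, h3⟩, h4⟩
        refine ⟨h1, h2, fun r hr hr' => ?_⟩
        rcases Nat.lt_succ_iff_lt_or_eq.1 hr with h | h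
        · exact h3 r h hr'
        · subst h; exact h4
    rw [Finset.sum_congr rfl (fun ω _ => h1 ω), Finset.sum_comm]
    calc _ ≤ ∑ p ∈ DD Typ Adm n X s, (Fintype.card (OO s) * q n s : ℝ) := by
          apply Finset.sum_le_sum
          intro p hp
          rw [mem_DD] at hp
          have h2 := hq n s ha p.1 p.2 hp.1 hp.2.1 ((small X p.2 s : ℤ) - small X p.1 s)
          refine le_trans (le_of_eq ?_) h2
          rw [← Finset.sum_filter, Finset.sum_const, nsmul_eq_mul, mul_one]
          congr 2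
          ext ω
          rw [mem_filter, mem_filter]
          simp only [mem_univ, true_and]
          exact hev n ha p.1 p.2 ω
      _ = _ := by rw [Finset.sum_const, nsmul_eq_mul]; ring
  -- bad samples
  set Bad : ℕ → Finset (OO s) := fun n => univ.filter (fun ω =>
    ¬ (((DD Typ Adm n (Y ω) (s + 1)).card : ℝ) ≤
        (100 * s + 1) * q n s * (DD Typ Adm n (Y ω) s).card)) with hBad
  have hOpos : 0 < Fintype.card (OO s) := Fintype.card_pos
  have hbad : ∀ n, Adm n s → (100 * s + 1) * (Bad n).card ≤ Fintype.card (OO s) - 1 := by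
    intro n ha
    by_cases hd : (DD Typ Adm n X s).card = 0
    · have : Bad n = ∅ := by
        rw [hBad]
        apply Finset.filter_eq_empty_iff.2
        intro ω _
        rw [not_not, hD, hd]
        have h1 : (DD Typ Adm n (Y ω) (s + 1)).card ≤ (DD Typ Adm n (Y ω) s).card :=
          Finset.card_le_card (DD_anti (Nat.le_succ s))
        rw [hD, hd] at h1
        have h2 : (DD Typ Adm n (Y ω) (s + 1)).card = 0 := by omega
        rw [h2]; simp
      rw [this]; simp
    · have hd' : (0 : ℝ) < (DD Typ Adm n X s).card := by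
        exact_mod_cast Nat.pos_of_ne_zero hd
      have hqp := hq0 n s ha
      have h1 : ∑ ω ∈ Bad n, ((DD Typ Adm n (Y ω) (s + 1)).card : ℝ) ≤
          Fintype.card (OO s) * q n s * (DD Typ Adm n X s).card :=
        (Finset.sum_le_sum_of_subset_of_nonneg (Finset.subset_univ _)
          (fun _ _ _ => by positivity)).trans (hexp n ha)
      by_cases hne : (Bad n).Nonempty
      · have h2 : ∑ ω ∈ Bad n, ((100 * s + 1) * q n s * (DD Typ Adm n X s).card : ℝ) <
            ∑ ω ∈ Bad n, ((DD Typ Adm n (Y ω) (s + 1)).card : ℝ) := by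
          apply Finset.sum_lt_sum_of_nonempty hne
          intro ω hω
          rw [hBad, mem_filter, hD] at hω
          exact not_le.1 hω.2
        rw [Finset.sum_const, nsmul_eq_mul] at h2
        have h3 := h2.trans_le h1
        have h4 : ((Bad n).card * (100 * s + 1) : ℝ) * (q n s * (DD Typ Adm n X s).card) <
            Fintype.card (OO s) * (q n s * (DD Typ Adm n X s).card) := by linarith
        have h5 := lt_of_mul_lt_mul_right h4 (by positivity)
        have h6 : (Bad n).card * (100 * s + 1) < Fintype.card (OO s) := by exact_mod_cast h5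
        rw [mul_comm]
        omega
      · rw [Finset.not_nonempty_iff_eq_empty] at hne
        rw [hne]; simp
  -- union
  set Ad : Finset ℕ := (Finset.range (100 * s + 1)).filter (fun n => Adm n s) with hAd
  have hAdc : Ad.card ≤ 100 * s + 1 := by
    rw [hAd]; exact (Finset.card_filter_le _ _).trans (by rw [Finset.card_range])
  have hun : (Ad.biUnion Bad).card < Fintype.card (OO s) := by
    have h1 : (100 * s + 1) * ∑ n ∈ Ad, (Bad n).card ≤ (100 * s + 1) * (Fintype.card (OO s) - 1) := by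
      calc (100 * s + 1) * ∑ n ∈ Ad, (Bad n).card = ∑ n ∈ Ad, (100 * s + 1) * (Bad n).card := by
            rw [Finset.mul_sum]
        _ ≤ ∑ n ∈ Ad, (Fintype.card (OO s) - 1) := by
            apply Finset.sum_le_sum
            intro n hn
            exact hbad n (mem_filter.1 hn).2
        _ = Ad.card * (Fintype.card (OO s) - 1) := by rw [Finset.sum_const, smul_eq_mul]
        _ ≤ _ := Nat.mul_le_mul_right _ hAdc
    have h2 := Nat.le_of_mul_le_mul_left h1 (by omega)
    have h3 : (Ad.biUnion Bad).card ≤ ∑ n ∈ Ad, (Bad n).card := Finset.card_biUnion_le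
    omega
  obtain ⟨ω, _, hω⟩ := Finset.exists_mem_notMem_of_card_lt_card
    (s := Ad.biUnion Bad) (t := (univ : Finset (OO s))) (by rw [Finset.card_univ]; exact hun)
  refine ⟨lev s ω, fun n ha => ?_⟩
  by_contra hno
  apply hω
  rw [Finset.mem_biUnion]
  refine ⟨n, ?_, ?_⟩
  · rw [hAd, mem_filter, Finset.mem_range]
    refine ⟨?_, ha⟩
    have := (hAdm n s ha).2.2
    omega
  · rw [hBad, mem_filter]
    exact ⟨mem_univ _, hno⟩

/-- all levels -/
lemma exists_lev (hAdm : ∀ n s, Adm n s → 2 ≤ s ∧ s ≤ n ∧ n ≤ 100 * s)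
    (hstep : ∀ X : Lev, (∀ F, X 1 F) → ∀ s, 2 ≤ s →
      ∃ x : SimpleGraph (Fin s) → Prop, ∀ n, Adm n s →
      ((DD Typ Adm n (Function.update X s x) (s + 1)).card : ℝ) ≤
        (100 * s + 1) * q n s * (DD Typ Adm n (Function.update X s x) s).card) :
    ∃ X : Lev, (∀ F, X 1 F) ∧ ∀ n s, Adm n s →
      ((DD Typ Adm n X (s + 1)).card : ℝ) ≤ (100 * s + 1) * q n s * (DD Typ Adm n X s).card := by
  classical
  -- the recursion
  have hstep' : ∀ (X : {X : Lev // ∀ F, X 1 F}) (s : ℕ), ∃ Y : {X : Lev // ∀ F, X 1 F},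
      (∀ m, m ≠ s → Y.1 m = X.1 m) ∧ (2 ≤ s → ∀ n, Adm n s →
      ((DD Typ Adm n Y.1 (s + 1)).card : ℝ) ≤
        (100 * s + 1) * q n s * (DD Typ Adm n Y.1 s).card) := by
    intro X s
    by_cases hs : 2 ≤ s
    · obtain ⟨x, hx⟩ := hstep X.1 X.2 s hs
      refine ⟨⟨Function.update X.1 s x, ?_⟩, ?_, fun _ => hx⟩
      · intro F
        rw [Function.update_of_ne (by omega)]
        exact X.2 F
      · intro m hm
        exact Function.update_of_ne hm _ _
    · exact ⟨X, fun _ _ => rfl, fun h => absurd h hs⟩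
  choose nxt hnxt1 hnxt2 using hstep'
  let Y : ℕ → {X : Lev // ∀ F, X 1 F} := fun m =>
    Nat.rec ⟨fun _ _ => True, fun _ => trivial⟩ (fun s X => nxt X s) m
  have hYs : ∀ s, Y (s + 1) = nxt (Y s) s := fun s => rfl
  -- stability
  have hstab : ∀ m j, m < j → (Y j).1 m = (Y (m + 1)).1 m := by
    intro m j hj
    induction j with
    | zero => omega
    | succ j ih =>
      rcases Nat.lt_succ_iff_lt_or_eq.1 hj with h | h
      · rw [hYs, hnxt1 _ _ m (by omega)]
        exact ih h
      · subst h; rfl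
  refine ⟨fun m => (Y (m + 1)).1 m, fun F => (Y 2).2 F, ?_⟩
  intro n s ha
  have hs := (hAdm n s ha).1
  have h1 : ∀ m < s + 1, (fun m => (Y (m + 1)).1 m : Lev) m = (Y (s + 1)).1 m :=
    fun m hm => (hstab m (s + 1) hm).symm
  rw [DD_congr hAdm h1, DD_congr hAdm (s := s) (fun m hm => h1 m (by omega)), hYs]
  exact hnxt2 (Y s) s hs n ha

/-- the product bound -/
lemma prod_bound (hq0 : ∀ n s, Adm n s → 0 < q n s) (X : Lev) (n : ℕ)
    (h : ∀ s, Adm n s →
      ((DD Typ Adm n X (s + 1)).card : ℝ) ≤ (100 * s + 1) * q n s * (DD Typ Adm n X s).card)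
    [DecidablePred (Adm n)] (m : ℕ) :
    ((DD Typ Adm n X m).card : ℝ) ≤
      (∏ s ∈ (range m).filter (Adm n), ((100 * s + 1) * q n s)) *
        (Fintype.card (SimpleGraph (Fin n)) : ℝ) ^ 2 := by
  induction m with
  | zero =>
    simp only [Finset.range_zero, Finset.filter_empty, Finset.prod_empty, one_mul]
    have : (DD Typ Adm n X 0).card ≤ Fintype.card (SimpleGraph (Fin n) × SimpleGraph (Fin n)) :=
      Finset.card_le_univ _
    rw [Fintype.card_prod, ← sq] at this
    exact_mod_cast this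
  | succ m ih =>
    rw [Finset.range_add_one, Finset.filter_insert]
    split_ifs with ha
    · rw [Finset.prod_insert (by simp)]
      refine (h m ha).trans ?_
      rw [mul_assoc ((100 * (m : ℝ) + 1) * q n m)]
      apply mul_le_mul_of_nonneg_left ih
      have := hq0 n m ha
      positivity
    · refine le_trans ?_ ih
      exact_mod_cast Finset.card_le_card (DD_anti (Nat.le_succ m))

end

end Pool.Agent.R54.HP
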