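import Pool.Agent.R54.HP.Rec

/-! Most sets of `k` vertices of most graphs are bases. -/

namespace Pool.Agent.R54.HP

open Finset

variable {n : ℕ}

/-- Counting graphs which are determined by their edges outside `J`. -/
lemma count_det (J : Finset (Sym2 (Fin n))) (hJ : ∀ e ∈ J, ¬ e.IsDiag)
    (GG : Finset (SimpleGraph (Fin n)))
    (h : ∀ G ∈ GG, ∀ G' ∈ GG, (∀ e, e ∉ J → (e ∈ G.edgeSet ↔ e ∈ G'.edgeSet)) → G = G') :
    GG.card * 2 ^ J.card ≤ Fintype.card (SimpleGraph (Fin n)) := by
  classical
  rw [← Finset.card_powerset, ← Finset.card_product, ← Finset.card_univ]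
  set F : SimpleGraph (Fin n) × Finset (Sym2 (Fin n)) → SimpleGraph (Fin n) :=
    fun p => SimpleGraph.fromEdgeSet ((p.1.edgeSet \ (J : Set (Sym2 (Fin n)))) ∪ p.2) with hF
  have hmem : ∀ p ∈ GG ×ˢ J.powerset, ∀ e, (e ∈ (F p).edgeSet ↔
      (e ∈ p.1.edgeSet ∧ e ∉ J) ∨ e ∈ p.2) := by
    intro p hp e
    rw [Finset.mem_product, Finset.mem_powerset] at hp
    rw [hF, SimpleGraph.edgeSet_fromEdgeSet]
    simp only [Set.mem_sdiff, Set.mem_union, Finset.mem_coe]
    constructor
    · rintro ⟨h1, _⟩; exact h1
    · intro h1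
      refine ⟨h1, ?_⟩
      rcases h1 with h2 | h2
      · exact SimpleGraph.not_isDiag_of_mem_edgeSet _ h2.1
      · exact hJ e (hp.2 h2)
  apply Finset.card_le_card_of_injOn F (fun p _ => Finset.mem_coe.2 (Finset.mem_univ _))
  intro p hp q hq heq
  have hp' := hmem p hp
  have hq' := hmem q hq
  rw [Finset.mem_coe, Finset.mem_product, Finset.mem_powerset] at hp hq
  have h1 : p.1 = q.1 := by
    apply h _ hp.1 _ hq.1
    intro e he
    have h2 := hp' e
    have h3 := hq' e
    rw [heq] at h2
    have h4 : e ∉ p.2 := fun hh => he (hp.2 hh)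
    have h5 : e ∉ q.2 := fun hh => he (hq.2 hh)
    have h6 := h2.symm.trans h3
    constructor
    · intro h7
      have := h6.1 (Or.inl ⟨h7, he⟩)
      rcases this with h8 | h8
      · exact h8.1
      · exact absurd h8 h5
    · intro h7
      have := h6.2 (Or.inl ⟨h7, he⟩)
      rcases this with h8 | h8
      · exact h8.1
      · exact absurd h8 h4
  have h2 : p.2 = q.2 := by
    ext e
    have h2 := hp' e
    have h3 := hq' e
    rw [heq] at h2
    have h6 := h2.symm.trans h3
    constructor
    · intro h7
      rcases h6.1 (Or.inr h7) with h8 | h8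
      · exact absurd (hp.2 h7) h8.2
      · exact h8
    · intro h7
      rcases h6.2 (Or.inr h7) with h8 | h8
      · exact absurd (hq.2 h7) h8.2
      · exact h8
  exact Prod.ext h1 h2

open Classical in
/-- equal traces -/
lemma count_trace (K : Finset (Fin n)) {u v : Fin n} (hu : u ∉ K) (hv : v ∉ K) (huv : u ≠ v) :
    ((univ : Finset (SimpleGraph (Fin n))).filter
      (fun G => ∀ w ∈ K, (G.Adj u w ↔ G.Adj v w))).card * 2 ^ K.card
      ≤ Fintype.card (SimpleGraph (Fin n)) := by
  have hcard : (K.image (fun w => s(u, w))).card = K.card := by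
    apply Finset.card_image_of_injective
    intro a b hab
    simp only [Sym2.eq_iff] at hab
    rcases hab with h | h
    · exact h.2
    · rw [h.2, ← h.1]
  rw [← hcard]
  apply count_det
  · intro e he
    rw [Finset.mem_image] at he
    obtain ⟨w, hw, rfl⟩ := he
    rw [Sym2.mk_isDiag_iff]
    rintro rfl
    exact hu hw
  · intro G hG G' hG' hag
    rw [mem_filter] at hG hG'
    have hvw : ∀ w ∈ K, s(v, w) ∉ K.image (fun w => s(u, w)) := by
      intro w hw hm
      rw [Finset.mem_image] at hm
      obtain ⟨w', hw', heq⟩ := hm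
      rw [Sym2.eq_iff] at heq
      rcases heq with h | h
      · exact huv h.1
      · exact hv (h.2 ▸ hw')
    have hall : ∀ e, e ∈ G.edgeSet ↔ e ∈ G'.edgeSet := by
      intro e
      by_cases he : e ∈ K.image (fun w => s(u, w))
      · rw [Finset.mem_image] at he
        obtain ⟨w, hw, rfl⟩ := he
        rw [SimpleGraph.mem_edgeSet, SimpleGraph.mem_edgeSet, hG.2 w hw, hG'.2 w hw]
        exact hag _ (hvw w hw)
      · exact hag e he
    exact SimpleGraph.edgeSet_injective (Set.ext hall)

/-- maximal subsets of the moved set disjoint from their image -/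
lemma exists_third (f : Fin n → Fin n) (K M : Finset (Fin n)) (hMK : M ⊆ K)
    (hf : Set.InjOn f K) (hM : ∀ x ∈ M, f x ≠ x) :
    ∃ A ⊆ M, Disjoint (A.image f) A ∧ A.card = (M.card + 2) / 3 := by
  classical
  -- maximal family
  obtain ⟨A, hA, hmax⟩ := Finset.exists_max_image
    (M.powerset.filter (fun A => Disjoint (A.image f) A)) Finset.card
    ⟨∅, by simp⟩
  rw [mem_filter, Finset.mem_powerset] at hA
  have hcov : M \ A ⊆ (A.image f) ∪ (M.filter (fun x => f x ∈ A)) := by
    intro x hx
    rw [Finset.mem_sdiff] at hx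
    by_contra hno
    rw [Finset.mem_union, mem_filter] at hno
    push Not at hno
    have h1 : insert x A ∈ M.powerset.filter (fun A => Disjoint (A.image f) A) := by
      rw [mem_filter, Finset.mem_powerset]
      refine ⟨Finset.insert_subset hx.1 hA.1, ?_⟩
      rw [Finset.disjoint_left]
      intro y hy hy'
      rw [Finset.mem_image] at hy
      obtain ⟨z, hz, rfl⟩ := hy
      rw [Finset.mem_insert] at hz hy'
      rcases hz with rfl | hz
      · rcases hy' with h | h
        · exact hM _ hx.1 h
        · exact hno.2 hx.1 h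
      · rcases hy' with h | h
        · exact hno.1 (Finset.mem_image.2 ⟨z, hz, h⟩)
        · exact (Finset.disjoint_left.1 hA.2) (Finset.mem_image_of_mem f hz) h
    have h2 := hmax _ h1
    rw [Finset.card_insert_of_notMem hx.2] at h2
    omega
  have hc1 : (A.image f).card ≤ A.card := Finset.card_image_le
  have hc2 : (M.filter (fun x => f x ∈ A)).card ≤ A.card := by
    apply Finset.card_le_card_of_injOn f
    · intro x hx
      exact (mem_filter.1 hx).2
    · intro x hx y hy hxy
      exact hf (hMK (mem_filter.1 hx).1) (hMK (mem_filter.1 hy).1) hxy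
  have hc3 : (M \ A).card = M.card - A.card := Finset.card_sdiff_of_subset hA.1
  have hc4 := (Finset.card_le_card hcov).trans (Finset.card_union_le _ _)
  have hc5 : A.card ≤ M.card := Finset.card_le_card hA.1
  have hc6 : (M.card + 2) / 3 ≤ A.card := by omega
  obtain ⟨A', hA', hA'c⟩ := Finset.exists_subset_card_eq hc6
  refine ⟨A', hA'.trans hA.1, ?_, hA'c⟩
  exact Finset.disjoint_of_subset_left (Finset.image_subset_image hA')
    (Finset.disjoint_of_subset_right hA' hA.2)

open Classical in
/-- graphs for which `f` is an embedding of `G[K]` -/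
lemma count_embed (K : Finset (Fin n)) (f : Fin n → Fin n) (hf : Set.InjOn f K) :
    ((univ : Finset (SimpleGraph (Fin n))).filter
      (fun G => ∀ x ∈ K, ∀ y ∈ K, (G.Adj (f x) (f y) ↔ G.Adj x y))).card
        * 2 ^ ((K.filter (fun x => f x ≠ x)).card * ((K.card - 4) / 9))
      ≤ Fintype.card (SimpleGraph (Fin n)) := by
  set M := K.filter (fun x => f x ≠ x) with hM
  have hMK : M ⊆ K := Finset.filter_subset _ _
  obtain ⟨A, hAM, hdis, hAc⟩ := exists_third f K M hMK hf (fun x hx => (mem_filter.1 hx).2)
  have hAK : A ⊆ K := hAM.trans hMK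
  set B := K \ (A ∪ A.image f) with hB
  have hAB : Disjoint A B := by
    rw [Finset.disjoint_left]
    intro x hx hx'
    rw [hB, Finset.mem_sdiff, Finset.mem_union] at hx'
    exact hx'.2 (Or.inl hx)
  set J := (A ×ˢ B).image (fun p => s(p.1, p.2)) with hJ
  have hJc : J.card = A.card * B.card := by
    rw [hJ, Finset.card_image_of_injOn, Finset.card_product]
    intro p hp q hq heq
    rw [Finset.mem_coe, Finset.mem_product] at hp hq
    simp only [Sym2.eq_iff] at heq
    rcases heq with h | h
    · exact Prod.ext h.1 h.2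
    · exfalso
      exact (Finset.disjoint_left.1 hAB) hp.1 (h.1 ▸ hq.2)
  have hBc : K.card ≤ B.card + 2 * A.card := by
    have h1 : (A ∪ A.image f).card ≤ 2 * A.card := by
      refine (Finset.card_union_le _ _).trans ?_
      have : (A.image f).card ≤ A.card := Finset.card_image_le
      omega
    have h2 : K.card - (A ∪ A.image f).card ≤ B.card := Finset.le_card_sdiff _ _
    omega
  have hMc : M.card ≤ K.card := Finset.card_le_card hMK
  have hexp : M.card * ((K.card - 4) / 9) ≤ J.card := by
    rw [hJc]
    set l := (K.card - 4) / 9 with hl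
    have h1 : M.card ≤ 3 * A.card := by omega
    have h2 : 3 * l ≤ B.card := by omega
    calc M.card * l ≤ (3 * A.card) * l := Nat.mul_le_mul_right _ h1
      _ = A.card * (3 * l) := by ring
      _ ≤ A.card * B.card := Nat.mul_le_mul_left _ h2
  refine le_trans (Nat.mul_le_mul_left _ (Nat.pow_le_pow_right (by norm_num) hexp)) ?_
  apply count_det
  · intro e he
    rw [hJ, Finset.mem_image] at he
    obtain ⟨p, hp, rfl⟩ := he
    rw [Finset.mem_product] at hp
    rw [Sym2.mk_isDiag_iff]
    intro h
    exact (Finset.disjoint_left.1 hAB) hp.1 (h ▸ hp.2)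
  · intro G hG G' hG' hag
    rw [mem_filter] at hG hG'
    have hout : ∀ x ∈ A, ∀ y ∈ B, s(f x, f y) ∉ J := by
      intro x hx y hy hm
      rw [hJ, Finset.mem_image] at hm
      obtain ⟨p, hp, heq⟩ := hm
      rw [Finset.mem_product] at hp
      have hfA : f x ∉ A := (Finset.disjoint_left.1 hdis) (Finset.mem_image_of_mem f hx)
      have hfB : f x ∉ B := by
        rw [hB, Finset.mem_sdiff, Finset.mem_union]
        push Not
        intro _
        exact Or.inr (Finset.mem_image_of_mem f hx)
      rw [Sym2.eq_iff] at heq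
      rcases heq with h | h
      · exact hfA (h.1 ▸ hp.1)
      · exact hfB (h.2 ▸ hp.2)
    have hall : ∀ e, e ∈ G.edgeSet ↔ e ∈ G'.edgeSet := by
      intro e
      by_cases he : e ∈ J
      · have he' := he
        rw [hJ, Finset.mem_image] at he'
        obtain ⟨p, hp, rfl⟩ := he'
        rw [Finset.mem_product] at hp
        have hxK : p.1 ∈ K := hAK hp.1
        have hyK : p.2 ∈ K := by
          have := hp.2
          rw [hB, Finset.mem_sdiff] at this
          exact this.1
        rw [SimpleGraph.mem_edgeSet, SimpleGraph.mem_edgeSet, ← hG.2 _ hxK _ hyK,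
          ← hG'.2 _ hxK _ hyK]
        exact hag _ (hout _ hp.1 _ hp.2)
      · exact hag e he
    exact SimpleGraph.edgeSet_injective (Set.ext hall)

open Classical in
/-- The number of graphs for which `K` is not a base. -/
lemma count_not_base (K : Finset (Fin n)) :
    (((univ : Finset (SimpleGraph (Fin n))).filter (fun G => ¬ Base G K)).card : ℝ)
      ≤ Fintype.card (SimpleGraph (Fin n)) *
        (((1 + (n : ℝ) / 2 ^ ((K.card - 4) / 9)) ^ K.card - 1) + (n : ℝ) ^ 2 / 2 ^ K.card) := by
  set l := (K.card - 4) / 9 with hl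
  set Nall : ℝ := (Fintype.card (SimpleGraph (Fin n)) : ℝ) with hN
  -- the two kinds of failures
  set FE : (Fin n → Fin n) → Finset (SimpleGraph (Fin n)) := fun f =>
    (univ : Finset (SimpleGraph (Fin n))).filter
      (fun G => ∀ x ∈ K, ∀ y ∈ K, (G.Adj (f x) (f y) ↔ G.Adj x y)) with hFE
  set FT : Fin n × Fin n → Finset (SimpleGraph (Fin n)) := fun p =>
    (univ : Finset (SimpleGraph (Fin n))).filter
      (fun G => ∀ w ∈ K, (G.Adj p.1 w ↔ G.Adj p.2 w)) with hFT
  set PM : Finset (Fin n) → Finset (Fin n → Fin n) := fun M =>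
    (Fintype.piFinset (fun x => if x ∈ M then (univ : Finset (Fin n)) else {x})).filter
      (fun f => Set.InjOn f K ∧ K.filter (fun x => f x ≠ x) = M) with hPM
  set PP : Finset (Fin n × Fin n) := (univ : Finset (Fin n × Fin n)).filter
    (fun p => p.1 ∉ K ∧ p.2 ∉ K ∧ p.1 ≠ p.2) with hPP
  have hsub : (univ : Finset (SimpleGraph (Fin n))).filter (fun G => ¬ Base G K) ⊆
      ((K.powerset.erase ∅).biUnion fun M => (PM M).biUnion FE) ∪ PP.biUnion FT := by
    intro G hG
    rw [mem_filter] at hG
    have hnb := hG.2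
    unfold Base at hnb
    rw [not_and_or] at hnb
    rw [Finset.mem_union]
    rcases hnb with h | h
    · left
      push Not at h
      obtain ⟨f, hf1, hf2, x, hx, hfx⟩ := h
      set f' : Fin n → Fin n := fun x => if x ∈ K then f x else x with hf'
      have hf'K : ∀ x ∈ K, f' x = f x := fun x hx => by simp [hf', hx]
      have hinj : Set.InjOn f' K := by
        intro a ha b hb hab
        rw [hf'K a ha, hf'K b hb] at hab
        exact hf1 ha hb hab
      rw [Finset.mem_biUnion]
      refine ⟨K.filter (fun x => f' x ≠ x), ?_, ?_⟩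
      · rw [Finset.mem_erase, Finset.mem_powerset]
        refine ⟨?_, Finset.filter_subset _ _⟩
        rw [← Finset.nonempty_iff_ne_empty]
        refine ⟨x, ?_⟩
        rw [mem_filter, hf'K x hx]
        exact ⟨hx, hfx⟩
      · rw [Finset.mem_biUnion]
        refine ⟨f', ?_, ?_⟩
        · rw [hPM, mem_filter, Fintype.mem_piFinset]
          refine ⟨?_, hinj, rfl⟩
          intro y
          split_ifs with hy
          · exact Finset.mem_univ _
          · rw [Finset.mem_singleton]
            rw [mem_filter] at hy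
            push Not at hy
            by_cases hyK : y ∈ K
            · exact hy hyK
            · simp [hf', hyK]
        · rw [hFE, mem_filter]
          refine ⟨Finset.mem_univ _, ?_⟩
          intro a ha b hb
          rw [hf'K a ha, hf'K b hb]
          exact hf2 a ha b hb
    · right
      push Not at h
      obtain ⟨u, hu, v, hv, huv, hne⟩ := h
      rw [Finset.mem_biUnion]
      refine ⟨(u, v), ?_, ?_⟩
      · rw [hPP, mem_filter]
        exact ⟨Finset.mem_univ _, hu, hv, hne⟩
      · rw [hFT, mem_filter]
        exact ⟨Finset.mem_univ _, huv⟩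
  have h1 : (((univ : Finset (SimpleGraph (Fin n))).filter (fun G => ¬ Base G K)).card : ℝ)
      ≤ ∑ M ∈ K.powerset.erase ∅, ∑ f ∈ PM M, ((FE f).card : ℝ) + ∑ p ∈ PP, ((FT p).card : ℝ) := by
    have h2 := (Finset.card_le_card hsub).trans (Finset.card_union_le _ _)
    have h3 : ((K.powerset.erase ∅).biUnion fun M => (PM M).biUnion FE).card ≤
        ∑ M ∈ K.powerset.erase ∅, ∑ f ∈ PM M, (FE f).card := by
      refine Finset.card_biUnion_le.trans ?_
      exact Finset.sum_le_sum fun M _ => Finset.card_biUnion_le
    have h4 : (PP.biUnion FT).card ≤ ∑ p ∈ PP, (FT p).card := Finset.card_biUnion_le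
    have h5 := h2.trans (add_le_add h3 h4)
    exact_mod_cast h5
  have hNpos : 0 ≤ Nall := by rw [hN]; positivity
  have h2pos : (0 : ℝ) < 2 ^ l := by positivity
  have hFEb : ∀ M, ∀ f ∈ PM M, ((FE f).card : ℝ) ≤ Nall * (1 / 2 ^ l) ^ M.card := by
    intro M f hf
    rw [hPM, mem_filter] at hf
    have h2 := count_embed K f hf.2.1
    rw [hf.2.2] at h2
    have h3 : ((FE f).card : ℝ) * 2 ^ (M.card * l) ≤ Nall := by
      rw [hN]; exact_mod_cast h2
    rw [one_div, inv_pow, ← pow_mul, mul_comm l, ← div_eq_mul_inv, le_div_iff₀ (by positivity)]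
    exact h3
  have hPMc : ∀ M, ((PM M).card : ℝ) ≤ (n : ℝ) ^ M.card := by
    intro M
    have h2 : (PM M).card ≤ (Fintype.piFinset
        (fun x => if x ∈ M then (univ : Finset (Fin n)) else {x})).card :=
      Finset.card_filter_le _ _
    have h3 : (Fintype.piFinset
        (fun x => if x ∈ M then (univ : Finset (Fin n)) else {x})).card = n ^ M.card := by
      rw [Fintype.card_piFinset]
      have : ∀ x, (if x ∈ M then (univ : Finset (Fin n)) else {x}).card
          = if x ∈ M then n else 1 := by
        intro x; split_ifs <;> simp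
      rw [Finset.prod_congr rfl (fun x _ => this x), Finset.prod_ite_mem]
      simp
    rw [h3] at h2
    exact_mod_cast h2
  have h6 : ∑ M ∈ K.powerset.erase ∅, ∑ f ∈ PM M, ((FE f).card : ℝ)
      ≤ Nall * ((1 + (n : ℝ) / 2 ^ l) ^ K.card - 1) := by
    calc ∑ M ∈ K.powerset.erase ∅, ∑ f ∈ PM M, ((FE f).card : ℝ)
        ≤ ∑ M ∈ K.powerset.erase ∅, Nall * ((n : ℝ) / 2 ^ l) ^ M.card := by
          apply Finset.sum_le_sum
          intro M _
          calc ∑ f ∈ PM M, ((FE f).card : ℝ)
              ≤ ∑ f ∈ PM M, Nall * (1 / 2 ^ l) ^ M.card := Finset.sum_le_sum (hFEb M)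
            _ = (PM M).card * (Nall * (1 / 2 ^ l) ^ M.card) := by
                rw [Finset.sum_const, nsmul_eq_mul]
            _ ≤ (n : ℝ) ^ M.card * (Nall * (1 / 2 ^ l) ^ M.card) := by
                apply mul_le_mul_of_nonneg_right (hPMc M)
                positivity
            _ = _ := by rw [div_pow, div_pow, one_pow]; ring
      _ = Nall * ((1 + (n : ℝ) / 2 ^ l) ^ K.card - 1) := by
          rw [← Finset.mul_sum]
          congr 1
          have h7 := Finset.sum_pow_mul_eq_add_pow ((n : ℝ) / 2 ^ l) 1 K
          simp only [one_pow, mul_one] at h7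
          rw [← Finset.sum_erase_add _ _ (Finset.empty_mem_powerset K)] at h7
          simp only [Finset.card_empty, pow_zero] at h7
          rw [add_comm 1]
          linarith
  have h7 : ∑ p ∈ PP, ((FT p).card : ℝ) ≤ Nall * ((n : ℝ) ^ 2 / 2 ^ K.card) := by
    calc ∑ p ∈ PP, ((FT p).card : ℝ) ≤ ∑ p ∈ PP, Nall / 2 ^ K.card := by
          apply Finset.sum_le_sum
          intro p hp
          rw [hPP, mem_filter] at hp
          have h2 := count_trace K hp.2.1 hp.2.2.1 hp.2.2.2
          rw [le_div_iff₀ (by positivity), hN]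
          exact_mod_cast h2
      _ = PP.card * (Nall / 2 ^ K.card) := by rw [Finset.sum_const, nsmul_eq_mul]
      _ ≤ (n : ℝ) ^ 2 * (Nall / 2 ^ K.card) := by
          apply mul_le_mul_of_nonneg_right _ (by positivity)
          have h8 : PP.card ≤ n ^ 2 := by
            refine (Finset.card_filter_le _ _).trans ?_
            rw [Finset.card_univ, Fintype.card_prod, Fintype.card_fin]
            exact (sq n).ge
          exact_mod_cast h8
      _ = _ := by ring
  rw [mul_add]
  exact h1.trans (add_le_add h6 h7)

open Classical in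
/-- The number of graphs with few bases. -/
lemma count_atypical (k : ℕ) (hkn : k ≤ n) :
    (((univ : Finset (SimpleGraph (Fin n))).filter
      (fun G => ¬ (7 * n.choose k ≤ 8 * (bases k G).card))).card : ℝ)
      ≤ 8 * (Fintype.card (SimpleGraph (Fin n)) *
        (((1 + (n : ℝ) / 2 ^ ((k - 4) / 9)) ^ k - 1) + (n : ℝ) ^ 2 / 2 ^ k)) := by
  set Q : ℝ := (Fintype.card (SimpleGraph (Fin n)) *
        (((1 + (n : ℝ) / 2 ^ ((k - 4) / 9)) ^ k - 1) + (n : ℝ) ^ 2 / 2 ^ k)) with hQ
  set AT := (univ : Finset (SimpleGraph (Fin n))).filter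
      (fun G => ¬ (7 * n.choose k ≤ 8 * (bases k G).card)) with hAT
  set PK := Finset.powersetCard k (univ : Finset (Fin n)) with hPK
  have hPKc : PK.card = n.choose k := by
    rw [hPK, Finset.card_powersetCard, Finset.card_univ, Fintype.card_fin]
  have hdc : ∑ G : SimpleGraph (Fin n), ((PK.filter (fun K => ¬ Base G K)).card : ℝ)
      = ∑ K ∈ PK, (((univ : Finset (SimpleGraph (Fin n))).filter
        (fun G => ¬ Base G K)).card : ℝ) := by
    simp_rw [Finset.card_filter]
    push_cast
    rw [Finset.sum_comm]
  have hup : ∑ K ∈ PK, (((univ : Finset (SimpleGraph (Fin n))).filter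
        (fun G => ¬ Base G K)).card : ℝ) ≤ n.choose k * Q := by
    calc _ ≤ ∑ K ∈ PK, Q := by
          apply Finset.sum_le_sum
          intro K hK
          rw [hPK, Finset.mem_powersetCard] at hK
          have := count_not_base K
          rw [hK.2] at this
          exact this
      _ = _ := by rw [Finset.sum_const, hPKc, nsmul_eq_mul]
  have hlow : (AT.card : ℝ) * (n.choose k / 8) ≤
      ∑ G : SimpleGraph (Fin n), ((PK.filter (fun K => ¬ Base G K)).card : ℝ) := by
    calc (AT.card : ℝ) * (n.choose k / 8) = ∑ G ∈ AT, (n.choose k / 8 : ℝ) := by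
          rw [Finset.sum_const, nsmul_eq_mul]
      _ ≤ ∑ G ∈ AT, ((PK.filter (fun K => ¬ Base G K)).card : ℝ) := by
          apply Finset.sum_le_sum
          intro G hG
          rw [hAT, mem_filter] at hG
          have h1 := hG.2
          push Not at h1
          have h2 : (PK.filter (fun K => Base G K)).card + (PK.filter (fun K => ¬ Base G K)).card
              = n.choose k := by
            rw [Finset.card_filter_add_card_filter_not, hPKc]
          have h3 : (bases k G).card = (PK.filter (fun K => Base G K)).card := rfl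
          rw [h3] at h1
          have h4 : n.choose k ≤ 8 * (PK.filter (fun K => ¬ Base G K)).card := by omega
          have h5 : (n.choose k : ℝ) ≤ 8 * ((PK.filter (fun K => ¬ Base G K)).card : ℝ) := by
            exact_mod_cast h4
          linarith
      _ ≤ _ := Finset.sum_le_sum_of_subset_of_nonneg (Finset.subset_univ _)
          (fun _ _ _ => by positivity)
  rw [hdc] at hlow
  have hpos : (0 : ℝ) < n.choose k := by exact_mod_cast Nat.choose_pos hkn
  have h9 := hlow.trans hup
  have h10 : (AT.card : ℝ) * n.choose k ≤ (8 * Q) * n.choose k := by linarith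
  exact le_of_mul_le_mul_right h10 hpos

end Pool.Agent.R54.HP
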