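import Pool.Agent.R54.HP.Asym
import Pool.Agent.R54.HP.Num
import Pool.Agent.R54.HP.Poly
import Pool.Agent.R54.HP.Seq
import Pool.Agent.R54.HP.Typ

/-! The Harary polynomial of a suitable property is almost complete. -/

namespace Pool.Agent.R54.HP

open Finset Filter Topology

/-- the graphs most of whose sets with `sqrt n` elements are bases -/
def TypG (n : ℕ) (G : SimpleGraph (Fin n)) : Prop :=
  7 * n.choose (Nat.sqrt n) ≤ 8 * (bases (Nat.sqrt n) G).card

/-- the base inequality -/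
def BaseN (n : ℕ) : Prop := 1 ≤ n ∧ 100000 * ((Real.sqrt n + 2) * (Real.log n + 1)) ≤ n

/-- admissible levels -/
def AdmG (n s : ℕ) : Prop := BaseN n ∧ n ≤ 100 * s ∧ 100 * s ≤ 99 * n

/-- the bound for one level -/
noncomputable def qG (n s : ℕ) : ℝ :=
  81 * (n : ℝ) ^ 3 * Real.exp (-(3 / 4 * Real.log (n.choose s)))

lemma admG_bounds (n s : ℕ) (h : AdmG n s) : 2 ≤ s ∧ s ≤ n ∧ n ≤ 100 * s := by
  obtain ⟨⟨h1, h2⟩, h3, h4⟩ := h
  have := (pow_lt_of_base h1 h2).1
  refine ⟨by omega, by omega, h3⟩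

lemma qG_pos (n s : ℕ) (h : AdmG n s) : 0 < qG n s := by
  have h1 : (0 : ℝ) < n := by exact_mod_cast h.1.1
  unfold qG
  positivity

open Classical in
lemma level_bound (n s : ℕ) (ha : AdmG n s) (G H : SimpleGraph (Fin n)) (hG : TypG n G)
    (hGH : IsEmpty (G ≃g H)) (c : ℤ) :
    (((univ : Finset (OO s)).filter (fun p =>
      (((Finset.powersetCard s (univ : Finset (Fin n))).filter
        (fun S : Finset (Fin n) => crd p.1 (ty s G S) ∈ p.2)).card : ℤ) -
      (((Finset.powersetCard s (univ : Finset (Fin n))).filter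
        (fun S : Finset (Fin n) => crd p.1 (ty s H S) ∈ p.2)).card : ℤ) = c)).card : ℝ)
      ≤ Fintype.card (OO s) * qG n s := by
  obtain ⟨hs2, hsn, _⟩ := admG_bounds n s ha
  obtain ⟨⟨hn1, hbase⟩, h3, h4⟩ := ha
  obtain ⟨hn, hpow⟩ := pow_lt_of_base hn1 hbase
  set k := Nat.sqrt n with hk
  have hk4 : 4 ≤ k := by
    rw [hk]; apply Nat.le_sqrt.2; omega
  have hkk : k * k ≤ n := Nat.sqrt_le n
  have hkn : k + 2 ≤ n := by nlinarith
  have hlow := choose_lower h3 h4
  have hA1 : 1 < n.choose s := by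
    have h5 : 2 ^ 1 ≤ 2 ^ (n / 100) := Nat.pow_le_pow_right (by norm_num) (by omega)
    omega
  have hsmall : ∀ j ≤ k + 1, (n.choose j) ^ 2 < n.choose s := by
    intro j hj
    have h5 : n.choose j ≤ n ^ (k + 1) :=
      (Nat.choose_le_pow n j).trans (Nat.pow_le_pow_right hn1 hj)
    calc (n.choose j) ^ 2 ≤ (n ^ (k + 1)) ^ 2 := Nat.pow_le_pow_left h5 2
      _ = n ^ (2 * (k + 1)) := by rw [← pow_mul]; ring_nf
      _ < 2 ^ (n / 100) := hpow
      _ ≤ _ := hlow
  obtain ⟨t, hkt, hts, hB1, hB2⟩ := exists_t hA1 hsmall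
  have hD8 : n ^ 8 ≤ n.choose s := by
    calc n ^ 8 ≤ n ^ (2 * (k + 1)) := Nat.pow_le_pow_right hn1 (by omega)
      _ ≤ 2 ^ (n / 100) := hpow.le
      _ ≤ _ := hlow
  have hUs := UU_density (H := H) hkn hG hGH (t := s) (by omega) hsn
  have hUt := UU_density (H := H) hkn hG hGH (t := t) hkt (by omega)
  set Us := (UU k G H s).card with hUsdef
  set Ut := (UU k G H t).card with hUtdef
  have hUtle : Ut ≤ 2 ^ n := by
    have h5 : Ut ≤ (Finset.powersetCard t (univ : Finset (Fin n))).card := by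
      rw [hUtdef]; unfold UU; exact Finset.card_filter_le _ _
    rw [Finset.card_powersetCard, Finset.card_univ, Fintype.card_fin] at h5
    exact h5.trans (Nat.choose_le_two_pow n t)
  -- real quantities
  set A : ℝ := (n.choose s : ℝ) with hA
  set B : ℝ := (n.choose t : ℝ) with hB
  have hnr : (200000 : ℝ) ≤ n := by exact_mod_cast hn
  have hApos : 0 < A := by rw [hA]; exact_mod_cast (by omega : 0 < n.choose s)
  have hBpos : 0 < B := by rw [hB]; exact_mod_cast Nat.choose_pos (by omega)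
  set R : ℝ := (n - t).choose (s - t) / (8 * (s + 1) * s.choose t) with hR
  have hReq : R = A / (8 * (s + 1) * B) := by
    have h5 : n.choose s * s.choose t = n.choose t * (n - t).choose (s - t) := Nat.choose_mul hts
    have h6 : A * s.choose t = B * (n - t).choose (s - t) := by
      rw [hA, hB]; exact_mod_cast h5
    have h7 : (0 : ℝ) < s.choose t := by exact_mod_cast Nat.choose_pos hts
    have h8 : (0 : ℝ) < (s : ℝ) + 1 := by positivity
    rw [hR, div_eq_div_iff (by positivity) (by positivity)]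
    linear_combination (-8 * ((s : ℝ) + 1)) * h6
  have hA8 : (n : ℝ) ^ 8 ≤ A := by rw [hA]; exact_mod_cast hD8
  have hB1r : A ≤ B ^ 2 := by rw [hA, hB]; exact_mod_cast hB1
  have hB2r : B ^ 2 ≤ n ^ 2 * A := by rw [hA, hB]; exact_mod_cast hB2
  have hsr : (s : ℝ) ≤ n := by exact_mod_cast hsn
  have hR1 : 1 ≤ R := by
    rw [hReq, le_div_iff₀ (by positivity), one_mul]
    have h5 : (8 * ((s : ℝ) + 1) * B) ^ 2 ≤ A ^ 2 := by
      have h6 : 8 * ((s : ℝ) + 1) ≤ 16 * n := by linarith
      calc (8 * ((s : ℝ) + 1) * B) ^ 2 = (8 * ((s : ℝ) + 1)) ^ 2 * B ^ 2 := by ring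
        _ ≤ (16 * n) ^ 2 * (n ^ 2 * A) := by
            apply mul_le_mul _ hB2r (by positivity) (by positivity)
            exact pow_le_pow_left₀ (by positivity) h6 2
        _ = (256 * n ^ 4) * A := by ring
        _ ≤ n ^ 8 * A := by
            apply mul_le_mul_of_nonneg_right _ hApos.le
            have : (256 : ℝ) ≤ n ^ 4 := by
              calc (256 : ℝ) ≤ 200000 ^ 4 := by norm_num
                _ ≤ n ^ 4 := pow_le_pow_left₀ (by norm_num) hnr 4
            calc 256 * (n : ℝ) ^ 4 ≤ n ^ 4 * n ^ 4 :=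
                  mul_le_mul_of_nonneg_right this (by positivity)
              _ = _ := by ring
        _ ≤ A * A := mul_le_mul_of_nonneg_right hA8 hApos.le
        _ = _ := by ring
    exact le_of_sq_le_sq h5 hApos.le
  set K₁ := Us / 8 with hK₁
  set L := ⌊R⌋₊ with hL
  have hL1 : 1 ≤ L := by rw [hL]; exact Nat.le_floor (by exact_mod_cast hR1)
  have hLR : (L : ℝ) ≤ R := Nat.floor_le (by linarith)
  have hLlow : R / 2 ≤ L := by
    have h5 : R < L + 1 := Nat.lt_floor_add_one R
    have h6 : (1 : ℝ) ≤ L := by exact_mod_cast hL1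
    linarith
  have hK1r : (K₁ : ℝ) ≤ (Us : ℝ) / 8 := by
    have := Nat.cast_div_le (α := ℝ) (m := Us) (n := 8)
    exact_mod_cast this
  have hK2r : (Us : ℝ) / 8 ≤ K₁ + 1 := by
    have : Us < 8 * (Us / 8 + 1) := by omega
    have h5 : (Us : ℝ) < 8 * ((K₁ : ℝ) + 1) := by exact_mod_cast this
    linarith
  have hcount := level_count (k := k) (t := t) G H (by omega : t < s + 1) K₁ L hK1r (by omega) hLR c
  refine hcount.trans ?_
  apply mul_le_mul_of_nonneg_left _ (by positivity)
  unfold qG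
  have hfin := level_real hn1 (A := A) (B := B) (Us := Us) (Ut := Ut) (R := R) (s := s) K₁ L
    hsr (by positivity)
    (by
      refine le_trans ?_ hA8
      have h5 : 16 * (n : ℝ) ^ 2 * (2 * n + 1) ≤ n ^ 4 := by
        have h6 : (16 : ℝ) * (2 * n + 1) ≤ n ^ 2 := by nlinarith
        calc 16 * (n : ℝ) ^ 2 * (2 * (n : ℝ) + 1) = (n : ℝ) ^ 2 * (16 * (2 * (n : ℝ) + 1)) := by
              ring
          _ ≤ (n : ℝ) ^ 2 * (n : ℝ) ^ 2 := mul_le_mul_of_nonneg_left h6 (by positivity)
          _ = _ := by ring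
      calc (16 * (n : ℝ) ^ 2 * (2 * n + 1)) ^ 2 ≤ (n ^ 4) ^ 2 :=
            pow_le_pow_left₀ (by positivity) h5 2
        _ = _ := by ring)
    (by rw [hA]; exact_mod_cast Nat.choose_le_two_pow n s)
    hB1r hB2r hBpos.le
    (by rw [hA]; exact_mod_cast hUs)
    (by rw [hB]; exact_mod_cast hUt)
    (by exact_mod_cast hUtle)
    hReq hK2r hLlow
  exact hfin

/-- the exponent -/
lemma exponent_bound {n : ℕ} (h : BaseN n) :
    (n : ℝ) ^ 2 / 2 * Real.log 2 + (n + 1) * (10 + 4 * Real.log n) -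
      3 / 4 * ((n : ℝ) * (n - 1) / 2 - n * Real.log n - (n / 50 + 2) * (n * Real.log 2))
      ≤ -(n / 100) := by
  obtain ⟨hn1, hb⟩ := h
  obtain ⟨hn, _⟩ := pow_lt_of_base hn1 hb
  have hnr : (200000 : ℝ) ≤ n := by exact_mod_cast hn
  have hl2 : Real.log 2 < 0.6931471808 := Real.log_two_lt_d9
  have hl2' : 0.6931471803 < Real.log 2 := Real.log_two_gt_d9
  have hlog : 0 ≤ Real.log n := Real.log_nonneg (by linarith)
  have hsq : 0 ≤ Real.sqrt n := Real.sqrt_nonneg _
  have h1 : 200000 * (Real.log n + 1) ≤ n := by nlinarith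
  have h2 : (n : ℝ) * (200000 * (Real.log n + 1)) ≤ n * n :=
    mul_le_mul_of_nonneg_left h1 (by linarith)
  have h3 : (n : ℝ) ^ 2 * Real.log 2 ≤ n ^ 2 * 0.6931471808 :=
    mul_le_mul_of_nonneg_left hl2.le (by positivity)
  have h4 : (n : ℝ) * Real.log 2 ≤ n * 0.6931471808 :=
    mul_le_mul_of_nonneg_left hl2.le (by positivity)
  have h5 : (n : ℝ) ≤ n ^ 2 / 200000 := by
    rw [le_div_iff₀ (by norm_num)]; nlinarith
  have h6 : Real.log n ≤ n / 200000 := by linarith
  have h7 : (n : ℝ) * Real.log n ≤ n ^ 2 / 200000 := by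
    have := mul_le_mul_of_nonneg_left h6 (by linarith : (0 : ℝ) ≤ n)
    linarith [sq (n : ℝ)]
  nlinarith

lemma factor_bound {n s : ℕ} (ha : AdmG n s) :
    (100 * (s : ℝ) + 1) * qG n s ≤
      Real.exp (10 + 4 * Real.log n - 3 / 4 * Real.log (n.choose s)) := by
  obtain ⟨_, hsn, _⟩ := admG_bounds n s ha
  have hn1 := ha.1.1
  have hnr : (1 : ℝ) ≤ n := by exact_mod_cast hn1
  have hsr : (s : ℝ) ≤ n := by exact_mod_cast hsn
  unfold qG
  have h1 : (100 * (s : ℝ) + 1) * (81 * (n : ℝ) ^ 3) ≤ Real.exp (10 + 4 * Real.log n) := by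
    have h2 : Real.exp (10 + 4 * Real.log n) = Real.exp 10 * n ^ 4 := by
      rw [Real.exp_add]
      congr 1
      have : (4 : ℝ) * Real.log n = ((4 : ℕ) : ℝ) * Real.log n := by norm_num
      rw [this, Real.exp_nat_mul, Real.exp_log (by linarith)]
    have h3 : (8181 : ℝ) ≤ Real.exp 10 := by
      have h4 : (2.7 : ℝ) ≤ Real.exp 1 := by
        have := Real.exp_one_gt_d9; linarith
      have h5 : Real.exp 10 = (Real.exp 1) ^ 10 := by
        rw [← Real.exp_nat_mul]; norm_num
      rw [h5]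
      calc (8181 : ℝ) ≤ 2.7 ^ 10 := by norm_num
        _ ≤ _ := pow_le_pow_left₀ (by norm_num) h4 10
    rw [h2]
    calc (100 * (s : ℝ) + 1) * (81 * (n : ℝ) ^ 3) ≤ (101 * (n : ℝ)) * (81 * (n : ℝ) ^ 3) := by
          apply mul_le_mul_of_nonneg_right _ (by positivity)
          linarith
      _ = 8181 * (n : ℝ) ^ 4 := by ring
      _ ≤ _ := mul_le_mul_of_nonneg_right h3 (by positivity)
  calc (100 * (s : ℝ) + 1) * (81 * (n : ℝ) ^ 3 * Real.exp (-(3 / 4 * Real.log (n.choose s))))
      = ((100 * (s : ℝ) + 1) * (81 * (n : ℝ) ^ 3)) *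
          Real.exp (-(3 / 4 * Real.log (n.choose s))) := by ring
    _ ≤ Real.exp (10 + 4 * Real.log n) * Real.exp (-(3 / 4 * Real.log (n.choose s))) :=
        mul_le_mul_of_nonneg_right h1 (Real.exp_pos _).le
    _ = _ := by rw [← Real.exp_add]; ring_nf

open Classical in
lemma prod_small {n : ℕ} (h : BaseN n) :
    (2 : ℝ) ^ (n.choose 2) *
      ∏ s ∈ (range (n + 1)).filter (AdmG n), ((100 * (s : ℝ) + 1) * qG n s)
      ≤ Real.exp (-(n / 100)) := by
  set A := (range (n + 1)).filter (AdmG n) with hA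
  have hAiff : ∀ s, s ∈ A ↔ (n ≤ 100 * s ∧ 100 * s ≤ 99 * n) := by
    intro s
    rw [hA, mem_filter, mem_range]
    constructor
    · rintro ⟨_, h1⟩; exact h1.2
    · rintro ⟨h1, h2⟩; exact ⟨by omega, h, h1, h2⟩
  have h1 : ∏ s ∈ A, ((100 * (s : ℝ) + 1) * qG n s) ≤
      Real.exp (∑ s ∈ A, (10 + 4 * Real.log n - 3 / 4 * Real.log (n.choose s))) := by
    rw [Real.exp_sum]
    apply Finset.prod_le_prod
    · intro s hs
      have := qG_pos n s (mem_filter.1 hs).2
      positivity
    · intro s hs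
      exact factor_bound (mem_filter.1 hs).2
  have hn1 := h.1
  have hnr : (1 : ℝ) ≤ n := by exact_mod_cast hn1
  have hlog : 0 ≤ Real.log n := Real.log_nonneg hnr
  have h2 : ∑ s ∈ A, (10 + 4 * Real.log n - 3 / 4 * Real.log (n.choose s)) ≤
      (n + 1) * (10 + 4 * Real.log n) -
      3 / 4 * ((n : ℝ) * (n - 1) / 2 - n * Real.log n - (n / 50 + 2) * (n * Real.log 2)) := by
    rw [Finset.sum_sub_distrib, Finset.sum_const, nsmul_eq_mul, ← Finset.mul_sum]
    have h3 := sum_log_middle n A hAiff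
    have h4 : (A.card : ℝ) ≤ n + 1 := by
      have : A.card ≤ (range (n + 1)).card := Finset.card_filter_le _ _
      rw [card_range] at this
      exact_mod_cast this
    have h5 := mul_le_mul_of_nonneg_right h4 (by linarith : 0 ≤ 10 + 4 * Real.log n)
    linarith
  have h6 : (2 : ℝ) ^ (n.choose 2) ≤ Real.exp ((n : ℝ) ^ 2 / 2 * Real.log 2) := by
    have h7 : (2 : ℝ) ^ (n.choose 2) = Real.exp ((n.choose 2 : ℕ) * Real.log 2) := by
      rw [Real.exp_nat_mul, Real.exp_log (by norm_num)]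
    rw [h7]
    apply Real.exp_le_exp.2
    apply mul_le_mul_of_nonneg_right _ (Real.log_nonneg (by norm_num))
    have h8 : n.choose 2 * 2 ≤ n ^ 2 := by
      rw [Nat.choose_two_right]
      have h9 : n * (n - 1) / 2 * 2 ≤ n * (n - 1) := Nat.div_mul_le_self _ _
      have h10 : n * (n - 1) ≤ n * n := Nat.mul_le_mul_left _ (Nat.sub_le _ _)
      nlinarith
    have h9 : ((n.choose 2 : ℕ) : ℝ) * 2 ≤ (n : ℝ) ^ 2 := by exact_mod_cast h8
    linarith
  calc _ ≤ Real.exp ((n : ℝ) ^ 2 / 2 * Real.log 2) *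
        Real.exp (∑ s ∈ A, (10 + 4 * Real.log n - 3 / 4 * Real.log (n.choose s))) := by
        apply mul_le_mul h6 h1 _ (Real.exp_pos _).le
        apply Finset.prod_nonneg
        intro s hs
        have := qG_pos n s (mem_filter.1 hs).2
        positivity
    _ = Real.exp ((n : ℝ) ^ 2 / 2 * Real.log 2 +
        ∑ s ∈ A, (10 + 4 * Real.log n - 3 / 4 * Real.log (n.choose s))) := by
        rw [← Real.exp_add]
    _ ≤ _ := by
        apply Real.exp_le_exp.2
        have := exponent_bound h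
        linarith

/-- graphs which are not unique and typical are counted by `DD` -/
lemma nonunique_subset (X : Lev) (hX : ∀ F, X 1 F) {n : ℕ} (G : SimpleGraph (Fin n))
    (hG : TypG n G) (hnu : ¬ IsUnique (prop X) G) :
    ∃ H : SimpleGraph (Fin n), (G, H) ∈ DD TypG AdmG n X (n + 1) := by
  unfold IsUnique at hnu
  push Not at hnu
  obtain ⟨W, iW, dW, H, hH, hne⟩ := hnu
  have hP : ∀ (V : Type) [Finite V] (G : SimpleGraph V), Nat.card V = 1 → (prop X).Mem G := by
    intro V _ G hV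
    rw [prop_mem, hV]
    exact hX _
  have hc := card_of_harary (prop X) hP H G hH
  rw [Fintype.card_fin] at hc
  have e : W ≃ Fin n := Fintype.equivFinOfCardEq hc
  set H' : SimpleGraph (Fin n) := H.comap e.symm with hH'
  have eH : H' ≃g H := SimpleGraph.Iso.comap e.symm H
  refine ⟨H', ?_⟩
  rw [mem_DD]
  refine ⟨hG, ?_, ?_⟩
  · rw [← not_nonempty_iff]
    rintro ⟨f⟩
    exact hne.false (f.trans eH).symm
  · intro r _ _
    simp only
    rw [hNum_iso (prop X) eH]
    exact (hNum_of_harary (prop X) H G hH _).symm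

/-- **Main theorem.** -/
theorem main : ∃ P : GraphProperty, Tendsto (fun n : ℕ =>
    (Nat.card {G : SimpleGraph (Fin n) // IsUnique P G} : ℝ) / 2 ^ (n.choose 2)) atTop (𝓝 1) := by
  classical
  obtain ⟨X, hX1, hX⟩ := exists_lev (Typ := TypG) (Adm := AdmG) (q := qG) admG_bounds
    (fun X hX s hs => step admG_bounds qG_pos (fun n s ha G H hG hGH c =>
      level_bound n s ha G H hG hGH c) X hX hs)
  refine ⟨prop X, ?_⟩
  set err : ℕ → ℝ := fun n => 8 * ((((1 + (n : ℝ) / 2 ^ ((Nat.sqrt n - 4) / 9)) ^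
    (Nat.sqrt n) - 1) + (n : ℝ) ^ 2 / 2 ^ (Nat.sqrt n))) + Real.exp (-(n / 100)) with herr
  have hlim : Tendsto (fun n => 1 - err n) atTop (𝓝 1) := by
    have h1 := ratio_tendsto.const_mul 8
    have h2 : Tendsto (fun n : ℕ => Real.exp (-((n : ℝ) / 100))) atTop (𝓝 0) := by
      apply Real.tendsto_exp_neg_atTop_nhds_zero.comp
      exact tendsto_natCast_atTop_atTop.atTop_div_const (by norm_num)
    have h3 := (h1.add h2).const_sub 1
    simpa [herr] using h3
  have hbase : ∀ᶠ n : ℕ in atTop, BaseN n := by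
    filter_upwards [ev_base, eventually_ge_atTop 1] with n h1 h2
    exact ⟨h2, h1⟩
  refine tendsto_of_tendsto_of_tendsto_of_le_of_le' hlim tendsto_const_nhds ?_ ?_
  · filter_upwards [hbase] with n hn
    obtain ⟨hn2, _⟩ := pow_lt_of_base hn.1 hn.2
    set NU := (univ : Finset (SimpleGraph (Fin n))).filter (fun G => ¬ IsUnique (prop X) G)
      with hNU
    set UQ := (univ : Finset (SimpleGraph (Fin n))).filter (fun G => IsUnique (prop X) G)
      with hUQ
    have hUQc : Nat.card {G : SimpleGraph (Fin n) // IsUnique (prop X) G} = UQ.card := by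
      rw [Nat.card_eq_fintype_card, Fintype.card_subtype]
    have hsum : UQ.card + NU.card = 2 ^ n.choose 2 := by
      rw [hUQ, hNU, Finset.card_filter_add_card_filter_not, Finset.card_univ, card_graphs]
    -- nonunique graphs
    have hsub : NU ⊆ ((univ : Finset (SimpleGraph (Fin n))).filter
        (fun G => ¬ (7 * n.choose (Nat.sqrt n) ≤ 8 * (bases (Nat.sqrt n) G).card))) ∪
        (DD TypG AdmG n X (n + 1)).image Prod.fst := by
      intro G hG
      rw [hNU, mem_filter] at hG
      rw [mem_union, mem_filter]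
      by_cases hT : TypG n G
      · right
        obtain ⟨H, hH⟩ := nonunique_subset X hX1 G hT hG.2
        exact Finset.mem_image.2 ⟨(G, H), hH, rfl⟩
      · left
        exact ⟨mem_univ _, hT⟩
    have hNUc : (NU.card : ℝ) ≤
        (((univ : Finset (SimpleGraph (Fin n))).filter
        (fun G => ¬ (7 * n.choose (Nat.sqrt n) ≤ 8 * (bases (Nat.sqrt n) G).card))).card : ℝ) +
        ((DD TypG AdmG n X (n + 1)).card : ℝ) := by
      have h1 := (Finset.card_le_card hsub).trans (Finset.card_union_le _ _)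
      have h2 : ((DD TypG AdmG n X (n + 1)).image Prod.fst).card ≤
        (DD TypG AdmG n X (n + 1)).card := Finset.card_image_le
      exact_mod_cast h1.trans (Nat.add_le_add_left h2 _)
    have hat := count_atypical (n := n) (Nat.sqrt n) (Nat.sqrt_le_self n)
    have hDD := prod_bound (Typ := TypG) (Adm := AdmG) (q := qG) qG_pos X n
      (fun s ha => hX n s ha) (n + 1)
    rw [card_graphs] at hat hDD
    push_cast at hat hDD
    have hps := prod_small hn
    set Nn : ℝ := (2 : ℝ) ^ n.choose 2 with hNn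
    have hNpos : 0 < Nn := by positivity
    have hDD2 : ((DD TypG AdmG n X (n + 1)).card : ℝ) ≤ Nn * Real.exp (-(n / 100)) := by
      refine hDD.trans ?_
      calc (∏ s ∈ (range (n + 1)).filter (AdmG n), ((100 * (s : ℝ) + 1) * qG n s)) * Nn ^ 2
          = Nn * (Nn * ∏ s ∈ (range (n + 1)).filter (AdmG n), ((100 * (s : ℝ) + 1) * qG n s)) := by
            ring
        _ ≤ _ := mul_le_mul_of_nonneg_left hps hNpos.le
    have htot : (NU.card : ℝ) ≤ Nn * err n := by
      simp only [herr]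
      linarith
    rw [hUQc]
    have hsum' : (UQ.card : ℝ) + NU.card = Nn := by
      rw [hNn]; exact_mod_cast hsum
    rw [le_div_iff₀ hNpos]
    linarith
  · filter_upwards with n
    have h1 : Nat.card {G : SimpleGraph (Fin n) // IsUnique (prop X) G} ≤ 2 ^ n.choose 2 := by
      rw [← card_graphs n, ← Nat.card_eq_fintype_card]
      exact Nat.card_le_card_of_injective _ Subtype.val_injective
    rw [div_le_one (by positivity)]
    exact_mod_cast h1

end Pool.Agent.R54.HP
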