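import Mathlib

/-! Small ball probabilities for sums of independent bits on two scales. -/

namespace Pool.Agent.R54.HP

open Finset

/-- Littlewood and Offord through Sperner's theorem. -/
lemma lo_card {ι : Type*} [Fintype ι] [DecidableEq ι] (M : ι → ℤ) (L : ℤ)
    (hM : ∀ i, L ≤ M i) (hL : 0 < L) (a : ℤ) :
    ((univ : Finset (Finset ι)).filter
      (fun A => a ≤ ∑ i ∈ A, M i ∧ ∑ i ∈ A, M i < a + L)).card
      ≤ (Fintype.card ι).choose (Fintype.card ι / 2) := by
  apply IsAntichain.sperner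
  intro A hA B hB hne hsub
  simp only [coe_filter, mem_univ, true_and, Set.mem_ofPred_eq] at hA hB
  have hss : A ⊂ B := lt_of_le_of_ne hsub hne
  obtain ⟨x, hxB, hxA⟩ := Finset.exists_of_ssubset hss
  have h1 : ∑ i ∈ A, M i + M x ≤ ∑ i ∈ B, M i := by
    have : insert x A ⊆ B := by
      intro y hy
      rcases Finset.mem_insert.1 hy with h | h
      · rw [h]; exact hxB
      · exact hsub h
    calc ∑ i ∈ A, M i + M x = ∑ i ∈ insert x A, M i := by
          rw [Finset.sum_insert hxA]; ring
      _ ≤ ∑ i ∈ B, M i := Finset.sum_le_sum_of_subset_of_nonneg this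
          (fun i _ _ => le_trans hL.le (hM i))
  have h2 := hM x
  linarith [hA.1, hB.2]

/-- The same for subsets of a finite set. -/
lemma lo_card' {ι : Type*} [DecidableEq ι] (I : Finset ι) (M : ι → ℤ) (L : ℤ)
    (hM : ∀ i ∈ I, L ≤ M i) (hL : 0 < L) (a : ℤ) :
    (I.powerset.filter
      (fun A => a ≤ ∑ i ∈ A, M i ∧ ∑ i ∈ A, M i < a + L)).card
      ≤ I.card.choose (I.card / 2) := by
  have h := lo_card (ι := I) (fun i => M i) L (fun i => hM i i.2) hL a
  rw [Fintype.card_coe] at h
  refine le_trans ?_ h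
  refine Finset.card_le_card_of_injOn (fun A => A.subtype (· ∈ I)) ?_ ?_
  · intro A hA
    simp only [coe_filter, mem_powerset, Set.mem_ofPred_eq] at hA
    have hs : ∑ i ∈ A.subtype (· ∈ I), M i = ∑ i ∈ A, M i := by
      rw [← Finset.sum_subtype_of_mem (p := (· ∈ I)) M (fun x hx => hA.1 hx)]
    simp only [coe_filter, mem_univ, true_and, Set.mem_ofPred_eq]
    rw [hs]; exact hA.2
  · intro A hA B hB hAB
    simp only [coe_filter, mem_powerset, Set.mem_ofPred_eq] at hA hB
    have h1 := Finset.subtype_map_of_mem (p := (· ∈ I)) (s := A) (fun x hx => hA.1 hx)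
    have h2 := Finset.subtype_map_of_mem (p := (· ∈ I)) (s := B) (fun x hx => hB.1 hx)
    simp only at hAB
    rw [← h1, ← h2, hAB]

lemma choose_succ_le_of_half_le {N x : ℕ} (h : N / 2 ≤ x) : N.choose (x + 1) ≤ N.choose x := by
  have h1 := Nat.choose_succ_right_eq N x
  have h2 : N - x ≤ x + 1 := by omega
  have h3 : N.choose (x + 1) * (x + 1) ≤ N.choose x * (x + 1) := by
    rw [h1]; exact Nat.mul_le_mul_left _ h2
  exact Nat.le_of_mul_le_mul_right h3 (Nat.succ_pos x)

/-- Total variation of the binomial coefficients. -/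
lemma tv_choose (N X : ℕ) :
    ∑ x ∈ range X, |((N.choose (x + 1) : ℤ)) - N.choose x| ≤ 2 * N.choose (N / 2) := by
  -- split at N / 2
  have key : ∀ X : ℕ, X ≤ N / 2 →
      ∑ x ∈ range X, |((N.choose (x + 1) : ℤ)) - N.choose x| = N.choose X - N.choose 0 := by
    intro X hX
    rw [← Finset.sum_range_sub (fun x => (N.choose x : ℤ)) X]
    refine Finset.sum_congr rfl fun x hx => ?_
    rw [abs_of_nonneg]
    have : N.choose x ≤ N.choose (x + 1) :=
      Nat.choose_le_succ_of_lt_half_left (lt_of_lt_of_le (mem_range.1 hx) hX)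
    have : (N.choose x : ℤ) ≤ N.choose (x + 1) := by exact_mod_cast this
    linarith
  have key2 : ∀ X : ℕ, N / 2 ≤ X →
      ∑ x ∈ range X, |((N.choose (x + 1) : ℤ)) - N.choose x|
        = 2 * N.choose (N / 2) - N.choose 0 - N.choose X := by
    intro X hX
    induction X, hX using Nat.le_induction with
    | base => rw [key _ le_rfl]; ring
    | succ X hX ih =>
      rw [Finset.sum_range_succ, ih, abs_of_nonpos]
      · ring
      · have : N.choose (X + 1) ≤ N.choose X := choose_succ_le_of_half_le hX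
        have : (N.choose (X + 1) : ℤ) ≤ N.choose X := by exact_mod_cast this
        linarith
  rcases le_total X (N / 2) with h | h
  · rw [key X h]
    have h1 : N.choose X ≤ N.choose (N / 2) := Nat.choose_le_middle X N
    have h1 : (N.choose X : ℤ) ≤ N.choose (N / 2) := by exact_mod_cast h1
    have h2 : (0 : ℤ) ≤ N.choose 0 := by positivity
    have h3 : (0 : ℤ) ≤ N.choose (N / 2) := by positivity
    linarith
  · rw [key2 X h]
    have h2 : (0 : ℤ) ≤ N.choose 0 := by positivity
    have h3 : (0 : ℤ) ≤ N.choose X := by positivity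
    linarith

/-- variation between two points -/
lemma abs_sub_le_tv (f : ℕ → ℤ) {a b c d : ℕ} (hca : c ≤ a) (hab : a ≤ b) (hbd : b ≤ d) :
    |f b - f a| ≤ ∑ x ∈ Ico c d, |f (x + 1) - f x| := by
  have h1 : f b - f a = ∑ x ∈ Ico a b, (f (x + 1) - f x) := by
    rw [Finset.sum_Ico_sub f hab]
  rw [h1]
  refine (Finset.abs_sum_le_sum_abs _ _).trans ?_
  exact Finset.sum_le_sum_of_subset_of_nonneg (Finset.Ico_subset_Ico hca hbd)
    (fun _ _ _ => abs_nonneg _)

/-- Sum of a function against weights with bounded window sums. -/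
lemma window_sum (N L : ℕ) (hL : 0 < L) (r : ℕ → ℤ) (hr0 : ∀ b, 0 ≤ r b) (S : ℤ)
    (hS : ∀ j, ∑ b ∈ Ico (j * L) ((j + 1) * L), r b ≤ S) :
    (L : ℤ) * ∑ b ∈ range (N + 1), (N.choose b : ℤ) * r b
      ≤ S * (2 ^ N + 2 * L * N.choose (N / 2)) := by
  set f : ℕ → ℤ := fun b => (N.choose b : ℤ) with hf
  have hS0 : 0 ≤ S := le_trans (Finset.sum_nonneg fun b _ => hr0 b) (hS 0)
  set TV : ℕ → ℤ := fun j => ∑ x ∈ Ico (j * L) ((j + 1) * L), |f (x + 1) - f x| with hTV
  -- one window
  have hw : ∀ j, (L : ℤ) * ∑ b ∈ Ico (j * L) ((j + 1) * L), f b * r b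
      ≤ S * (∑ b ∈ Ico (j * L) ((j + 1) * L), f b + L * TV j) := by
    intro j
    have hcard : (Ico (j * L) ((j + 1) * L)).card = L := by
      rw [Nat.card_Ico]; rw [Nat.add_mul, one_mul]; omega
    have hb : ∀ b ∈ Ico (j * L) ((j + 1) * L),
        (L : ℤ) * f b ≤ ∑ b' ∈ Ico (j * L) ((j + 1) * L), f b' + L * TV j := by
      intro b hb
      have : ∀ b' ∈ Ico (j * L) ((j + 1) * L), f b ≤ f b' + TV j := by
        intro b' hb'
        rw [mem_Ico] at hb hb'
        rcases le_total b b' with h | h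
        · have := abs_sub_le_tv f (a := b) (b := b') (c := j * L) (d := (j + 1) * L)
            hb.1 h hb'.2.le
          have h2 := neg_abs_le (f b' - f b)
          simp only [hTV]
          linarith
        · have := abs_sub_le_tv f (a := b') (b := b) (c := j * L) (d := (j + 1) * L)
            hb'.1 h hb.2.le
          have h2 := le_abs_self (f b - f b')
          simp only [hTV]
          linarith
      calc (L : ℤ) * f b = ∑ b' ∈ Ico (j * L) ((j + 1) * L), f b := by
            rw [Finset.sum_const, hcard, nsmul_eq_mul]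
        _ ≤ ∑ b' ∈ Ico (j * L) ((j + 1) * L), (f b' + TV j) := Finset.sum_le_sum this
        _ = _ := by rw [Finset.sum_add_distrib, Finset.sum_const, hcard, nsmul_eq_mul]
    set Q : ℤ := ∑ b' ∈ Ico (j * L) ((j + 1) * L), f b' + L * TV j with hQ
    have hQ0 : 0 ≤ Q := by
      apply add_nonneg
      · exact Finset.sum_nonneg fun b _ => by simp [hf]
      · apply mul_nonneg (by positivity)
        exact Finset.sum_nonneg fun x _ => abs_nonneg _
    calc (L : ℤ) * ∑ b ∈ Ico (j * L) ((j + 1) * L), f b * r b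
        = ∑ b ∈ Ico (j * L) ((j + 1) * L), (L * f b) * r b := by
          rw [Finset.mul_sum]; exact Finset.sum_congr rfl fun b _ => by ring
      _ ≤ ∑ b ∈ Ico (j * L) ((j + 1) * L), Q * r b :=
          Finset.sum_le_sum fun b hb' => mul_le_mul_of_nonneg_right (hb b hb') (hr0 b)
      _ = Q * ∑ b ∈ Ico (j * L) ((j + 1) * L), r b := by rw [Finset.mul_sum]
      _ ≤ Q * S := mul_le_mul_of_nonneg_left (hS j) hQ0
      _ = S * Q := by ring
  -- sum over windows
  have hsum : ∀ (g : ℕ → ℤ) (J : ℕ), ∑ j ∈ range J, ∑ b ∈ Ico (j * L) ((j + 1) * L), g b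
      = ∑ b ∈ range (J * L), g b := by
    intro g J
    induction J with
    | zero => simp
    | succ J ih =>
      rw [Finset.sum_range_succ, ih, Finset.range_eq_Ico, Finset.range_eq_Ico,
        Finset.sum_Ico_consecutive g (Nat.zero_le _) (Nat.mul_le_mul_right _ (Nat.le_succ J))]
  set J := N + 1 with hJ
  have hJL : N + 1 ≤ J * L := by rw [hJ]; exact Nat.le_mul_of_pos_right _ hL
  have hext : ∑ b ∈ range (N + 1), f b * r b = ∑ b ∈ range (J * L), f b * r b := by
    apply Finset.sum_subset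
    · intro x hx; rw [mem_range] at *; omega
    · intro x _ hx
      rw [mem_range] at hx
      simp only [hf]
      rw [Nat.choose_eq_zero_of_lt (by omega)]; simp
  have hext2 : ∑ b ∈ range (J * L), f b = 2 ^ N := by
    rw [← Finset.sum_subset (s₁ := range (N + 1))]
    · have := Nat.sum_range_choose N
      simp only [hf]
      exact_mod_cast this
    · intro x hx; rw [mem_range] at *; omega
    · intro x _ hx
      rw [mem_range] at hx
      simp only [hf]
      rw [Nat.choose_eq_zero_of_lt (by omega)]; simp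
  calc (L : ℤ) * ∑ b ∈ range (N + 1), f b * r b
      = ∑ j ∈ range J, (L : ℤ) * ∑ b ∈ Ico (j * L) ((j + 1) * L), f b * r b := by
        rw [hext, ← hsum, Finset.mul_sum]
    _ ≤ ∑ j ∈ range J, S * (∑ b ∈ Ico (j * L) ((j + 1) * L), f b + L * TV j) :=
        Finset.sum_le_sum fun j _ => hw j
    _ = S * (2 ^ N + L * ∑ x ∈ range (J * L), |f (x + 1) - f x|) := by
        rw [← Finset.mul_sum, Finset.sum_add_distrib, hsum, hext2, ← Finset.mul_sum, hTV, hsum]
    _ ≤ S * (2 ^ N + 2 * L * N.choose (N / 2)) := by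
        apply mul_le_mul_of_nonneg_left _ hS0
        have := tv_choose N (J * L)
        have h2 : (L : ℤ) * ∑ x ∈ range (J * L), |f (x + 1) - f x| ≤
            L * (2 * N.choose (N / 2)) := mul_le_mul_of_nonneg_left this (by positivity)
        linarith

/-- Pairs of sets with a prescribed value of `|A| + ∑_{B} M`. -/
lemma pair_card {ι : Type*} [DecidableEq ι] (I₁ I₂ : Finset ι) (M : ι → ℤ) (L : ℕ) (hL : 0 < L)
    (hM : ∀ i ∈ I₂, (L : ℤ) ≤ M i) (c : ℤ) :
    (L : ℤ) * (((I₁.powerset ×ˢ I₂.powerset).filter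
      (fun p => (p.1.card : ℤ) + ∑ i ∈ p.2, M i = c)).card : ℤ)
      ≤ (I₂.card.choose (I₂.card / 2) : ℤ) *
        (2 ^ I₁.card + 2 * L * I₁.card.choose (I₁.card / 2)) := by
  set r : ℕ → ℤ := fun b => ((I₂.powerset.filter (fun B => ∑ i ∈ B, M i = c - b)).card : ℤ)
    with hr
  have h1 : (((I₁.powerset ×ˢ I₂.powerset).filter
      (fun p => (p.1.card : ℤ) + ∑ i ∈ p.2, M i = c)).card : ℤ)
      = ∑ b ∈ range (I₁.card + 1), (I₁.card.choose b : ℤ) * r b := by
    have h2 : ((I₁.powerset ×ˢ I₂.powerset).filter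
        (fun p => (p.1.card : ℤ) + ∑ i ∈ p.2, M i = c)).card
        = ∑ b ∈ range (I₁.card + 1), (((I₁.powerset ×ˢ I₂.powerset).filter
        (fun p => (p.1.card : ℤ) + ∑ i ∈ p.2, M i = c)).filter (fun p => p.1.card = b)).card := by
      apply Finset.card_eq_sum_card_fiberwise
      intro p hp
      simp only [coe_filter, mem_product, mem_powerset, Set.mem_ofPred_eq] at hp
      simp only [coe_range, Set.mem_Iio]
      exact Nat.lt_succ_of_le (Finset.card_le_card hp.1.1)
    rw [h2]
    push_cast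
    refine Finset.sum_congr rfl fun b _ => ?_
    have h3 : ((I₁.powerset ×ˢ I₂.powerset).filter
        (fun p => (p.1.card : ℤ) + ∑ i ∈ p.2, M i = c)).filter (fun p => p.1.card = b)
        = (I₁.powersetCard b) ×ˢ (I₂.powerset.filter (fun B => ∑ i ∈ B, M i = c - b)) := by
      ext p
      simp only [mem_filter, mem_product, mem_powerset, mem_powersetCard]
      constructor
      · rintro ⟨⟨⟨h1, h2⟩, h3⟩, h4⟩
        refine ⟨⟨h1, h4⟩, h2, ?_⟩
        rw [← h4]; linarith
      · rintro ⟨⟨h1, h4⟩, h2, h3⟩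
        refine ⟨⟨⟨h1, h2⟩, ?_⟩, h4⟩
        rw [h4]; linarith
    rw [h3, Finset.card_product, Finset.card_powersetCard]
    push_cast
    rfl
  rw [h1]
  apply window_sum _ _ hL
  · intro b; simp only [hr]; positivity
  · intro j
    -- the windows
    have h4 := lo_card' I₂ M (L : ℤ) hM (by exact_mod_cast hL) (c - ((j + 1) * L : ℕ) + 1)
    have h5 : ∑ b ∈ Ico (j * L) ((j + 1) * L), r b
        ≤ ((I₂.powerset.filter (fun A => c - ((j + 1) * L : ℕ) + 1 ≤ ∑ i ∈ A, M i ∧
          ∑ i ∈ A, M i < c - ((j + 1) * L : ℕ) + 1 + L)).card : ℤ) := by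
      simp only [hr]
      rw [← Nat.cast_sum]
      rw [← Finset.card_biUnion]
      · have : ((Ico (j * L) ((j + 1) * L)).biUnion fun b =>
            I₂.powerset.filter (fun B => ∑ i ∈ B, M i = c - b)) ⊆
            I₂.powerset.filter (fun A => c - ((j + 1) * L : ℕ) + 1 ≤ ∑ i ∈ A, M i ∧
          ∑ i ∈ A, M i < c - ((j + 1) * L : ℕ) + 1 + L) := by
          intro B hB
          rw [mem_biUnion] at hB
          obtain ⟨b, hb, hB⟩ := hB
          rw [mem_Ico] at hb
          rw [mem_filter] at hB ⊢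
          refine ⟨hB.1, ?_⟩
          rw [hB.2]
          have e1 : (j + 1) * L = j * L + L := by ring
          have hb1 : ((j * L : ℕ) : ℤ) ≤ b := by exact_mod_cast hb.1
          have hb2 : (b : ℤ) < (((j + 1) * L : ℕ) : ℤ) := by exact_mod_cast hb.2
          rw [e1] at hb2 ⊢
          push_cast at hb1 hb2 ⊢
          constructor <;> linarith
        exact_mod_cast Finset.card_le_card this
      · intro b _ b' _ hne
        rw [Function.onFun, Finset.disjoint_left]
        intro B hB hB'
        rw [mem_filter] at hB hB'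
        apply hne
        have := hB.2.symm.trans hB'.2
        have : (b : ℤ) = b' := by linarith
        exact_mod_cast this
    refine h5.trans ?_
    exact_mod_cast h4

/-- Small ball for linear forms in independent bits. -/
lemma small_ball {ι : Type*} [Fintype ι] [DecidableEq ι] (a : ι → ℤ) (I₁ I₂ : Finset ι)
    (hd : Disjoint I₁ I₂) (h₁ : ∀ i ∈ I₁, a i = 1) (L : ℕ) (hL : 0 < L)
    (h₂ : ∀ i ∈ I₂, (L : ℤ) ≤ a i) (c : ℤ) :
    (((univ : Finset (Finset ι)).filter (fun w => ∑ i ∈ w, a i = c)).card : ℝ)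
      ≤ 2 ^ Fintype.card ι * ((2 * ((I₁.card.choose (I₁.card / 2) : ℝ) / 2 ^ I₁.card) + 1 / L) *
        ((I₂.card.choose (I₂.card / 2) : ℝ) / 2 ^ I₂.card)) := by
  set J : Finset ι := (I₁ ∪ I₂)ᶜ with hJ
  set T : Finset (Finset ι) := (univ : Finset (Finset ι)).filter (fun w => ∑ i ∈ w, a i = c)
    with hT
  set S : ℝ := (I₂.card.choose (I₂.card / 2) : ℝ) *
        (2 ^ I₁.card + 2 * L * I₁.card.choose (I₁.card / 2)) with hS
  have hfib : T.card = ∑ R ∈ J.powerset, (T.filter (fun w => w ∩ J = R)).card := by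
    apply Finset.card_eq_sum_card_fiberwise
    intro w _
    simp only [coe_powerset, Set.mem_preimage, Set.mem_powerset_iff, coe_inter]
    exact Set.inter_subset_right
  have hsplit : ∀ w : Finset ι, ∑ i ∈ w, a i
      = ((w ∩ I₁).card : ℤ) + ∑ i ∈ w ∩ I₂, a i + ∑ i ∈ w ∩ J, a i := by
    intro w
    have e1 : w = (w ∩ I₁) ∪ (w ∩ I₂) ∪ (w ∩ J) := by
      ext x
      simp only [hJ, mem_union, mem_inter, mem_compl]
      tauto
    have d1 : Disjoint (w ∩ I₁) (w ∩ I₂) :=
      Finset.disjoint_of_subset_left inter_subset_right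
        (Finset.disjoint_of_subset_right inter_subset_right hd)
    have d2 : Disjoint ((w ∩ I₁) ∪ (w ∩ I₂)) (w ∩ J) := by
      rw [Finset.disjoint_left]
      intro x hx hx'
      simp only [hJ, mem_union, mem_inter, mem_compl] at hx hx'
      tauto
    conv_lhs => rw [e1]
    rw [Finset.sum_union d2, Finset.sum_union d1]
    have : ∑ i ∈ w ∩ I₁, a i = ((w ∩ I₁).card : ℤ) := by
      rw [Finset.sum_congr rfl (fun i hi => h₁ i (mem_inter.1 hi).2)]
      simp
    rw [this]
  have hone : ∀ R ∈ J.powerset, (L : ℝ) * ((T.filter (fun w => w ∩ J = R)).card : ℝ) ≤ S := by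
    intro R _
    have h3 := pair_card I₁ I₂ a L hL h₂ (c - ∑ i ∈ R, a i)
    have h4 : (T.filter (fun w => w ∩ J = R)).card ≤ ((I₁.powerset ×ˢ I₂.powerset).filter
      (fun p => (p.1.card : ℤ) + ∑ i ∈ p.2, a i = c - ∑ i ∈ R, a i)).card := by
      refine Finset.card_le_card_of_injOn (fun w => (w ∩ I₁, w ∩ I₂)) ?_ ?_
      · intro w hw
        simp only [hT, coe_filter, mem_filter, mem_univ, true_and, Set.mem_ofPred_eq] at hw
        simp only [coe_filter, mem_product, mem_powerset, Set.mem_ofPred_eq]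
        refine ⟨⟨inter_subset_right, inter_subset_right⟩, ?_⟩
        have := hsplit w
        rw [hw.2, hw.1] at this
        linarith
      · intro w hw w' hw' heq
        simp only [hT, coe_filter, mem_filter, mem_univ, true_and, Set.mem_ofPred_eq] at hw hw'
        simp only [Prod.mk.injEq] at heq
        ext x
        have e1 := Finset.ext_iff.1 heq.1 x
        have e2 := Finset.ext_iff.1 heq.2 x
        have e3 := Finset.ext_iff.1 (hw.2.trans hw'.2.symm) x
        simp only [mem_inter, hJ, mem_compl, mem_union] at e1 e2 e3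
        tauto
    have h5 : (L : ℝ) * ((T.filter (fun w => w ∩ J = R)).card : ℝ) ≤
        (L : ℝ) * (((I₁.powerset ×ˢ I₂.powerset).filter
      (fun p => (p.1.card : ℤ) + ∑ i ∈ p.2, a i = c - ∑ i ∈ R, a i)).card : ℝ) := by
      apply mul_le_mul_of_nonneg_left _ (by positivity)
      exact_mod_cast h4
    refine h5.trans ?_
    rw [hS]
    exact_mod_cast h3
  have hLpos : (0 : ℝ) < L := by exact_mod_cast hL
  have htot : (L : ℝ) * (T.card : ℝ) ≤ 2 ^ J.card * S := by
    rw [hfib]
    push_cast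
    rw [Finset.mul_sum]
    calc _ ≤ ∑ R ∈ J.powerset, S := Finset.sum_le_sum hone
      _ = _ := by rw [Finset.sum_const, Finset.card_powerset, nsmul_eq_mul]; push_cast; ring
  have hcard : Fintype.card ι = J.card + I₁.card + I₂.card := by
    rw [hJ, Finset.card_compl, Finset.card_union_of_disjoint hd]
    have : (I₁ ∪ I₂).card ≤ Fintype.card ι := Finset.card_le_univ _
    rw [Finset.card_union_of_disjoint hd] at this
    omega
  have hgoal : (T.card : ℝ) ≤ 2 ^ J.card * S / L := by
    rw [le_div_iff₀ hLpos]; linarith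
  refine hgoal.trans (le_of_eq ?_)
  rw [hcard, hS, pow_add, pow_add]
  have hp1 : (2 : ℝ) ^ I₁.card ≠ 0 := by positivity
  have hp2 : (2 : ℝ) ^ I₂.card ≠ 0 := by positivity
  field_simp
  ring

end Pool.Agent.R54.HP
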