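import Pool.Agent.R54.HP.Rec
import Pool.Agent.R54.HP.SB
import Pool.Agent.R54.HP.CH

/-! The random choice of one level of the property, and the probability of a coincidence. -/

namespace Pool.Agent.R54.HP

open Finset

/-! ### Central binomial coefficients -/

lemma central_sq (m : ℕ) : (Nat.centralBinom m) ^ 2 * (2 * m + 1) ≤ 16 ^ m := by
  induction m with
  | zero => simp
  | succ m ih =>
    have h := Nat.succ_mul_centralBinom_succ m
    have h1 : ((m + 1) ^ 2) * ((Nat.centralBinom (m + 1)) ^ 2 * (2 * (m + 1) + 1))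
        ≤ (m + 1) ^ 2 * 16 ^ (m + 1) := by
      calc ((m + 1) ^ 2) * ((Nat.centralBinom (m + 1)) ^ 2 * (2 * (m + 1) + 1))
          = ((m + 1) * Nat.centralBinom (m + 1)) ^ 2 * (2 * (m + 1) + 1) := by ring
        _ = (2 * (2 * m + 1) * Nat.centralBinom m) ^ 2 * (2 * (m + 1) + 1) := by rw [h]
        _ = (4 * (2 * m + 1) * (2 * (m + 1) + 1)) * ((Nat.centralBinom m) ^ 2 * (2 * m + 1)) := by
            ring
        _ ≤ (4 * (2 * m + 1) * (2 * (m + 1) + 1)) * 16 ^ m := Nat.mul_le_mul_left _ ih
        _ ≤ (16 * (m + 1) ^ 2) * 16 ^ m := by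
            apply Nat.mul_le_mul_right
            nlinarith
        _ = _ := by ring
    exact Nat.le_of_mul_le_mul_left h1 (by positivity)

lemma choose_half_sq (N : ℕ) : (N.choose (N / 2)) ^ 2 * (N + 1) ≤ 4 ^ N := by
  rcases Nat.even_or_odd' N with ⟨m, hm | hm⟩
  · have h := central_sq m
    rw [Nat.centralBinom_eq_two_mul_choose] at h
    have h1 : N / 2 = m := by omega
    rw [h1, hm]
    calc ((2 * m).choose m) ^ 2 * (2 * m + 1) ≤ 16 ^ m := h
      _ = 4 ^ (2 * m) := by rw [pow_mul]; norm_num
  · have h := central_sq (m + 1)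
    rw [Nat.centralBinom_eq_two_mul_choose] at h
    have h1 : N / 2 = m := by omega
    have h2 : (2 * (m + 1)).choose (m + 1) = 2 * (2 * m + 1).choose m := by
      have h3 : 2 * (m + 1) = (2 * m + 1) + 1 := by ring
      rw [h3, Nat.choose_succ_succ, Nat.choose_symm_half]
      ring
    rw [h2] at h
    rw [h1, hm]
    have h4 : 4 * (((2 * m + 1).choose m) ^ 2 * (2 * m + 1 + 1)) ≤ 4 * 4 ^ (2 * m + 1) := by
      calc 4 * (((2 * m + 1).choose m) ^ 2 * (2 * m + 1 + 1))
          ≤ (2 * (2 * m + 1).choose m) ^ 2 * (2 * (m + 1) + 1) := by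
            have : (2 * (2 * m + 1).choose m) ^ 2 * (2 * (m + 1) + 1)
              = 4 * (((2 * m + 1).choose m) ^ 2 * (2 * (m + 1) + 1)) := by ring
            rw [this]
            apply Nat.mul_le_mul_left
            apply Nat.mul_le_mul_left
            omega
        _ ≤ 16 ^ (m + 1) := h
        _ = 4 * 4 ^ (2 * m + 1) := by
            rw [← pow_succ']
            have : 2 * m + 1 + 1 = 2 * (m + 1) := by ring
            rw [this, pow_mul]; norm_num
    omega

/-- bound for the largest binomial probability -/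
lemma rho_le (N K : ℕ) (hK : K ≤ N) :
    (N.choose (N / 2) : ℝ) / 2 ^ N ≤ 1 / Real.sqrt (K + 1) := by
  have h := choose_half_sq N
  have h1 : ((N.choose (N / 2) : ℝ)) ^ 2 * (K + 1) ≤ (2 ^ N) ^ 2 := by
    have h2 : ((N.choose (N / 2) : ℝ)) ^ 2 * (N + 1) ≤ 4 ^ N := by exact_mod_cast h
    have h3 : (4 : ℝ) ^ N = (2 ^ N) ^ 2 := by rw [← pow_mul, mul_comm, pow_mul]; norm_num
    have h4 : (K : ℝ) + 1 ≤ N + 1 := by
      have : (K : ℝ) ≤ N := by exact_mod_cast hK
      linarith
    rw [← h3]
    refine le_trans ?_ h2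
    exact mul_le_mul_of_nonneg_left h4 (by positivity)
  have hpos : (0 : ℝ) < Real.sqrt (K + 1) := Real.sqrt_pos.2 (by positivity)
  rw [div_le_div_iff₀ (by positivity) hpos, one_mul]
  have h5 : ((N.choose (N / 2) : ℝ) * Real.sqrt (K + 1)) ^ 2 ≤ (2 ^ N) ^ 2 := by
    rw [mul_pow, Real.sq_sqrt (by positivity)]; exact h1
  exact le_of_sq_le_sq h5 (by positivity)

/-! ### Permutations mapping an initial segment to a given set -/

/-- the initial segment -/
def seg (s t : ℕ) : Finset (Fin s) := univ.filter (fun i => i.1 < t)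

lemma seg_card {s t : ℕ} (h : t ≤ s) : (seg s t).card = t := by
  have : seg s t = (univ : Finset (Fin t)).map (Fin.castLEEmb h) := by
    ext i
    simp only [seg, mem_filter, mem_univ, true_and, Finset.mem_map, Fin.castLEEmb_apply]
    constructor
    · intro hi
      exact ⟨⟨i.1, hi⟩, rfl⟩
    · rintro ⟨j, rfl⟩
      exact j.2
  rw [this, Finset.card_map, Finset.card_univ, Fintype.card_fin]

open Classical in
lemma perm_le {s : ℕ} (I A B : Finset (Fin s)) (h : A.card = B.card) :
    ((univ : Finset (Equiv.Perm (Fin s))).filter (fun σ : Equiv.Perm (Fin s) => I.image σ = A)).card ≤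
    ((univ : Finset (Equiv.Perm (Fin s))).filter (fun σ : Equiv.Perm (Fin s) => I.image σ = B)).card := by
  have e : {x // x ∈ A} ≃ {x // x ∈ B} := Finset.equivOfCardEq h
  set ρ := e.extendSubtype with hρ
  have hAB : A.image ρ = B := by
    apply Finset.eq_of_subset_of_card_le
    · intro y hy
      obtain ⟨x, hx, rfl⟩ := Finset.mem_image.1 hy
      exact e.extendSubtype_mem x hx
    · rw [Finset.card_image_of_injective _ ρ.injective, h]
  apply Finset.card_le_card_of_injOn (fun σ : Equiv.Perm (Fin s) => σ.trans ρ)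
  · intro σ hσ
    rw [Finset.mem_coe, mem_filter] at hσ ⊢
    refine ⟨mem_univ _, ?_⟩
    have : I.image (σ.trans ρ) = (I.image σ).image ρ := by
      rw [Finset.image_image]; rfl
    rw [this, hσ.2, hAB]
  · intro σ _ τ _ heq
    ext i
    have := congrArg (fun f : Equiv.Perm (Fin s) => f i) heq
    simp only [Equiv.trans_apply] at this
    rw [ρ.injective this]

open Classical in
lemma perm_count {s t : ℕ} (hts : t ≤ s) (A : Finset (Fin s)) (hA : A.card = t) :
    s.factorial ≤ s.choose t *
      ((univ : Finset (Equiv.Perm (Fin s))).filter (fun σ : Equiv.Perm (Fin s) => (seg s t).image σ = A)).card := by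
  have h1 : (univ : Finset (Equiv.Perm (Fin s))).card = s.factorial := by
    rw [Finset.card_univ, Fintype.card_perm, Fintype.card_fin]
  rw [← h1]
  have h2 := Finset.card_eq_sum_card_fiberwise (s := (univ : Finset (Equiv.Perm (Fin s))))
    (t := Finset.powersetCard t (univ : Finset (Fin s))) (f := fun σ : Equiv.Perm (Fin s) => (seg s t).image σ) (by
      intro σ _
      rw [Finset.mem_coe, Finset.mem_powersetCard]
      refine ⟨Finset.subset_univ _, ?_⟩
      rw [Finset.card_image_of_injective _ σ.injective, seg_card hts])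
  rw [h2]
  have h3 : (Finset.powersetCard t (univ : Finset (Fin s))).card = s.choose t := by
    rw [Finset.card_powersetCard, Finset.card_univ, Fintype.card_fin]
  calc _ ≤ ∑ B ∈ Finset.powersetCard t (univ : Finset (Fin s)),
        ((univ : Finset (Equiv.Perm (Fin s))).filter (fun σ : Equiv.Perm (Fin s) => (seg s t).image σ = A)).card := by
        apply Finset.sum_le_sum
        intro B hB
        rw [Finset.mem_powersetCard] at hB
        exact perm_le (seg s t) B A (by rw [hB.2, hA])
    _ = _ := by rw [Finset.sum_const, h3, smul_eq_mul]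

/-! ### One level -/

/-- the structure data of one type: fine or coarse, size, permutation -/
abbrev CC (s : ℕ) := Bool × Fin (s + 1) × Equiv.Perm (Fin s)

/-- coordinates of the random bits -/
abbrev II (s : ℕ) := SimpleGraph (Fin s) ⊕ (Σ t : Fin (s + 1), SimpleGraph (Fin t.1))

/-- the type of the subgraph on the first `t` vertices in the order `σ` -/
noncomputable def kap {s : ℕ} (F : SimpleGraph (Fin s)) (t : Fin (s + 1))
    (σ : Equiv.Perm (Fin s)) : SimpleGraph (Fin t.1) :=
  tp t.1 (F.comap (fun i : Fin t.1 => σ (Fin.castLE (Nat.lt_succ_iff.1 t.2) i)))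

/-- the coordinate deciding about the type `F` -/
noncomputable def crd {s : ℕ} (θ : SimpleGraph (Fin s) → CC s) (F : SimpleGraph (Fin s)) : II s :=
  if (θ F).1 = true then Sum.inl F else Sum.inr ⟨(θ F).2.1, kap F (θ F).2.1 (θ F).2.2⟩

variable {n : ℕ}

/-- abbreviation for the type of an induced subgraph -/
noncomputable def ty (s : ℕ) (G : SimpleGraph (Fin n)) (S : Finset (Fin n)) :
    SimpleGraph (Fin s) := tp s (G.induce (S : Set (Fin n)))

lemma kap_of_subset {s t : ℕ} {G : SimpleGraph (Fin n)} {S T : Finset (Fin n)}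
    (hS : S.card = s) (hT : T.card = t) (hTS : T ⊆ S) (hts : t < s + 1) :
    ∃ A : Finset (Fin s), A.card = t ∧ ∀ σ : Equiv.Perm (Fin s), (seg s t).image σ = A →
      kap (ty s G S) ⟨t, hts⟩ σ = ty t G T := by
  classical
  obtain ⟨φ⟩ := tp_iso (G.induce (S : Set (Fin n))) (nonempty_equiv S hS)
  set A : Finset (Fin s) := univ.filter (fun i => (φ i).1 ∈ T) with hA
  have hAimg : A.image (fun i => (φ i).1) = T := by
    ext x
    rw [Finset.mem_image]
    constructor
    · rintro ⟨i, hi, rfl⟩
      exact (mem_filter.1 hi).2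
    · intro hx
      refine ⟨φ.symm ⟨x, hTS hx⟩, ?_, ?_⟩
      · rw [hA, mem_filter]
        refine ⟨mem_univ _, ?_⟩
        rw [RelIso.apply_symm_apply]; exact hx
      · rw [RelIso.apply_symm_apply]
  have hinj : Function.Injective (fun i : Fin s => (φ i).1) := by
    intro i j hij
    exact φ.injective (Subtype.ext hij)
  have hAc : A.card = t := by
    rw [← hT, ← hAimg, Finset.card_image_of_injective _ hinj]
  refine ⟨A, hAc, ?_⟩
  intro σ hσ
  unfold kap ty
  apply tp_eq
  set j : Fin t → Fin s := fun i => σ (Fin.castLE (Nat.lt_succ_iff.1 hts) i) with hj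
  have hjA : ∀ i, j i ∈ A := by
    intro i
    rw [← hσ]
    apply Finset.mem_image_of_mem
    rw [seg, mem_filter]
    exact ⟨mem_univ _, i.2⟩
  have hjinj : Function.Injective j := by
    intro a b hab
    have := σ.injective hab
    exact Fin.castLE_injective _ this
  have hjT : ∀ i, (φ (j i)).1 ∈ T := fun i => (mem_filter.1 (hjA i)).2
  have hbij : Function.Bijective (fun i : Fin t => (⟨(φ (j i)).1, hjT i⟩ : (T : Set (Fin n)))) := by
    rw [Fintype.bijective_iff_injective_and_card]
    refine ⟨?_, ?_⟩
    · intro a b hab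
      have h1 := congrArg Subtype.val hab
      exact hjinj (hinj h1)
    · rw [Fintype.card_fin]
      have : Fintype.card (T : Set (Fin n)) = T.card := by
        rw [← Nat.card_eq_fintype_card, Nat.card_coe_set_eq, Set.ncard_coe_finset]
      rw [this, hT]
  exact ⟨Equiv.ofBijective _ hbij, by
    intro a b
    exact φ.map_rel_iff (a := j a) (b := j b)⟩

lemma embeds_of_kap {s t : ℕ} {G H : SimpleGraph (Fin n)} {S T : Finset (Fin n)}
    (hS : S.card = s) (hT : T.card = t) (hts : t < s + 1) (σ : Equiv.Perm (Fin s))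
    (h : kap (ty s H S) ⟨t, hts⟩ σ = ty t G T) : Embeds G H T := by
  classical
  obtain ⟨φ⟩ := tp_iso (H.induce (S : Set (Fin n))) (nonempty_equiv S hS)
  unfold kap ty at h
  set j : Fin t → Fin s := fun i => σ (Fin.castLE (Nat.lt_succ_iff.1 hts) i) with hj
  have hjinj : Function.Injective j := by
    intro a b hab
    have := σ.injective hab
    exact Fin.castLE_injective _ this
  obtain ⟨e⟩ := (tp_eq_iff (V := Fin t) ⟨Equiv.refl _⟩ (nonempty_equiv T hT)).1 h
  refine ⟨fun x => if hx : x ∈ T then (φ (j (e.symm ⟨x, hx⟩))).1 else x, ?_, ?_⟩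
  · intro x hx y hy hxy
    rw [Finset.mem_coe] at hx hy
    simp only [hx, hy, dif_pos] at hxy
    have h1 := φ.injective (Subtype.ext hxy)
    have h2 := e.symm.injective (hjinj h1)
    exact congrArg Subtype.val h2
  · intro x hx y hy
    simp only [hx, hy, dif_pos]
    have h1 := φ.map_rel_iff (a := j (e.symm ⟨x, hx⟩)) (b := j (e.symm ⟨y, hy⟩))
    have h2 := e.symm.map_rel_iff (a := ⟨x, hx⟩) (b := ⟨y, hy⟩)
    exact h1.trans h2

/-! ### The counting theorem -/

open Classical in
/-- number of sets whose coordinate is `i` -/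
noncomputable def mlt {s : ℕ} (θ : SimpleGraph (Fin s) → CC s) (G : SimpleGraph (Fin n))
    (i : II s) : ℕ :=
  ((Finset.powersetCard s (univ : Finset (Fin n))).filter
    (fun S : Finset (Fin n) => crd θ (ty s G S) = i)).card

open Classical in
lemma nn_eq_sum {s : ℕ} (θ : SimpleGraph (Fin s) → CC s) (w : Finset (II s))
    (G : SimpleGraph (Fin n)) :
    ((Finset.powersetCard s (univ : Finset (Fin n))).filter
      (fun S : Finset (Fin n) => crd θ (ty s G S) ∈ w)).card = ∑ i ∈ w, mlt θ G i := by
  rw [Finset.card_eq_sum_card_fiberwise (t := w) (f := fun S => crd θ (ty s G S))]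
  · apply Finset.sum_congr rfl
    intro i hi
    unfold mlt
    congr 1
    ext S
    simp only [mem_filter]
    constructor
    · rintro ⟨⟨h1, _⟩, h3⟩; exact ⟨h1, h3⟩
    · rintro ⟨h1, h3⟩; exact ⟨⟨h1, h3 ▸ hi⟩, h3⟩
  · intro S hS
    rw [Finset.mem_coe, mem_filter] at hS
    exact hS.2

lemma ty_inj {k s : ℕ} {G H : SimpleGraph (Fin n)} {S S' : Finset (Fin n)}
    (hS : S ∈ UU k G H s) (hS' : S'.card = s) (h : ty s G S = ty s G S') : S' = S := by
  rw [mem_UU] at hS
  obtain ⟨h1, ⟨K, hKS, _, hK⟩, _⟩ := hS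
  exact tp_unique hK hKS h1 hS' h

open Classical in
/-- The number of bad structures. -/
lemma bad_count {s t k : ℕ} (G H : SimpleGraph (Fin n)) (hts : t < s + 1)
    (K₁ L : ℕ) (hK₁ : (K₁ : ℝ) ≤ (UU k G H s).card / 8)
    (hL : (L : ℝ) ≤ (n - t).choose (s - t) / (8 * (s + 1) * s.choose t)) :
    (((univ : Finset (SimpleGraph (Fin s) → CC s)).filter (fun θ =>
      ¬ (K₁ ≤ ((UU k G H s).filter (fun S => (θ (ty s G S)).1 = true)).card ∧
        ∀ T ∈ UU k G H t, L ≤ mlt θ G (Sum.inr ⟨⟨t, hts⟩, ty t G T⟩)))).card : ℝ)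
      ≤ Fintype.card (SimpleGraph (Fin s) → CC s) *
        (Real.exp (-((UU k G H s).card / 8)) + (UU k G H t).card *
          Real.exp (-((n - t).choose (s - t) / (8 * (s + 1) * s.choose t)))) := by
  set U := UU k G H s with hU
  set Ut := UU k G H t with hUt
  set Nth : ℝ := (Fintype.card (SimpleGraph (Fin s) → CC s) : ℝ) with hNth
  have hCcard : Fintype.card (CC s) = 2 * ((s + 1) * s.factorial) := by
    rw [Fintype.card_prod, Fintype.card_prod, Fintype.card_bool, Fintype.card_fin,
      Fintype.card_perm, Fintype.card_fin]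
  -- fine part
  set A1 : SimpleGraph (Fin s) → Finset (CC s) := fun _ => univ.filter (fun c => c.1 = true)
    with hA1
  have hA1c : ∀ x, (A1 x).card = (s + 1) * s.factorial := by
    intro x
    have : A1 x = ({true} : Finset Bool) ×ˢ (univ : Finset (Fin (s + 1) × Equiv.Perm (Fin s))) := by
      ext c
      simp only [hA1, mem_filter, mem_univ, true_and, mem_product, mem_singleton, and_true]
    rw [this, Finset.card_product, Finset.card_singleton, one_mul, Finset.card_univ,
      Fintype.card_prod, Fintype.card_fin, Fintype.card_perm, Fintype.card_fin]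
  set F1 := U.image (ty s G) with hF1
  have hinjU : Set.InjOn (ty s G) (U : Set (Finset (Fin n))) := by
    intro S hS S' hS' h
    exact (ty_inj (by exact_mod_cast hS) (mem_UU.1 (by exact_mod_cast hS')).1 h).symm
  have hF1c : F1.card = U.card := Finset.card_image_of_injOn hinjU
  have hfine := lower_tail F1 A1 (1 / 2) (by
    intro x _
    rw [hA1c x, hCcard]
    push_cast
    linarith) K₁ (by
    rw [hF1c]
    calc (K₁ : ℝ) ≤ U.card / 8 := hK₁
      _ = 1 / 2 * U.card / 4 := by ring)
  have hfine' : (((univ : Finset (SimpleGraph (Fin s) → CC s)).filter (fun θ =>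
      (U.filter (fun S => (θ (ty s G S)).1 = true)).card < K₁)).card : ℝ)
      ≤ Nth * Real.exp (-(U.card / 8)) := by
    refine le_trans ?_ (hfine.trans (le_of_eq ?_))
    · have : (univ : Finset (SimpleGraph (Fin s) → CC s)).filter (fun θ =>
          (U.filter (fun S => (θ (ty s G S)).1 = true)).card < K₁) ⊆
          (univ : Finset (SimpleGraph (Fin s) → CC s)).filter
          (fun θ => (F1.filter (fun x => θ x ∈ A1 x)).card < K₁) := by
        intro θ hθ
        rw [mem_filter] at hθ ⊢
        refine ⟨mem_univ _, lt_of_le_of_lt ?_ hθ.2⟩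
        have h1 : F1.filter (fun x => θ x ∈ A1 x) ⊆
            (U.filter (fun S => (θ (ty s G S)).1 = true)).image (ty s G) := by
          intro x hx
          rw [mem_filter, hF1, Finset.mem_image] at hx
          obtain ⟨⟨S, hS, rfl⟩, h2⟩ := hx
          rw [hA1, mem_filter] at h2
          exact Finset.mem_image_of_mem _ (mem_filter.2 ⟨hS, h2.2⟩)
        exact (Finset.card_le_card h1).trans Finset.card_image_le
      exact_mod_cast Finset.card_le_card this
    · rw [hF1c]
      congr 3
      ring
  -- coarse part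
  have hcoarse : ∀ T ∈ Ut, (((univ : Finset (SimpleGraph (Fin s) → CC s)).filter (fun θ =>
      mlt θ G (Sum.inr ⟨⟨t, hts⟩, ty t G T⟩) < L)).card : ℝ)
      ≤ Nth * Real.exp (-((n - t).choose (s - t) / (8 * (s + 1) * s.choose t))) := by
    intro T hT
    have hTc : T.card = t := (mem_UU.1 hT).1
    set FT := ((Finset.powersetCard s (univ : Finset (Fin n))).filter (fun B => T ⊆ B)).image
      (ty s G) with hFT
    have hinjT : Set.InjOn (ty s G)
        (((Finset.powersetCard s (univ : Finset (Fin n))).filter (fun B => T ⊆ B) :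
          Finset (Finset (Fin n))) : Set (Finset (Fin n))) := by
      intro S hS S' hS' h
      rw [Finset.mem_coe, mem_filter, Finset.mem_powersetCard] at hS hS'
      exact (ty_inj (UU_up hT hS.1.2 hS.2) hS'.1.2 h).symm
    have hFTc : (n - t).choose (s - t) ≤ FT.card := by
      rw [hFT, Finset.card_image_of_injOn hinjT, ← hTc]
      exact card_supersets T (by omega)
    set A2 : SimpleGraph (Fin s) → Finset (CC s) := fun x =>
      univ.filter (fun c => c.1 = false ∧ c.2.1 = ⟨t, hts⟩ ∧ kap x ⟨t, hts⟩ c.2.2 = ty t G T)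
      with hA2
    have hA2c : ∀ x ∈ FT, s.factorial ≤ s.choose t * (A2 x).card := by
      intro x hx
      rw [hFT, Finset.mem_image] at hx
      obtain ⟨S, hS, rfl⟩ := hx
      rw [mem_filter, Finset.mem_powersetCard] at hS
      obtain ⟨A, hAc, hA⟩ := kap_of_subset (G := G) hS.1.2 hTc hS.2 hts
      refine (perm_count (by omega) A hAc).trans (Nat.mul_le_mul_left _ ?_)
      apply Finset.card_le_card_of_injOn (fun σ : Equiv.Perm (Fin s) => ((false, ⟨t, hts⟩, σ) : CC s))
      · intro σ hσ
        rw [Finset.mem_coe, mem_filter] at hσ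
        rw [Finset.mem_coe, hA2, mem_filter]
        exact ⟨mem_univ _, rfl, rfl, hA σ hσ.2⟩
      · intro σ _ τ _ heq
        simpa using heq
    have hct := lower_tail FT A2 (1 / (2 * (s + 1) * s.choose t)) (by
      intro x hx
      have h1 := hA2c x hx
      have h2 : (s.factorial : ℝ) ≤ s.choose t * (A2 x).card := by exact_mod_cast h1
      have h3 : (0 : ℝ) < s.choose t := by exact_mod_cast Nat.choose_pos (by omega)
      have h4 : (0 : ℝ) < s + 1 := by positivity
      rw [hCcard]
      push_cast
      rw [div_mul_eq_mul_div, one_mul, div_le_iff₀ (by positivity)]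
      nlinarith) L (by
      refine hL.trans ?_
      have h3 : (0 : ℝ) < s.choose t := by exact_mod_cast Nat.choose_pos (by omega)
      have h4 : ((n - t).choose (s - t) : ℝ) ≤ FT.card := by exact_mod_cast hFTc
      have h5 : (0 : ℝ) < s + 1 := by positivity
      rw [div_mul_eq_mul_div, one_mul, div_div]
      have h6 : (8 * ((s : ℝ) + 1) * s.choose t) = (2 * (s + 1) * s.choose t * 4) := by ring
      rw [h6]
      exact div_le_div_of_nonneg_right h4 (by positivity))
    refine le_trans ?_ (hct.trans ?_)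
    · have : (univ : Finset (SimpleGraph (Fin s) → CC s)).filter (fun θ =>
          mlt θ G (Sum.inr ⟨⟨t, hts⟩, ty t G T⟩) < L) ⊆
          (univ : Finset (SimpleGraph (Fin s) → CC s)).filter
          (fun θ => (FT.filter (fun x => θ x ∈ A2 x)).card < L) := by
        intro θ hθ
        rw [mem_filter] at hθ ⊢
        refine ⟨mem_univ _, lt_of_le_of_lt ?_ hθ.2⟩
        have h1 : FT.filter (fun x => θ x ∈ A2 x) ⊆
            ((Finset.powersetCard s (univ : Finset (Fin n))).filter
              (fun S : Finset (Fin n) => crd θ (ty s G S) = Sum.inr ⟨⟨t, hts⟩, ty t G T⟩)).image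
              (ty s G) := by
          intro x hx
          rw [mem_filter, hFT, Finset.mem_image] at hx
          obtain ⟨⟨S, hS, rfl⟩, h2⟩ := hx
          rw [mem_filter] at hS
          rw [hA2, mem_filter] at h2
          apply Finset.mem_image_of_mem
          rw [mem_filter]
          refine ⟨hS.1, ?_⟩
          obtain ⟨_, h3, h4, h5⟩ := h2
          unfold crd
          rw [if_neg (by rw [h3]; simp)]
          have h6 : (θ (ty s G S)).2.1 = ⟨t, hts⟩ := h4
          rw [← h5]
          congr 1
          rw [h6]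
        exact (Finset.card_le_card h1).trans Finset.card_image_le
      exact_mod_cast Finset.card_le_card this
    · apply mul_le_mul_of_nonneg_left _ (by positivity)
      apply Real.exp_le_exp.2
      have h3 : (0 : ℝ) < s.choose t := by exact_mod_cast Nat.choose_pos (by omega)
      have h4 : ((n - t).choose (s - t) : ℝ) ≤ FT.card := by exact_mod_cast hFTc
      have h5 : (0 : ℝ) < s + 1 := by positivity
      rw [neg_le_neg_iff, div_mul_eq_mul_div, one_mul, div_div]
      have h6 : (8 * ((s : ℝ) + 1) * s.choose t) = (2 * (s + 1) * s.choose t * 4) := by ring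
      rw [h6]
      exact div_le_div_of_nonneg_right h4 (by positivity)
  -- union
  have hsub : (univ : Finset (SimpleGraph (Fin s) → CC s)).filter (fun θ =>
      ¬ (K₁ ≤ (U.filter (fun S => (θ (ty s G S)).1 = true)).card ∧
        ∀ T ∈ Ut, L ≤ mlt θ G (Sum.inr ⟨⟨t, hts⟩, ty t G T⟩))) ⊆
      ((univ : Finset (SimpleGraph (Fin s) → CC s)).filter (fun θ =>
      (U.filter (fun S => (θ (ty s G S)).1 = true)).card < K₁)) ∪
      Ut.biUnion (fun T => (univ : Finset (SimpleGraph (Fin s) → CC s)).filter (fun θ =>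
      mlt θ G (Sum.inr ⟨⟨t, hts⟩, ty t G T⟩) < L)) := by
    intro θ hθ
    rw [mem_filter] at hθ
    rw [mem_union, mem_filter, mem_biUnion]
    have h1 := hθ.2
    rw [not_and_or] at h1
    rcases h1 with h | h
    · left; exact ⟨mem_univ _, not_le.1 h⟩
    · right
      push Not at h
      obtain ⟨T, hT, h⟩ := h
      exact ⟨T, hT, mem_filter.2 ⟨mem_univ _, h⟩⟩
  have hcard := (Finset.card_le_card hsub).trans ((Finset.card_union_le _ _).trans
    (Nat.add_le_add_left Finset.card_biUnion_le _))
  have hcard' : (((univ : Finset (SimpleGraph (Fin s) → CC s)).filter (fun θ =>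
      ¬ (K₁ ≤ (U.filter (fun S => (θ (ty s G S)).1 = true)).card ∧
        ∀ T ∈ Ut, L ≤ mlt θ G (Sum.inr ⟨⟨t, hts⟩, ty t G T⟩)))).card : ℝ) ≤
      (((univ : Finset (SimpleGraph (Fin s) → CC s)).filter (fun θ =>
      (U.filter (fun S => (θ (ty s G S)).1 = true)).card < K₁)).card : ℝ) +
      ∑ T ∈ Ut, (((univ : Finset (SimpleGraph (Fin s) → CC s)).filter (fun θ =>
      mlt θ G (Sum.inr ⟨⟨t, hts⟩, ty t G T⟩) < L)).card : ℝ) := by
    exact_mod_cast hcard
  refine hcard'.trans ?_
  rw [mul_add]
  apply add_le_add hfine'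
  calc _ ≤ ∑ T ∈ Ut, Nth * Real.exp (-((n - t).choose (s - t) / (8 * (s + 1) * s.choose t))) :=
        Finset.sum_le_sum hcoarse
    _ = _ := by rw [Finset.sum_const, nsmul_eq_mul]; ring

open Classical in
/-- The number of choices for which the numbers of sets agree. -/
lemma level_count {s t k : ℕ} (G H : SimpleGraph (Fin n)) (hts : t < s + 1)
    (K₁ L : ℕ) (hK₁ : (K₁ : ℝ) ≤ (UU k G H s).card / 8) (hL0 : 0 < L)
    (hL : (L : ℝ) ≤ (n - t).choose (s - t) / (8 * (s + 1) * s.choose t)) (c : ℤ) :
    (((univ : Finset ((SimpleGraph (Fin s) → CC s) × Finset (II s))).filter (fun p =>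
      (((Finset.powersetCard s (univ : Finset (Fin n))).filter
        (fun S : Finset (Fin n) => crd p.1 (ty s G S) ∈ p.2)).card : ℤ) -
      (((Finset.powersetCard s (univ : Finset (Fin n))).filter
        (fun S : Finset (Fin n) => crd p.1 (ty s H S) ∈ p.2)).card : ℤ) = c)).card : ℝ)
      ≤ Fintype.card ((SimpleGraph (Fin s) → CC s) × Finset (II s)) *
        ((Real.exp (-((UU k G H s).card / 8)) + (UU k G H t).card *
          Real.exp (-((n - t).choose (s - t) / (8 * (s + 1) * s.choose t)))) +
        (2 * (1 / Real.sqrt (K₁ + 1)) + 1 / L) * (1 / Real.sqrt ((UU k G H t).card + 1))) := by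
  set U := UU k G H s with hU
  set Ut := UU k G H t with hUt
  set good : (SimpleGraph (Fin s) → CC s) → Prop := fun θ =>
    (K₁ ≤ (U.filter (fun S => (θ (ty s G S)).1 = true)).card ∧
        ∀ T ∈ Ut, L ≤ mlt θ G (Sum.inr ⟨⟨t, hts⟩, ty t G T⟩)) with hgood
  set ε : ℝ := (2 * (1 / Real.sqrt (K₁ + 1)) + 1 / L) * (1 / Real.sqrt (Ut.card + 1)) with hε
  -- for a good structure
  have hone : ∀ θ, good θ → (((univ : Finset (Finset (II s))).filter (fun w =>
      ∑ i ∈ w, ((mlt θ G i : ℤ) - mlt θ H i) = c)).card : ℝ) ≤ 2 ^ Fintype.card (II s) * ε := by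
    intro θ hθ
    set I₁ : Finset (II s) := (U.filter (fun S => (θ (ty s G S)).1 = true)).image
      (fun S => Sum.inl (ty s G S)) with hI₁
    set I₂ : Finset (II s) := Ut.image (fun T => Sum.inr ⟨⟨t, hts⟩, ty t G T⟩) with hI₂
    have hI₁c : I₁.card = (U.filter (fun S => (θ (ty s G S)).1 = true)).card := by
      apply Finset.card_image_of_injOn
      intro S hS S' hS' heq
      rw [Finset.mem_coe, mem_filter] at hS hS'
      exact (ty_inj hS.1 (mem_UU.1 hS'.1).1 (Sum.inl_injective heq)).symm
    have hI₂c : I₂.card = Ut.card := by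
      apply Finset.card_image_of_injOn
      intro T hT T' hT' heq
      have h1 := Sum.inr_injective heq
      have h2 : ty t G T = ty t G T' := by
        rw [Sigma.mk.injEq] at h1
        exact eq_of_heq h1.2
      exact (ty_inj hT (mem_UU.1 hT').1 h2).symm
    have hd : Disjoint I₁ I₂ := by
      rw [Finset.disjoint_left]
      intro i h1 h2
      rw [hI₁, Finset.mem_image] at h1
      rw [hI₂, Finset.mem_image] at h2
      obtain ⟨S, _, rfl⟩ := h1
      obtain ⟨T, _, h⟩ := h2
      exact absurd h (by simp)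
    have ha₁ : ∀ i ∈ I₁, ((mlt θ G i : ℤ) - mlt θ H i) = 1 := by
      intro i hi
      rw [hI₁, Finset.mem_image] at hi
      obtain ⟨S, hS, rfl⟩ := hi
      rw [mem_filter] at hS
      have hSU := mem_UU.1 hS.1
      have h1 : mlt θ G (Sum.inl (ty s G S)) = 1 := by
        unfold mlt
        rw [Finset.card_eq_one]
        refine ⟨S, ?_⟩
        ext S'
        rw [mem_filter, Finset.mem_powersetCard, mem_singleton]
        constructor
        · rintro ⟨⟨_, h2⟩, h3⟩
          unfold crd at h3
          split_ifs at h3 with h4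
          exact ty_inj hS.1 h2 (Sum.inl_injective h3).symm
        · rintro rfl
          refine ⟨⟨Finset.subset_univ _, hSU.1⟩, ?_⟩
          unfold crd
          rw [if_pos hS.2]
      have h2 : mlt θ H (Sum.inl (ty s G S)) = 0 := by
        unfold mlt
        rw [Finset.card_eq_zero, Finset.filter_eq_empty_iff]
        intro S' hS' h3
        rw [Finset.mem_powersetCard] at hS'
        unfold crd at h3
        split_ifs at h3 with h4
        exact hSU.2.2 (embeds_of_tp hSU.1 hS'.2 (Sum.inl_injective h3).symm)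
      rw [h1, h2]; norm_num
    have ha₂ : ∀ i ∈ I₂, (L : ℤ) ≤ ((mlt θ G i : ℤ) - mlt θ H i) := by
      intro i hi
      rw [hI₂, Finset.mem_image] at hi
      obtain ⟨T, hT, rfl⟩ := hi
      have h1 := hθ.2 T hT
      have hTU := mem_UU.1 hT
      have h2 : mlt θ H (Sum.inr ⟨⟨t, hts⟩, ty t G T⟩) = 0 := by
        unfold mlt
        rw [Finset.card_eq_zero, Finset.filter_eq_empty_iff]
        intro S' hS' h3
        rw [Finset.mem_powersetCard] at hS'
        unfold crd at h3
        split_ifs at h3 with h4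
        have h5 := Sum.inr_injective h3
        have h6 : (θ (ty s H S')).2.1 = ⟨t, hts⟩ := congrArg Sigma.fst h5
        apply hTU.2.2
        apply embeds_of_kap (H := H) (S := S') hS'.2 hTU.1 hts (θ (ty s H S')).2.2
        rw [Sigma.mk.injEq] at h5
        generalize (θ (ty s H S')).2.1 = tt at h5 h6
        subst h6
        exact eq_of_heq h5.2
      rw [h2]
      have : (L : ℤ) ≤ mlt θ G (Sum.inr ⟨⟨t, hts⟩, ty t G T⟩) := by exact_mod_cast h1
      simpa using this
    have hsb := small_ball (fun i => ((mlt θ G i : ℤ) - mlt θ H i)) I₁ I₂ hd ha₁ L hL0 ha₂ c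
    refine hsb.trans ?_
    apply mul_le_mul_of_nonneg_left _ (by positivity)
    rw [hI₂c]
    have h1 := rho_le I₁.card K₁ (by rw [hI₁c]; exact hθ.1)
    have h2 := rho_le Ut.card Ut.card le_rfl
    rw [hε]
    apply mul_le_mul _ h2 (by positivity) (by positivity)
    linarith
  -- sum over structures
  have hbad := bad_count (k := k) G H hts K₁ L hK₁ hL
  set BadS := (univ : Finset (SimpleGraph (Fin s) → CC s)).filter (fun θ => ¬ good θ) with hBadS
  have hrew : ∀ θ (w : Finset (II s)), ((((Finset.powersetCard s (univ : Finset (Fin n))).filter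
        (fun S : Finset (Fin n) => crd θ (ty s G S) ∈ w)).card : ℤ) -
      (((Finset.powersetCard s (univ : Finset (Fin n))).filter
        (fun S : Finset (Fin n) => crd θ (ty s H S) ∈ w)).card : ℤ))
      = ∑ i ∈ w, ((mlt θ G i : ℤ) - mlt θ H i) := by
    intro θ w
    rw [nn_eq_sum, nn_eq_sum, Finset.sum_sub_distrib]
    push_cast
    rfl
  have hcount : (((univ : Finset ((SimpleGraph (Fin s) → CC s) × Finset (II s))).filter (fun p =>
      (((Finset.powersetCard s (univ : Finset (Fin n))).filter
        (fun S : Finset (Fin n) => crd p.1 (ty s G S) ∈ p.2)).card : ℤ) -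
      (((Finset.powersetCard s (univ : Finset (Fin n))).filter
        (fun S : Finset (Fin n) => crd p.1 (ty s H S) ∈ p.2)).card : ℤ) = c)).card : ℝ)
      = ∑ θ : SimpleGraph (Fin s) → CC s, (((univ : Finset (Finset (II s))).filter (fun w =>
      ∑ i ∈ w, ((mlt θ G i : ℤ) - mlt θ H i) = c)).card : ℝ) := by
    rw [Finset.card_eq_sum_card_fiberwise (t := (univ : Finset (SimpleGraph (Fin s) → CC s)))
      (f := Prod.fst) (fun _ _ => Finset.mem_coe.2 (mem_univ _))]
    push_cast
    apply Finset.sum_congr rfl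
    intro θ _
    apply congrArg (Nat.cast : ℕ → ℝ)
    apply Finset.card_bij (fun p _ => p.2)
    · intro p hp
      rw [mem_filter, mem_filter] at hp
      rw [mem_filter]
      refine ⟨mem_univ _, ?_⟩
      rw [← hrew, ← hp.2]
      exact hp.1.2
    · intro p hp q hq heq
      rw [mem_filter] at hp hq
      exact Prod.ext (hp.2.trans hq.2.symm) heq
    · intro w hw
      rw [mem_filter] at hw
      refine ⟨(θ, w), ?_, rfl⟩
      rw [mem_filter, mem_filter]
      refine ⟨⟨mem_univ _, ?_⟩, rfl⟩
      rw [hrew]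
      exact hw.2
  rw [hcount]
  have hεpos : 0 ≤ ε := by rw [hε]; positivity
  have hII : (Fintype.card (Finset (II s)) : ℝ) = 2 ^ Fintype.card (II s) := by
    rw [Fintype.card_finset]; push_cast; rfl
  set e0 : ℝ := (Real.exp (-(U.card / 8)) + Ut.card *
          Real.exp (-((n - t).choose (s - t) / (8 * (s + 1) * s.choose t)))) with he0
  calc ∑ θ : SimpleGraph (Fin s) → CC s, (((univ : Finset (Finset (II s))).filter (fun w =>
      ∑ i ∈ w, ((mlt θ G i : ℤ) - mlt θ H i) = c)).card : ℝ)
      ≤ ∑ θ : SimpleGraph (Fin s) → CC s, (2 ^ Fintype.card (II s) * ε +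
          (if θ ∈ BadS then 2 ^ Fintype.card (II s) else 0)) := by
        apply Finset.sum_le_sum
        intro θ _
        by_cases hg : good θ
        · have h1 : θ ∉ BadS := by rw [hBadS, mem_filter]; exact fun h => h.2 hg
          rw [if_neg h1, add_zero]
          exact hone θ hg
        · have h1 : θ ∈ BadS := by rw [hBadS, mem_filter]; exact ⟨mem_univ _, hg⟩
          rw [if_pos h1]
          have h2 : (((univ : Finset (Finset (II s))).filter (fun w =>
            ∑ i ∈ w, ((mlt θ G i : ℤ) - mlt θ H i) = c)).card : ℝ) ≤ 2 ^ Fintype.card (II s) := by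
            rw [← hII]
            exact_mod_cast Finset.card_le_univ _
          have h3 : (0 : ℝ) ≤ 2 ^ Fintype.card (II s) * ε := by positivity
          linarith
    _ = Fintype.card (SimpleGraph (Fin s) → CC s) * (2 ^ Fintype.card (II s) * ε) +
          BadS.card * 2 ^ Fintype.card (II s) := by
        rw [Finset.sum_add_distrib, Finset.sum_const, Finset.card_univ, nsmul_eq_mul,
          Finset.sum_ite_mem, Finset.univ_inter, Finset.sum_const, nsmul_eq_mul]
    _ ≤ Fintype.card (SimpleGraph (Fin s) → CC s) * (2 ^ Fintype.card (II s) * ε) +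
          (Fintype.card (SimpleGraph (Fin s) → CC s) * e0) * 2 ^ Fintype.card (II s) := by
        apply add_le_add le_rfl
        apply mul_le_mul_of_nonneg_right hbad (by positivity)
    _ = _ := by
        rw [Fintype.card_prod]
        push_cast
        rw [hII]
        ring

end Pool.Agent.R54.HP
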