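import Pool.Agent.R54.HP.Defs

/-! Sets of vertices which determine the positions of all vertices, and reconstruction. -/

namespace Pool.Agent.R54.HP

open Finset

variable {n : ℕ}

/-- `K` determines positions in `G`: the only embedding of `G[K]` into `G` is the inclusion, and
vertices outside `K` have different neighbourhoods in `K`. -/
def Base (G : SimpleGraph (Fin n)) (K : Finset (Fin n)) : Prop :=
  (∀ f : Fin n → Fin n, Set.InjOn f K →
    (∀ x ∈ K, ∀ y ∈ K, (G.Adj (f x) (f y) ↔ G.Adj x y)) → ∀ x ∈ K, f x = x) ∧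
  (∀ u ∉ K, ∀ v ∉ K, (∀ w ∈ K, (G.Adj u w ↔ G.Adj v w)) → u = v)

/-- `G[S]` is isomorphic to an induced subgraph of `H` -/
def Embeds (G H : SimpleGraph (Fin n)) (S : Finset (Fin n)) : Prop :=
  ∃ f : Fin n → Fin n, Set.InjOn f S ∧ ∀ x ∈ S, ∀ y ∈ S, (H.Adj (f x) (f y) ↔ G.Adj x y)

lemma Embeds.mono {G H : SimpleGraph (Fin n)} {S T : Finset (Fin n)} (h : Embeds G H T)
    (hST : S ⊆ T) : Embeds G H S := by
  obtain ⟨f, h1, h2⟩ := h
  exact ⟨f, h1.mono (by exact_mod_cast hST), fun x hx y hy => h2 x (hST hx) y (hST hy)⟩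

lemma Base.rigid {G : SimpleGraph (Fin n)} {K S : Finset (Fin n)} (hK : Base G K) (hKS : K ⊆ S)
    {f : Fin n → Fin n} (hf : Set.InjOn f S)
    (ha : ∀ x ∈ S, ∀ y ∈ S, (G.Adj (f x) (f y) ↔ G.Adj x y)) : ∀ x ∈ S, f x = x := by
  have h1 : ∀ x ∈ K, f x = x := hK.1 f (hf.mono (by exact_mod_cast hKS))
    (fun x hx y hy => ha x (hKS hx) y (hKS hy))
  intro v hv
  by_cases hvK : v ∈ K
  · exact h1 v hvK
  · have hfv : f v ∉ K := by
      intro hw
      have h2 := h1 _ hw
      have := hf (hKS hw) hv h2
      exact hvK (this ▸ hw)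
    apply hK.2 _ hfv _ hvK
    intro w hw
    have := ha v hv w (hKS hw)
    rwa [h1 w hw] at this

/-- an isomorphism between induced subgraphs as a function on all vertices -/
lemma iso_fun {G H : SimpleGraph (Fin n)} {S S' : Finset (Fin n)}
    (e : G.induce (S : Set (Fin n)) ≃g H.induce (S' : Set (Fin n))) :
    ∃ f : Fin n → Fin n, Set.InjOn f S ∧ (∀ x ∈ S, f x ∈ S') ∧
      (∀ x ∈ S, ∀ y ∈ S, (H.Adj (f x) (f y) ↔ G.Adj x y)) := by
  classical
  refine ⟨fun x => if h : x ∈ S then (e ⟨x, h⟩).1 else x, ?_, ?_, ?_⟩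
  · intro x hx y hy hxy
    rw [Finset.mem_coe] at hx hy
    simp only [hx, hy, dif_pos] at hxy
    have := e.injective (Subtype.ext hxy)
    exact congrArg Subtype.val this
  · intro x hx
    simp only [hx, dif_pos]
    exact (e ⟨x, hx⟩).2
  · intro x hx y hy
    simp only [hx, hy, dif_pos]
    exact e.map_rel_iff (a := ⟨x, hx⟩) (b := ⟨y, hy⟩)

lemma fun_iso {G H : SimpleGraph (Fin n)} {S : Finset (Fin n)} {f : Fin n → Fin n}
    (hf : Set.InjOn f S) (ha : ∀ x ∈ S, ∀ y ∈ S, (H.Adj (f x) (f y) ↔ G.Adj x y)) :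
    Nonempty (G.induce (S : Set (Fin n)) ≃g H.induce ((S.image f : Finset (Fin n)) : Set (Fin n))) := by
  classical
  refine ⟨⟨Equiv.ofBijective (fun x => ⟨f x.1, by
    rw [Finset.mem_coe]; exact Finset.mem_image_of_mem f x.2⟩) ⟨?_, ?_⟩, ?_⟩⟩
  · intro x y hxy
    have := congrArg Subtype.val hxy
    exact Subtype.ext (hf x.2 y.2 this)
  · rintro ⟨y, hy⟩
    rw [Finset.mem_coe, Finset.mem_image] at hy
    obtain ⟨x, hx, rfl⟩ := hy
    exact ⟨⟨x, hx⟩, rfl⟩
  · intro a b
    exact ha a.1 a.2 b.1 b.2

/-- uniqueness of types of sets containing a base -/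
lemma tp_unique {G : SimpleGraph (Fin n)} {K S S' : Finset (Fin n)} (hK : Base G K) (hKS : K ⊆ S)
    {s : ℕ} (hS : S.card = s) (hS' : S'.card = s)
    (h : tp s (G.induce (S : Set (Fin n))) = tp s (G.induce (S' : Set (Fin n)))) : S' = S := by
  obtain ⟨e⟩ := (tp_eq_iff (nonempty_equiv S hS) (nonempty_equiv S' hS')).1 h
  obtain ⟨f, h1, h2, h3⟩ := iso_fun e
  have h4 := hK.rigid hKS h1 h3
  have h5 : S ⊆ S' := by
    intro x hx
    rw [← h4 x hx]; exact h2 x hx
  exact (Finset.eq_of_subset_of_card_le h5 (by omega)).symm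

lemma embeds_of_tp {G H : SimpleGraph (Fin n)} {S S' : Finset (Fin n)}
    {s : ℕ} (hS : S.card = s) (hS' : S'.card = s)
    (h : tp s (G.induce (S : Set (Fin n))) = tp s (H.induce (S' : Set (Fin n)))) :
    Embeds G H S := by
  obtain ⟨e⟩ := (tp_eq_iff (nonempty_equiv S hS) (nonempty_equiv S' hS')).1 h
  obtain ⟨f, h1, _, h3⟩ := iso_fun e
  exact ⟨f, h1, h3⟩

/-- The reconstruction lemma. -/
lemma reconstruct {G H : SimpleGraph (Fin n)} {K : Finset (Fin n)} {k : ℕ} (hK : Base G K)
    (hk : K.card = k) (hkn : k + 2 ≤ n) (K' : Finset (Fin n))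
    (huniq : ∀ K'' : Finset (Fin n), K''.card = k →
      tp k (H.induce (K'' : Set (Fin n))) = tp k (G.induce (K : Set (Fin n))) → K'' = K')
    (hall : ∀ u ∉ K, ∀ v ∉ K, u ≠ v → Embeds G H (insert u (insert v K))) :
    Nonempty (G ≃g H) := by
  classical
  -- a pair outside
  have hex : ∀ u ∉ K, ∃ v ∉ K, u ≠ v := by
    intro u hu
    have h1 : (insert u K).card < (univ : Finset (Fin n)).card := by
      rw [Finset.card_insert_of_notMem hu, Finset.card_univ, Fintype.card_fin]; omega
    obtain ⟨v, _, hv⟩ := Finset.exists_mem_notMem_of_card_lt_card h1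
    rw [Finset.mem_insert] at hv
    push Not at hv
    exact ⟨v, hv.2, fun h => hv.1 h.symm⟩
  have hex0 : ∃ u, u ∉ K := by
    have h1 : K.card < (univ : Finset (Fin n)).card := by
      rw [Finset.card_univ, Fintype.card_fin]; omega
    obtain ⟨v, _, hv⟩ := Finset.exists_mem_notMem_of_card_lt_card h1
    exact ⟨v, hv⟩
  obtain ⟨u₀, hu₀⟩ := hex0
  obtain ⟨v₀, hv₀, huv₀⟩ := hex u₀ hu₀
  obtain ⟨ψ, hψi, hψa⟩ := (hall u₀ hu₀ v₀ hv₀ huv₀).mono
    ((Finset.subset_insert v₀ K).trans (Finset.subset_insert u₀ _))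
  -- images of embeddings of K
  have himg : ∀ φ : Fin n → Fin n, Set.InjOn φ K →
      (∀ x ∈ K, ∀ y ∈ K, (H.Adj (φ x) (φ y) ↔ G.Adj x y)) → K.image φ = K' := by
    intro φ h1 h2
    have hc : (K.image φ).card = k := by rw [Finset.card_image_of_injOn h1, hk]
    obtain ⟨e⟩ := fun_iso h1 h2
    exact huniq _ hc ((tp_eq_iff (nonempty_equiv _ hc) (nonempty_equiv K hk)).2 ⟨e.symm⟩)
  have hψK : K.image ψ = K' := himg ψ hψi hψa
  have hsame : ∀ φ : Fin n → Fin n, Set.InjOn φ K →
      (∀ x ∈ K, ∀ y ∈ K, (H.Adj (φ x) (φ y) ↔ G.Adj x y)) → ∀ x ∈ K, φ x = ψ x := by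
    intro φ h1 h2
    have hφK := himg φ h1 h2
    have hinv : ∀ x ∈ K, ∃ y ∈ K, ψ y = φ x := by
      intro x hx
      have : φ x ∈ K.image ψ := by rw [hψK, ← hφK]; exact Finset.mem_image_of_mem φ hx
      exact Finset.mem_image.1 this
    choose! f hf1 hf2 using hinv
    have h3 : ∀ x ∈ K, f x = x := by
      apply hK.1
      · intro x hx y hy hxy
        apply h1 hx hy
        rw [← hf2 x hx, ← hf2 y hy, hxy]
      · intro x hx y hy
        rw [← hψa _ (hf1 x hx) _ (hf1 y hy), hf2 x hx, hf2 y hy]
        exact h2 x hx y hy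
    intro x hx
    rw [← hf2 x hx, h3 x hx]
  -- the relation
  set R : Fin n → Fin n → Prop := fun u u' => u' ∉ K' ∧ ∀ w ∈ K, (H.Adj u' (ψ w) ↔ G.Adj u w)
    with hR
  have hpair : ∀ u ∉ K, ∀ v ∉ K, u ≠ v → ∃ u' v', R u u' ∧ R v v' ∧
      (H.Adj u' v' ↔ G.Adj u v) := by
    intro u hu v hv huv
    obtain ⟨φ, h1, h2⟩ := hall u hu v hv huv
    have hsub : K ⊆ insert u (insert v K) :=
      (Finset.subset_insert v K).trans (Finset.subset_insert u _)
    have hKi : Set.InjOn φ K := h1.mono (by exact_mod_cast hsub)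
    have hKa : ∀ x ∈ K, ∀ y ∈ K, (H.Adj (φ x) (φ y) ↔ G.Adj x y) :=
      fun x hx y hy => h2 x (hsub hx) y (hsub hy)
    have hs := hsame φ hKi hKa
    have hφK := himg φ hKi hKa
    have hum : u ∈ insert u (insert v K) := Finset.mem_insert_self _ _
    have hvm : v ∈ insert u (insert v K) :=
      Finset.mem_insert_of_mem (Finset.mem_insert_self _ _)
    have hout : ∀ x ∈ insert u (insert v K), x ∉ K → φ x ∉ K' := by
      intro x hx hxK hm
      rw [← hφK, Finset.mem_image] at hm
      obtain ⟨y, hy, hyx⟩ := hm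
      have := h1 (by exact_mod_cast hsub hy) (by exact_mod_cast hx) hyx
      exact hxK (this ▸ hy)
    refine ⟨φ u, φ v, ⟨hout u hum hu, ?_⟩, ⟨hout v hvm hv, ?_⟩, h2 u hum v hvm⟩
    · intro w hw
      rw [← hs w hw]; exact h2 u hum w (hsub hw)
    · intro w hw
      rw [← hs w hw]; exact h2 v hvm w (hsub hw)
  have hRuniq : ∀ u ∉ K, ∀ v ∉ K, ∀ u', R u u' → R v u' → u = v := by
    intro u hu v hv u' h1 h2
    apply hK.2 u hu v hv
    intro w hw
    rw [← h1.2 w hw, ← h2.2 w hw]
  have hRex : ∀ u, u ∉ K → ∃ u', R u u' := by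
    intro u hu
    obtain ⟨v, hv, huv⟩ := hex u hu
    obtain ⟨u', _, h, _⟩ := hpair u hu v hv huv
    exact ⟨u', h⟩
  choose! g hg using hRex
  set Φ : Fin n → Fin n := fun x => if x ∈ K then ψ x else g x with hΦ
  have hΦK : ∀ x ∈ K, Φ x = ψ x := fun x hx => by simp [hΦ, hx]
  have hΦN : ∀ x, x ∉ K → Φ x = g x := fun x hx => by simp [hΦ, hx]
  have hψm : ∀ x ∈ K, ψ x ∈ K' := fun x hx => by rw [← hψK]; exact Finset.mem_image_of_mem ψ hx
  have hinj : Function.Injective Φ := by
    intro x y hxy
    by_cases hx : x ∈ K <;> by_cases hy : y ∈ K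
    · rw [hΦK x hx, hΦK y hy] at hxy
      exact hψi (by exact_mod_cast hx) (by exact_mod_cast hy) hxy
    · rw [hΦK x hx, hΦN y hy] at hxy
      exact absurd (hxy ▸ hψm x hx) (hg y hy).1
    · rw [hΦN x hx, hΦK y hy] at hxy
      exact absurd (hxy ▸ hψm y hy) (hg x hx).1
    · rw [hΦN x hx, hΦN y hy] at hxy
      exact hRuniq x hx y hy (g x) (hg x hx) (hxy ▸ hg y hy)
  have hbij : Function.Bijective Φ := Finite.injective_iff_bijective.1 hinj
  have hRg : ∀ u, u ∉ K → ∀ u', R u u' → u' = g u := by
    intro u hu u' hu'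
    obtain ⟨x, hx⟩ := hbij.2 u'
    by_cases hxK : x ∈ K
    · rw [hΦK x hxK] at hx
      exact absurd (hx ▸ hψm x hxK) hu'.1
    · rw [hΦN x hxK] at hx
      have := hRuniq x hxK u hu u' (hx ▸ hg x hxK) hu'
      rw [← hx, this]
  refine ⟨⟨Equiv.ofBijective Φ hbij, ?_⟩⟩
  intro a b
  change H.Adj (Φ a) (Φ b) ↔ G.Adj a b
  by_cases ha : a ∈ K <;> by_cases hb : b ∈ K
  · rw [hΦK a ha, hΦK b hb]; exact hψa a ha b hb
  · rw [hΦK a ha, hΦN b hb, H.adj_comm, (hg b hb).2 a ha, G.adj_comm]
  · rw [hΦN a ha, hΦK b hb, (hg a ha).2 b hb]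
  · by_cases hab : a = b
    · subst hab; simp
    · obtain ⟨u', v', h1, h2, h3⟩ := hpair a ha b hb hab
      rw [hΦN a ha, hΦN b hb, ← hRg a ha u' h1, ← hRg b hb v' h2]
      exact h3

/-! ### Counting -/

/-- number of supersets of given size -/
lemma card_supersets (A : Finset (Fin n)) {b : ℕ} (hb : A.card ≤ b) :
    (n - A.card).choose (b - A.card) ≤
      ((Finset.powersetCard b (univ : Finset (Fin n))).filter (fun B => A ⊆ B)).card := by
  classical
  have h1 : (n - A.card).choose (b - A.card) = (Finset.powersetCard (b - A.card) Aᶜ).card := by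
    rw [Finset.card_powersetCard, Finset.card_compl, Fintype.card_fin]
  rw [h1]
  refine Finset.card_le_card_of_injOn (fun C => A ∪ C) ?_ ?_
  · intro C hC
    rw [Finset.mem_coe, Finset.mem_powersetCard] at hC
    rw [Finset.mem_coe, mem_filter, Finset.mem_powersetCard]
    refine ⟨⟨Finset.subset_univ _, ?_⟩, Finset.subset_union_left⟩
    have hd : Disjoint A C := by
      rw [Finset.disjoint_left]
      intro x hx hx'
      exact (Finset.mem_compl.1 (hC.1 hx')) hx
    simp only
    rw [Finset.card_union_of_disjoint hd, hC.2]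
    omega
  · intro C hC D hD heq
    rw [Finset.mem_coe, Finset.mem_powersetCard] at hC hD
    simp only at heq
    have hcan : ∀ E : Finset (Fin n), E ⊆ Aᶜ → (A ∪ E) \ A = E := by
      intro E hE
      rw [Finset.union_sdiff_left]
      apply Finset.sdiff_eq_self_of_disjoint
      rw [Finset.disjoint_left]
      intro x hx hx'
      exact (Finset.mem_compl.1 (hE hx)) hx'
    rw [← hcan C hC.1, ← hcan D hD.1, heq]

/-- densities of families closed upwards grow -/
lemma density_up {a b : ℕ} (hab : a ≤ b) (A B : Finset (Finset (Fin n)))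
    (hA : ∀ S ∈ A, S.card = a) (hB : ∀ S ∈ B, S.card = b)
    (h : ∀ S ∈ A, ∀ T : Finset (Fin n), T.card = b → S ⊆ T → T ∈ B) :
    A.card * n.choose b ≤ B.card * n.choose a := by
  classical
  have h1 : A.card * (n - a).choose (b - a) ≤ B.card * b.choose a := by
    apply Finset.card_mul_le_card_mul (fun S T => S ⊆ T)
    · intro S hS
      have h2 := card_supersets S (b := b) (by rw [hA S hS]; exact hab)
      rw [hA S hS] at h2
      refine h2.trans (Finset.card_le_card ?_)
      intro T hT
      rw [mem_filter, Finset.mem_powersetCard] at hT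
      rw [Finset.mem_bipartiteAbove]
      exact ⟨h S hS T hT.1.2 hT.2, hT.2⟩
    · intro T hT
      rw [← hB T hT, ← Finset.card_powersetCard]
      refine Finset.card_le_card ?_
      intro S hS
      rw [Finset.mem_bipartiteBelow] at hS
      rw [Finset.mem_powersetCard]
      exact ⟨hS.2, hA S hS.1⟩
  have h3 : n.choose b * b.choose a = n.choose a * (n - a).choose (b - a) :=
    Nat.choose_mul hab
  have h4 : 0 < b.choose a := Nat.choose_pos hab
  apply Nat.le_of_mul_le_mul_right (c := b.choose a) _ h4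
  calc A.card * n.choose b * b.choose a = A.card * (n.choose b * b.choose a) := by ring
    _ = n.choose a * (A.card * (n - a).choose (b - a)) := by rw [h3]; ring
    _ ≤ n.choose a * (B.card * b.choose a) := Nat.mul_le_mul_left _ h1
    _ = _ := by ring

open Classical in
/-- sets of size `t` containing a base of size `k`, which do not embed into `H` -/
noncomputable def UU (k : ℕ) (G H : SimpleGraph (Fin n)) (t : ℕ) : Finset (Finset (Fin n)) :=
  (Finset.powersetCard t univ).filter
    (fun T => (∃ K ⊆ T, K.card = k ∧ Base G K) ∧ ¬ Embeds G H T)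

open Classical in
lemma mem_UU {k : ℕ} {G H : SimpleGraph (Fin n)} {t : ℕ} {T : Finset (Fin n)} :
    T ∈ UU k G H t ↔ T.card = t ∧ (∃ K ⊆ T, K.card = k ∧ Base G K) ∧ ¬ Embeds G H T := by
  unfold UU
  rw [mem_filter, Finset.mem_powersetCard]
  simp only [Finset.subset_univ, true_and]

lemma UU_up {k : ℕ} {G H : SimpleGraph (Fin n)} {t s : ℕ} {T S : Finset (Fin n)}
    (hT : T ∈ UU k G H t) (hS : S.card = s) (hTS : T ⊆ S) : S ∈ UU k G H s := by
  rw [mem_UU] at hT ⊢
  obtain ⟨_, ⟨K, hK, hk, hb⟩, h2⟩ := hT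
  exact ⟨hS, ⟨K, hK.trans hTS, hk, hb⟩, fun h => h2 (h.mono hTS)⟩

open Classical in
/-- bases of size `k` -/
noncomputable def bases (k : ℕ) (G : SimpleGraph (Fin n)) : Finset (Finset (Fin n)) :=
  (Finset.powersetCard k univ).filter (fun K => Base G K)

/-- Density of the sets of `UU`. -/
lemma UU_density {k : ℕ} {G H : SimpleGraph (Fin n)} (hkn : k + 2 ≤ n)
    (hb : 7 * n.choose k ≤ 8 * (bases k G).card) (hGH : IsEmpty (G ≃g H)) {t : ℕ}
    (hkt : k + 2 ≤ t) (htn : t ≤ n) :
    n.choose t ≤ (UU k G H t).card * (2 * n ^ 2) := by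
  classical
  set E : Finset (Fin n) → Finset (Finset (Fin n)) := fun K =>
    (Finset.powersetCard k univ).filter (fun K' =>
      tp k (H.induce (K' : Set (Fin n))) = tp k (G.induce (K : Set (Fin n)))) with hE
  set Bs := bases k G with hBs
  have hBmem : ∀ K ∈ Bs, K.card = k ∧ Base G K := by
    intro K hK
    rw [hBs, bases, mem_filter, Finset.mem_powersetCard] at hK
    exact ⟨hK.1.2, hK.2⟩
  have hEdisj : ∑ K ∈ Bs, (E K).card ≤ n.choose k := by
    rw [← Finset.card_biUnion]
    · have : n.choose k = (Finset.powersetCard k (univ : Finset (Fin n))).card := by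
        rw [Finset.card_powersetCard, Finset.card_univ, Fintype.card_fin]
      rw [this]
      apply Finset.card_le_card
      intro K' hK'
      rw [mem_biUnion] at hK'
      obtain ⟨K, _, h⟩ := hK'
      exact (mem_filter.1 h).1
    · intro K hK L hL hne
      rw [Function.onFun, Finset.disjoint_left]
      intro K' h1 h2
      rw [hE, mem_filter] at h1 h2
      apply hne
      have h3 := h1.2.symm.trans h2.2
      have := tp_unique (hBmem K hK).2 (Finset.Subset.refl K) (hBmem K hK).1 (hBmem L hL).1 h3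
      exact this.symm
  set Z := Bs.filter (fun K => (E K).card = 0) with hZ
  set W := Bs.filter (fun K => (E K).card = 1) with hW
  set R := Bs.filter (fun K => 2 ≤ (E K).card) with hR
  have hsplit : Bs.card = Z.card + W.card + R.card := by
    have h1 : Bs = (Z ∪ W) ∪ R := by
      ext K
      simp only [hZ, hW, hR, mem_union, mem_filter]
      constructor
      · intro hK
        rcases Nat.lt_or_ge (E K).card 2 with h | h
        · left
          interval_cases h' : (E K).card
          · left; exact ⟨hK, rfl⟩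
          · right; exact ⟨hK, rfl⟩
        · right; exact ⟨hK, h⟩
      · rintro ((h | h) | h) <;> exact h.1
    have d1 : Disjoint Z W := by
      rw [Finset.disjoint_left]
      intro K h1 h2
      rw [hZ, mem_filter] at h1
      rw [hW, mem_filter] at h2
      omega
    have d2 : Disjoint (Z ∪ W) R := by
      rw [Finset.disjoint_left]
      intro K h1 h2
      rw [hR, mem_filter] at h2
      rw [mem_union, hZ, hW, mem_filter, mem_filter] at h1
      omega
    conv_lhs => rw [h1]
    rw [Finset.card_union_of_disjoint d2, Finset.card_union_of_disjoint d1]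
  have hsum : W.card + 2 * R.card ≤ n.choose k := by
    refine le_trans ?_ hEdisj
    have h1 : ∑ K ∈ W, (E K).card = W.card := by
      rw [Finset.sum_congr rfl (fun K hK => (mem_filter.1 hK).2), Finset.sum_const, smul_eq_mul,
        mul_one]
    have h2 : 2 * R.card ≤ ∑ K ∈ R, (E K).card := by
      have := Finset.card_nsmul_le_sum R (fun K => (E K).card) 2
        (fun K hK => (mem_filter.1 hK).2)
      rw [smul_eq_mul] at this
      linarith
    have d : Disjoint W R := by
      rw [Finset.disjoint_left]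
      intro K h1 h2
      rw [hW, mem_filter] at h1
      rw [hR, mem_filter] at h2
      omega
    calc W.card + 2 * R.card ≤ ∑ K ∈ W, (E K).card + ∑ K ∈ R, (E K).card := by omega
      _ = ∑ K ∈ W ∪ R, (E K).card := (Finset.sum_union d).symm
      _ ≤ ∑ K ∈ Bs, (E K).card := by
          apply Finset.sum_le_sum_of_subset
          intro K hK
          rcases Finset.mem_union.1 hK with h | h
          · exact (mem_filter.1 h).1
          · exact (mem_filter.1 h).1
  have hn2 : 2 ≤ n := by omega
  by_cases hZc : n.choose k ≤ 4 * Z.card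
  · -- many bases are not embeddable
    have h1 := density_up (n := n) (a := k) (b := t) (by omega) Z (UU k G H t)
      (fun S hS => (hBmem S (mem_filter.1 hS).1).1) (fun S hS => (mem_UU.1 hS).1)
      (by
        intro S hS T hT hST
        rw [hZ, mem_filter, Finset.card_eq_zero] at hS
        rw [mem_UU]
        refine ⟨hT, ⟨S, hST, (hBmem S hS.1).1, (hBmem S hS.1).2⟩, ?_⟩
        intro hemb
        obtain ⟨f, h1, h2⟩ := hemb.mono hST
        have hc : (S.image f).card = k := by
          rw [Finset.card_image_of_injOn h1, (hBmem S hS.1).1]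
        obtain ⟨e⟩ := fun_iso h1 h2
        have h3 : S.image f ∈ E S := by
          rw [hE, mem_filter, Finset.mem_powersetCard]
          exact ⟨⟨Finset.subset_univ _, hc⟩,
            (tp_eq_iff (nonempty_equiv _ hc) (nonempty_equiv S (hBmem S hS.1).1)).2 ⟨e.symm⟩⟩
        rw [hS.2] at h3
        exact absurd h3 (Finset.notMem_empty _))
    have h2 : 0 < n.choose k := Nat.choose_pos (by omega)
    have h3 : n.choose t ≤ 4 * (UU k G H t).card := by
      apply Nat.le_of_mul_le_mul_right (c := n.choose k) _ h2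
      calc n.choose t * n.choose k ≤ n.choose t * (4 * Z.card) := Nat.mul_le_mul_left _ hZc
        _ = 4 * (Z.card * n.choose t) := by ring
        _ ≤ 4 * ((UU k G H t).card * n.choose k) := Nat.mul_le_mul_left _ h1
        _ = _ := by ring
    refine h3.trans ?_
    rw [mul_comm]
    apply Nat.mul_le_mul_left
    nlinarith
  · -- many bases embed uniquely
    push Not at hZc
    have hWc : n.choose k ≤ 4 * W.card := by omega
    -- each of them has a nonembeddable superset with two more elements
    have hcov : ∀ K ∈ W, ∃ T ∈ UU k G H (k + 2), K ⊆ T := by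
      intro K hK
      rw [hW, mem_filter, Finset.card_eq_one] at hK
      obtain ⟨hKB, K', hK'⟩ := hK
      obtain ⟨hKc, hKb⟩ := hBmem K hKB
      by_contra hno
      push Not at hno
      have := reconstruct (H := H) hKb hKc hkn K' (by
          intro K'' hc heq
          have : K'' ∈ E K := by
            rw [hE, mem_filter, Finset.mem_powersetCard]
            exact ⟨⟨Finset.subset_univ _, hc⟩, heq⟩
          rw [hK'] at this
          exact Finset.mem_singleton.1 this)
        (by
          intro u hu v hv huv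
          by_contra hne
          have hvK : u ∉ insert v K := by
            rw [Finset.mem_insert]; push Not; exact ⟨huv, hu⟩
          have hsub : K ⊆ insert u (insert v K) :=
            (Finset.subset_insert v K).trans (Finset.subset_insert u _)
          apply hno (insert u (insert v K)) _ hsub
          rw [mem_UU]
          refine ⟨?_, ⟨K, hsub, hKc, hKb⟩, hne⟩
          rw [Finset.card_insert_of_notMem hvK, Finset.card_insert_of_notMem hv, hKc])
      exact hGH.false this.some
    have h1 : W.card * 1 ≤ (UU k G H (k + 2)).card * (k + 2).choose k := by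
      apply Finset.card_mul_le_card_mul (fun S T => S ⊆ T)
      · intro K hK
        obtain ⟨T, hT, hKT⟩ := hcov K hK
        rw [Nat.one_le_iff_ne_zero, ← Nat.pos_iff_ne_zero, Finset.card_pos]
        exact ⟨T, (Finset.mem_bipartiteAbove _).2 ⟨hT, hKT⟩⟩
      · intro T hT
        have hTc := (mem_UU.1 hT).1
        rw [← hTc, ← Finset.card_powersetCard]
        refine Finset.card_le_card ?_
        intro S hS
        rw [Finset.mem_bipartiteBelow] at hS
        rw [Finset.mem_powersetCard]
        exact ⟨hS.2, (hBmem S (mem_filter.1 hS.1).1).1⟩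
    have h2 := density_up (n := n) (a := k + 2) (b := t) hkt (UU k G H (k + 2)) (UU k G H t)
      (fun S hS => (mem_UU.1 hS).1) (fun S hS => (mem_UU.1 hS).1)
      (fun S hS T hT hST => UU_up hS hT hST)
    have h3 : n.choose (k + 2) * (k + 2).choose k = n.choose k * (n - k).choose 2 := by
      have := Nat.choose_mul (n := n) (k := k + 2) (s := k) (by omega)
      rw [this]
      congr 2
      omega
    have h4 : (n - k).choose 2 * 2 ≤ n ^ 2 := by
      rw [Nat.choose_two_right]
      have h5 : (n - k) * (n - k - 1) / 2 * 2 ≤ (n - k) * (n - k - 1) := Nat.div_mul_le_self _ _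
      have h6 : (n - k) * (n - k - 1) ≤ n * n := Nat.mul_le_mul (by omega) (by omega)
      nlinarith
    have h5 : 0 < n.choose k := Nat.choose_pos (by omega)
    have h6 : n.choose t * n.choose k ≤ (UU k G H t).card * (2 * n ^ 2) * n.choose k := by
      calc n.choose t * n.choose k ≤ n.choose t * (4 * W.card) := Nat.mul_le_mul_left _ hWc
        _ ≤ n.choose t * (4 * ((UU k G H (k + 2)).card * (k + 2).choose k)) := by
            apply Nat.mul_le_mul_left; apply Nat.mul_le_mul_left; linarith
        _ = 4 * (k + 2).choose k * ((UU k G H (k + 2)).card * n.choose t) := by ring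
        _ ≤ 4 * (k + 2).choose k * ((UU k G H t).card * n.choose (k + 2)) :=
            Nat.mul_le_mul_left _ h2
        _ = 4 * (UU k G H t).card * (n.choose (k + 2) * (k + 2).choose k) := by ring
        _ = 2 * (UU k G H t).card * n.choose k * ((n - k).choose 2 * 2) := by rw [h3]; ring
        _ ≤ 2 * (UU k G H t).card * n.choose k * n ^ 2 := Nat.mul_le_mul_left _ h4
        _ = _ := by ring
    exact Nat.le_of_mul_le_mul_right h6 h5

end Pool.Agent.R54.HP
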